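import Pool.Agent.Lib.MP_8113ca_al.Two.Star3

/-!
The case `G = A N` with a normal `π`-subgroup `N`: the intersections of `X N` with the conjugates of a
`ρ`-subgroup `Q` lie in `X` and generate a normal subgroup of `G`.
-/

set_option autoImplicit false

open scoped Pointwise

namespace Pool.Agent.Lib.MP_8113ca_al.Two

open Pool.Agent.Lib.MP_8113ca_al

variable {G : Type*} [Group G]

theorem exists_normal_of_top [Finite G] {π ρ : Set ℕ} (hd : Disjoint π ρ) {A N Q : Subgroup G} [N.Normal]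
    (hN : IsPiNumber π (Nat.card N)) (hAN : A ⊔ N = ⊤) (hQ : IsPiNumber ρ (Nat.card Q))
    (hQA : ∀ g : G, IsPiPrimeNumber ρ ((MulAut.conj g • Q).relIndex A)) {X : Subgroup A} [X.Normal]
    (hX : IsPiNumber (π ∪ ρ) (Nat.card X)) (hXπ : ¬ IsPiNumber π (Nat.card X)) :
    ∃ R : Subgroup G, R.Normal ∧ R ≠ ⊥ ∧ R ≤ A := by
  set X' : Subgroup G := X.map A.subtype with hX'
  have hX'A : X' ≤ A := Subgroup.map_subtype_le X
  have hcardX : Nat.card X' = Nat.card X :=
    (Nat.card_congr (X.equivMapOfInjective A.subtype A.subtype_injective).toEquiv).symm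
  set M : Subgroup G := X' ⊔ N with hM
  -- `M` is normal in `G`
  have hMn : M.Normal := by
    constructor
    intro x hx g
    have hg : g ∈ A ⊔ N := by
      rw [hAN]
      exact Subgroup.mem_top g
    obtain ⟨a, ha, n, hn, rfl⟩ := Subgroup.mem_sup_of_normal_right.1 hg
    have hnM : n ∈ M := (le_sup_right : N ≤ X' ⊔ N) hn
    have h1 : n * x * n⁻¹ ∈ X' ⊔ N := M.mul_mem (M.mul_mem hnM hx) (M.inv_mem hnM)
    obtain ⟨y, hy, z, hz, e⟩ := Subgroup.mem_sup_of_normal_right.1 h1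
    have h2 : a * n * x * (a * n)⁻¹ = a * y * a⁻¹ * (a * z * a⁻¹) := by
      have h3 : a * n * x * (a * n)⁻¹ = a * (n * x * n⁻¹) * a⁻¹ := by group
      rw [h3, ← e]
      group
    rw [h2]
    refine M.mul_mem ((le_sup_left : X' ≤ X' ⊔ N) ?_) ((le_sup_right : N ≤ X' ⊔ N) ?_)
    · obtain ⟨x0, hx0, rfl⟩ := hy
      refine ⟨⟨a, ha⟩ * x0 * ⟨a, ha⟩⁻¹, ?_, rfl⟩
      exact (inferInstance : X.Normal).conj_mem x0 hx0 ⟨a, ha⟩
    · exact (inferInstance : N.Normal).conj_mem z hz a
  -- the conjugates of `Q` meet `M` in subgroups of `X'`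
  have hQX : ∀ g : G, IsPiPrimeNumber ρ ((Cj Q g).relIndex X') := by
    intro g
    refine (hQA g).of_dvd ?_
    rw [conj_smul_eq]
    have h1 : ((Cj Q g).subgroupOf A).relIndex X = (Cj Q g).relIndex X' := by
      rw [← relIndex_subgroupOf hX'A (K := Cj Q g)]
      congr 1
      exact (Subgroup.comap_map_eq_self_of_injective A.subtype_injective X).symm
    rw [← h1, ← relIndex_sup_of_normal ((Cj Q g).subgroupOf A) X]
    exact Subgroup.relIndex_dvd_index_of_le le_sup_left
  have key : ∀ g : G, Cj Q g ⊓ M ≤ X' := by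
    intro g
    have hNρ : IsPiPrimeNumber ρ (Nat.card N) := fun p hp hpd hpρ =>
      Set.disjoint_left.1 hd (hN p hp hpd) hpρ
    have hXM : IsPiPrimeNumber ρ (X'.relIndex M) := by
      rw [hM, relIndex_sup_of_normal X' N]
      exact hNρ.of_dvd (Subgroup.relIndex_dvd_card X' N)
    have h0 : IsPiPrimeNumber ρ ((Cj Q g ⊓ X').relIndex M) := by
      rw [← Subgroup.relIndex_mul_relIndex (Cj Q g ⊓ X') X' M inf_le_right le_sup_left,
        Subgroup.inf_relIndex_right]
      exact (hQX g).mul hXM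
    have h1 : (Cj Q g ⊓ X').relIndex (Cj Q g ⊓ M) = 1 := by
      apply eq_one_of_isPiNumber_of_isPiPrimeNumber (π := ρ)
      · refine hQ.of_dvd ((Subgroup.relIndex_dvd_card _ _).trans ?_)
        rw [← card_Cj Q g]
        exact Subgroup.card_dvd_of_le inf_le_left
      · refine h0.of_dvd ?_
        rw [← Subgroup.relIndex_mul_relIndex (Cj Q g ⊓ X') (Cj Q g ⊓ M) M
          (inf_le_inf_left _ le_sup_left) inf_le_right]
        exact dvd_mul_right _ _
    exact (Subgroup.relIndex_eq_one.1 h1).trans inf_le_right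
  refine ⟨⨆ g : G, (Cj Q g ⊓ M), ?_, ?_, iSup_le fun g => (key g).trans hX'A⟩
  · constructor
    intro x hx g
    have h3 : (⨆ g : G, (Cj Q g ⊓ M)) ≤ Cj (⨆ g : G, (Cj Q g ⊓ M)) g⁻¹ := by
      refine iSup_le fun k => ?_
      intro y hy
      rw [mem_Cj, inv_inv]
      refine (le_iSup (fun g : G => (Cj Q g ⊓ M)) (g * k) : Cj Q (g * k) ⊓ M ≤ _) ⟨?_, ?_⟩
      · show g * y * g⁻¹ ∈ Cj Q (g * k)
        rw [Cj_mul, mem_Cj]
        have : g⁻¹ * (g * y * g⁻¹) * g = y := by group
        rw [this]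
        exact hy.1
      · exact hMn.conj_mem y hy.2 g
    have h4 := h3 hx
    rw [mem_Cj, inv_inv] at h4
    exact h4
  · intro hbot
    apply hXπ
    intro p hp hpd
    rcases hX p hp hpd with h | h
    · exact h
    · exfalso
      have h1 := card_inf_mul_relIndex (Cj Q 1) X'
      have h2 : p ∣ Nat.card (X' ⊓ Cj Q 1 : Subgroup G) * (Cj Q 1).relIndex X' := by
        rw [h1, hcardX]
        exact hpd
      rcases hp.dvd_mul.1 h2 with h3 | h3
      · have h4 : X' ⊓ Cj Q 1 ≤ ⊥ := by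
          rw [← hbot]
          refine le_trans ?_ (le_iSup (fun g : G => (Cj Q g ⊓ M)) 1)
          exact fun y hy => ⟨hy.2, (le_sup_left : X' ≤ X' ⊔ N) hy.1⟩
        rw [le_bot_iff.1 h4, Subgroup.card_bot] at h3
        exact hp.one_lt.ne' (Nat.dvd_one.1 h3)
      · exact hQX 1 p hp h3 h

end Pool.Agent.Lib.MP_8113ca_al.Two
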