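import Pool.Agent.Lib.MP_8113ca_al.Two.Lat

/-!
# The conjugates of a minimal member commute
-/

set_option autoImplicit false

namespace Pool.Agent.Lib.MP_8113ca_al.Two

variable {G : Type*} [Group G]

/-- `Ω` is a class of conjugate minimal members; proper members satisfy the conclusion -/
structure Ctx (H K : Subgroup G) (Ω : Set (Subgroup G)) : Prop where
  cop : (Nat.card H).Coprime (Nat.card K)
  cH : H.normalCore = ⊥
  cK : K.normalCore = ⊥
  mem : ∀ X ∈ Ω, Mem H K X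
  ne : ∀ X ∈ Ω, X ≠ ⊥
  min : ∀ X ∈ Ω, ∀ C, Mem H K C → C ≤ X → C = ⊥ ∨ C = X
  conj : ∀ X ∈ Ω, ∀ g, Cj X g ∈ Ω
  tr : ∀ X ∈ Ω, ∀ Y ∈ Ω, ∃ g, Y = Cj X g
  h5 : ∀ C, Mem H K C → C ≠ ⊤ → ∀ X ∈ Ω, ∀ Y ∈ Ω, X ≤ C → Y ≤ C → Rl X Y

/-- the product of the members of `Ω` related to `X` -/
def EE (Ω : Set (Subgroup G)) (X : Subgroup G) : Subgroup G := sSup {Y | Y ∈ Ω ∧ Rl X Y}

variable {H K : Subgroup G} {Ω : Set (Subgroup G)}

theorem exists_ty {A : Subgroup G} (hA : Mem H K A) (hne : A ≠ ⊥) : ∃ e ∈ A, e ≠ 1 ∧ Ty H K e := by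
  obtain ⟨a, ha⟩ := (Subgroup.ne_bot_iff_exists_ne_one.1 hne)
  obtain ⟨u, v, h1, h2, h3, h4, h5⟩ := hA 1 1 a.1 a.2
  by_cases hu : u = 1
  · refine ⟨v, h2, ?_, Or.inr ⟨1, h4⟩⟩
    rintro rfl
    rw [hu, mul_one] at h5
    exact ha (Subtype.ext h5)
  · exact ⟨u, h1, hu, Or.inl ⟨1, h3⟩⟩

namespace Ctx

theorem symm (c : Ctx H K Ω) : Ctx K H Ω where
  cop := c.cop.symm
  cH := c.cK
  cK := c.cH
  mem := fun X hX => (c.mem X hX).symm
  ne := c.ne
  min := fun X hX C hC => c.min X hX C hC.symm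
  conj := c.conj
  tr := c.tr
  h5 := fun C hC => c.h5 C hC.symm

/-- (F0) -/
theorem inf_eq (c : Ctx H K Ω) {X Y : Subgroup G} (hX : X ∈ Ω) (hY : Y ∈ Ω) (hne : X ≠ Y) : X ⊓ Y = ⊥ := by
  have hm := (c.mem X hX).inf c.cop (c.mem Y hY)
  rcases c.min X hX _ hm inf_le_left with h | h
  · exact h
  · rcases c.min Y hY _ hm inf_le_right with h' | h'
    · exact h'
    · exact absurd (h.symm.trans h') hne

theorem eq_of_mem (c : Ctx H K Ω) {X Y : Subgroup G} (hX : X ∈ Ω) (hY : Y ∈ Ω) {e : G} (he : e ≠ 1)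
    (h1 : e ∈ X) (h2 : e ∈ Y) : X = Y := by
  by_contra hne
  have : e ∈ X ⊓ Y := ⟨h1, h2⟩
  rw [c.inf_eq hX hY hne, Subgroup.mem_bot] at this
  exact he this

/-- (F4) -/
theorem f4 (c : Ctx H K Ω) {X Y : Subgroup G} (hX : X ∈ Ω) (hY : Y ∈ Ω) {e : G} (heX : e ∈ X) (he : e ≠ 1)
    (ht : Ty H K e) (hn : ∀ y ∈ Y, e⁻¹ * y * e ∈ Y) : Rl X Y := by
  by_cases hne : X = Y
  · exact Or.inl hne
  have h1 := keyTy c.cop c.cH c.cK (c.mem X hX) (c.mem Y hY) (c.inf_eq hX hY hne) heX ht hn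
  have h2 : ∀ y ∈ Y, ∀ x ∈ X, y⁻¹ * x * y ∈ X := by
    intro y hy x hx
    have e1 : e ∈ Cj X y := by
      rw [mem_Cj, mul_assoc, h1 y hy, inv_mul_cancel_left]
      exact heX
    have e2 : X = Cj X y := c.eq_of_mem hX (c.conj X hX y) he heX e1
    rw [e2, mem_Cj] at hx
    exact hx
  have h3 := keyAll c.cop c.cH c.cK (c.mem Y hY) (c.mem X hX) (by rw [inf_comm]; exact c.inf_eq hX hY hne) h2
  exact Or.inr fun a ha b hb => (h3 b hb a ha).symm

theorem not_comm (c : Ctx H K Ω) {X : Subgroup G} (hX : X ∈ Ω) : ¬ ∀ a ∈ X, ∀ b ∈ X, a * b = b * a := fun h =>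
  c.ne X hX (abel c.cop c.cH c.cK (c.mem X hX) h)

/-- (F6) -/
theorem trans (c : Ctx H K Ω) {X Y Z : Subgroup G} (hX : X ∈ Ω) (hY : Y ∈ Ω) (hZ : Z ∈ Ω) (h1 : Rl X Y)
    (h2 : Rl X Z) : Rl Y Z := by
  rcases h1 with rfl | h1
  · exact h2
  rcases h2 with rfl | h2
  · exact Rl.symm (Or.inr h1)
  have hC : Y ⊔ Z ≤ Subgroup.centralizer (X : Set G) := by
    refine sup_le ?_ ?_
    · intro y hy
      rw [Subgroup.mem_centralizer_iff]
      intro x hx
      exact h1 x hx y hy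
    · intro y hy
      rw [Subgroup.mem_centralizer_iff]
      intro x hx
      exact h2 x hx y hy
  refine c.h5 (Y ⊔ Z) ((c.mem Y hY).sup (c.mem Z hZ)) ?_ Y hY Z hZ le_sup_left le_sup_right
  intro htop
  rw [htop] at hC
  refine c.not_comm hX fun a ha b _ => ?_
  exact (Subgroup.mem_centralizer_iff.1 (hC (Subgroup.mem_top b))) a ha

theorem mem_E (c : Ctx H K Ω) {X : Subgroup G} : Mem H K (EE Ω X) :=
  Mem.sSup fun Y hY => c.mem Y hY.1

theorem le_E {X Y : Subgroup G} (hY : Y ∈ Ω) (h : Rl X Y) : Y ≤ EE Ω X := le_sSup ⟨hY, h⟩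

theorem E_ne (c : Ctx H K Ω) {X : Subgroup G} (hX : X ∈ Ω) : EE Ω X ≠ ⊥ := by
  intro h
  have := le_E hX (Rl.refl X)
  rw [h, le_bot_iff] at this
  exact c.ne X hX this

/-- (F7) -/
theorem f7 (c : Ctx H K Ω) {X Y : Subgroup G} (hX : X ∈ Ω) (hY : Y ∈ Ω) (h : Rl X Y) :
    ∀ e ∈ EE Ω X, ∀ y ∈ Y, e⁻¹ * y * e ∈ Y := by
  have h1 : EE Ω X ≤ Subgroup.normalizer (Y : Set G) := by
    refine sSup_le ?_
    rintro Z ⟨hZ, hr⟩
    rcases c.trans hX hY hZ h hr with rfl | h2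
    · exact Subgroup.le_normalizer
    · intro z hz
      rw [Subgroup.mem_normalizer_iff]
      intro y
      constructor
      · intro hy
        have : z * y * z⁻¹ = y := by
          rw [← h2 y hy z hz]
          group
        show z * y * z⁻¹ ∈ Y
        rw [this]
        exact hy
      · intro hy
        show y ∈ Y
        have e1 := h2 _ hy z hz
        have : y = z * y * z⁻¹ := by
          have : z * y * z⁻¹ * z = z * (z * y * z⁻¹) := e1
          calc y = z⁻¹ * (z * y * z⁻¹ * z) := by group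
            _ = z⁻¹ * (z * (z * y * z⁻¹)) := by rw [this]
            _ = z * y * z⁻¹ := by group
        rw [this]
        exact hy
  intro e he y hy
  have h2 := (Subgroup.mem_normalizer_iff.1 ((Subgroup.normalizer (Y : Set G)).inv_mem (h1 he)) y).1 hy
  rwa [inv_inv] at h2

/-- (F8) -/
theorem f8 (c : Ctx H K Ω) {X X1 : Subgroup G} (hX : X ∈ Ω) (hX1 : X1 ∈ Ω) (hne : ¬ Rl X X1) :
    EE Ω X ⊓ EE Ω X1 = ⊥ := by
  set D := EE Ω X ⊓ EE Ω X1 with hD
  have hDm : Mem H K D := c.mem_E.inf c.cop c.mem_E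
  have h1 : ∀ Y ∈ Ω, Rl X Y → ∀ d ∈ D, ∀ y ∈ Y, d * y = y * d := by
    intro Y hY hr
    have h2 : Y ⊓ EE Ω X1 = ⊥ := by
      rcases c.min Y hY _ ((c.mem Y hY).inf c.cop c.mem_E) inf_le_left with h | h
      · exact h
      · exfalso
        have h3 : Y ≤ EE Ω X1 := by rw [← h]; exact inf_le_right
        obtain ⟨e, he, he1, ht⟩ := exists_ty (c.mem Y hY) (c.ne Y hY)
        have h4 := c.f4 hY hX1 he he1 ht (c.f7 hX1 hX1 (Rl.refl X1) e (h3 he))
        exact hne (c.trans hY hX hX1 hr.symm h4)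
    have h3 : D ⊓ Y = ⊥ := by
      rw [eq_bot_iff, ← h2]
      exact fun z hz => ⟨hz.2, hz.1.2⟩
    exact keyAll c.cop c.cH c.cK hDm (c.mem Y hY) h3 fun d hd => c.f7 hX hY hr d hd.1
  have h2 : EE Ω X ≤ Subgroup.centralizer (D : Set G) := by
    refine sSup_le ?_
    rintro Y ⟨hY, hr⟩ y hy
    rw [Subgroup.mem_centralizer_iff]
    intro d hd
    exact h1 Y hY hr d hd y hy
  refine abel c.cop c.cH c.cK hDm fun a ha b hb => ?_
  exact Subgroup.mem_centralizer_iff.1 (h2 hb.1) a ha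

theorem E_congr (c : Ctx H K Ω) {X Y : Subgroup G} (hX : X ∈ Ω) (hY : Y ∈ Ω) (h : Rl X Y) : EE Ω X = EE Ω Y := by
  unfold EE
  congr 1
  ext Z
  constructor
  · rintro ⟨hZ, hr⟩
    exact ⟨hZ, c.trans hX hY hZ h hr⟩
  · rintro ⟨hZ, hr⟩
    exact ⟨hZ, c.trans hY hX hZ h.symm hr⟩

theorem Rl.cj {A B : Subgroup G} (h : Rl A B) (g : G) : Rl (Cj A g) (Cj B g) := by
  rcases h with rfl | h
  · exact Or.inl rfl
  · refine Or.inr fun a ha b hb => ?_
    rw [mem_Cj] at ha hb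
    have := h _ ha _ hb
    have e1 : a * b = g * ((g⁻¹ * a * g) * (g⁻¹ * b * g)) * g⁻¹ := by group
    rw [e1, this]
    group

theorem E_cj (c : Ctx H K Ω) {X : Subgroup G} (g : G) : Cj (EE Ω X) g = EE Ω (Cj X g) := by
  have h1 : ∀ (g : G) (X : Subgroup G), EE Ω (Cj X g) ≤ Cj (EE Ω X) g := by
    intro g X
    refine sSup_le ?_
    rintro Y ⟨hY, hr⟩
    have h2 : Rl X (Cj Y g⁻¹) := by
      have := Rl.cj hr g⁻¹
      rwa [← Cj_mul, inv_mul_cancel, Cj_one] at this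
    have h3 := Cj_mono (le_E (c.conj Y hY g⁻¹) h2) g
    rwa [← Cj_mul, mul_inv_cancel, Cj_one] at h3
  refine le_antisymm ?_ (h1 g X)
  rw [Cj_le_iff]
  have := h1 g⁻¹ (Cj X g)
  rwa [← Cj_mul, inv_mul_cancel, Cj_one] at this

/-- (F9) -/
theorem f9 (c : Ctx H K Ω) {X Y : Subgroup G} (hX : X ∈ Ω) (hY : Y ∈ Ω) (hne : EE Ω X ≠ EE Ω Y) :
    EE Ω X ⊓ EE Ω Y = ⊥ := c.f8 hX hY fun h => hne (c.E_congr hX hY h)

/-- (F10) -/
theorem f10 (c : Ctx H K Ω) {X Y : Subgroup G} (hX : X ∈ Ω) (hY : Y ∈ Ω) {e : G} (heX : e ∈ EE Ω X)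
    (he : e ≠ 1) (ht : Ty H K e) (hn : ∀ y ∈ EE Ω Y, e⁻¹ * y * e ∈ EE Ω Y) : EE Ω X = EE Ω Y := by
  by_contra hne
  have h1 := keyTy c.cop c.cH c.cK c.mem_E c.mem_E (c.f9 hX hY hne) heX ht hn
  have h2 : ∀ y ∈ EE Ω Y, ∀ x ∈ EE Ω X, y⁻¹ * x * y ∈ EE Ω X := by
    intro y hy x hx
    have e1 : e ∈ Cj (EE Ω X) y := by
      rw [mem_Cj, mul_assoc, h1 y hy, inv_mul_cancel_left]
      exact heX
    have e2 : EE Ω X = Cj (EE Ω X) y := by
      by_contra hne2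
      rw [c.E_cj] at hne2 e1
      have h3 := c.f9 hX (c.conj X hX y) hne2
      have : e ∈ EE Ω X ⊓ EE Ω (Cj X y) := ⟨heX, e1⟩
      rw [h3, Subgroup.mem_bot] at this
      exact he this
    rw [e2, mem_Cj] at hx
    exact hx
  have h3 := keyAll c.cop c.cH c.cK c.mem_E c.mem_E (by rw [inf_comm]; exact c.f9 hX hY hne) h2
  refine hne (c.E_congr hX hY (Or.inr fun a ha b hb => ?_))
  exact (h3 b (le_E hY (Rl.refl Y) hb) a (le_E hX (Rl.refl X) ha)).symm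

/-- the conjugation action on the products -/
@[reducible] noncomputable def act (c : Ctx H K Ω) : MulAction G {S : Subgroup G // ∃ X ∈ Ω, S = EE Ω X} where
  smul g S := ⟨Cj S.1 g, by
    obtain ⟨X, hX, h⟩ := S.2
    exact ⟨Cj X g, c.conj X hX g, by rw [h, c.E_cj]⟩⟩
  one_smul S := Subtype.ext (Cj_one _)
  mul_smul g h S := Subtype.ext (Cj_mul _ _ _)

/-- (F11) -/
theorem dvd [Finite G] (c : Ctx H K Ω) {X0 : Subgroup G} (hX0 : X0 ∈ Ω) :
    Nat.card {S : Subgroup G // ∃ X ∈ Ω, S = EE Ω X} ∣ Nat.card H := by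
  let _ := c.act
  have hsm : ∀ (g : G) (S : {S : Subgroup G // ∃ X ∈ Ω, S = EE Ω X}), (g • S).1 = Cj S.1 g := fun _ _ => rfl
  have hne : EE Ω X0 ⊓ Cj H 1 ≠ ⊥ := by
    intro h
    have h1 : EE Ω X0 ≤ Cj K 1 := by
      intro a ha
      obtain ⟨u, v, h1, h2, h3, h4, h5⟩ := c.mem_E (X := X0) 1 1 a ha
      have : u ∈ EE Ω X0 ⊓ Cj H 1 := ⟨h1, h3⟩
      rw [h, Subgroup.mem_bot] at this
      rw [h5, this, one_mul]
      exact h4
    exact c.E_ne hX0 (prim c.cop.symm c.cK c.mem_E.symm h1)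
  have hcard : Nat.card (EE Ω X0 ⊓ Cj H 1 : Subgroup G) ≠ 1 := by
    intro h
    exact hne (Subgroup.card_eq_one.1 h)
  obtain ⟨p, hp, hpd⟩ := Nat.exists_prime_and_dvd hcard
  have : Fact p.Prime := ⟨hp⟩
  have hpH : p ∣ Nat.card H := by
    rw [← card_Cj H 1]
    exact hpd.trans (Subgroup.card_dvd_of_le inf_le_right)
  have hex : ∀ S : {S : Subgroup G // ∃ X ∈ Ω, S = EE Ω X}, ∃ e ∈ S.1, e ∈ H ∧ orderOf e = p := by
    rintro ⟨S, X, hX, rfl⟩
    obtain ⟨g, rfl⟩ := c.tr X0 hX0 X hX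
    have h1 : p ∣ Nat.card (EE Ω (Cj X0 g)) := by
      rw [← c.E_cj, card_Cj]
      exact hpd.trans (Subgroup.card_dvd_of_le inf_le_left)
    rw [c.mem_E.card c.cop 1 1] at h1
    have h2 : p ∣ Nat.card (EE Ω (Cj X0 g) ⊓ Cj H 1 : Subgroup G) := by
      rcases hp.dvd_mul.1 h1 with h | h
      · exact h
      · exfalso
        have h3 : p ∣ Nat.card K := by
          rw [← card_Cj K 1]
          exact h.trans (Subgroup.card_dvd_of_le inf_le_right)
        exact hp.one_lt.ne' (Nat.eq_one_of_dvd_coprimes c.cop hpH h3)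
    obtain ⟨x, hx⟩ := exists_prime_orderOf_dvd_card' p h2
    refine ⟨x.1, x.2.1, ?_, ?_⟩
    · have h4 : x.1 ∈ Cj H 1 := x.2.2
      rw [mem_Cj, inv_one, one_mul, mul_one] at h4
      exact h4
    · rw [← hx, Subgroup.orderOf_coe]
  have hf10 : ∀ (S T : {S : Subgroup G // ∃ X ∈ Ω, S = EE Ω X}) (e : G), e ∈ S.1 → e ∈ H → orderOf e = p →
      e • T = T → S = T := by
    rintro ⟨S, X, hX, rfl⟩ ⟨T, Y, hY, rfl⟩ e h1 h2 h3 h4
    refine Subtype.ext (c.f10 hX hY h1 ?_ (Or.inl ⟨1, by rwa [Cj_one]⟩) ?_)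
    · rintro rfl
      rw [orderOf_one] at h3
      exact hp.one_lt.ne h3
    · intro y hy
      have h5 : Cj (EE Ω Y) e = EE Ω Y := congrArg Subtype.val h4
      rw [← h5, mem_Cj] at hy
      exact hy
  set S0 : {S : Subgroup G // ∃ X ∈ Ω, S = EE Ω X} := ⟨EE Ω X0, X0, hX0, rfl⟩ with hS0
  -- the number of products is 1 modulo `p`
  have hmod : ¬ p ∣ Nat.card {S : Subgroup G // ∃ X ∈ Ω, S = EE Ω X} := by
    obtain ⟨e, he, heH, hep⟩ := hex S0
    have hP : IsPGroup p (Subgroup.zpowers e) := by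
      refine IsPGroup.of_card (n := 1) ?_
      rw [Nat.card_zpowers, hep, pow_one]
    have h1 := hP.card_modEq_card_fixedPoints {S : Subgroup G // ∃ X ∈ Ω, S = EE Ω X}
    have h2 : MulAction.fixedPoints (Subgroup.zpowers e) {S : Subgroup G // ∃ X ∈ Ω, S = EE Ω X} = {S0} := by
      ext S
      rw [MulAction.mem_fixedPoints, Set.mem_singleton_iff]
      constructor
      · intro h
        exact (hf10 S0 S e he heH hep (h ⟨e, Subgroup.mem_zpowers e⟩)).symm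
      · rintro rfl ⟨g, hg⟩
        apply Subtype.ext
        show Cj (EE Ω X0) g = EE Ω X0
        have hgE : g ∈ EE Ω X0 := (Subgroup.zpowers_le.2 he) hg
        ext x
        rw [mem_Cj]
        constructor
        · intro hx
          have := (EE Ω X0).mul_mem ((EE Ω X0).mul_mem hgE hx) ((EE Ω X0).inv_mem hgE)
          have e1 : g * (g⁻¹ * x * g) * g⁻¹ = x := by group
          rwa [e1] at this
        · intro hx
          exact (EE Ω X0).mul_mem ((EE Ω X0).mul_mem ((EE Ω X0).inv_mem hgE) hx) hgE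
    have h3 : Nat.card (MulAction.fixedPoints (Subgroup.zpowers e) {S : Subgroup G // ∃ X ∈ Ω, S = EE Ω X}) = 1 := by
      rw [h2]
      simp
    rw [h3] at h1
    intro hd
    have h4 := (Nat.modEq_zero_iff_dvd.2 hd).symm.trans h1
    have h5 : (0 : ℕ) % p = 1 % p := h4
    rw [Nat.zero_mod, Nat.mod_eq_of_lt hp.one_lt] at h5
    exact zero_ne_one h5
  -- a Sylow subgroup of `H` fixes some product
  obtain ⟨P⟩ : Nonempty (Sylow p H) := inferInstance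
  obtain ⟨S1, hS1⟩ := P.2.nonempty_fixed_point_of_prime_not_dvd_card {S : Subgroup G // ∃ X ∈ Ω, S = EE Ω X} hmod
  have htr : ∀ S : {S : Subgroup G // ∃ X ∈ Ω, S = EE Ω X}, ∃ h : H, h • S1 = S := by
    intro S
    obtain ⟨e, he, heH, hep⟩ := hex S
    have hP : IsPGroup p (Subgroup.zpowers (⟨e, heH⟩ : H)) := by
      refine IsPGroup.of_card (n := 1) ?_
      rw [Nat.card_zpowers, Subgroup.orderOf_mk, hep, pow_one]
    obtain ⟨Q, hQ⟩ := hP.exists_le_sylow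
    obtain ⟨h, hh⟩ := MulAction.exists_smul_eq H P Q
    have h1 : (⟨e, heH⟩ : H) ∈ (Q : Subgroup H) := hQ (Subgroup.mem_zpowers _)
    rw [← hh, Sylow.coe_subgroup_smul, Subgroup.mem_pointwise_smul_iff_inv_smul_mem] at h1
    have h2 := (MulAction.mem_fixedPoints.1 hS1) ⟨_, h1⟩
    refine ⟨h, (hf10 S _ e he heH hep ?_).symm⟩
    have h3 : (⟨e, heH⟩ : H) * h = h * ((MulAut.conj h)⁻¹ • (⟨e, heH⟩ : H)) := by
      rw [← map_inv, MulAut.smul_def, MulAut.conj_apply]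
      group
    have h4 : e • (h • S1) = ((⟨e, heH⟩ : H) * h) • S1 := by
      rw [mul_smul]
      rfl
    rw [h4, h3, mul_smul]
    congr 1
  have horb : MulAction.orbit H S1 = Set.univ := by
    rw [Set.eq_univ_iff_forall]
    intro S
    obtain ⟨h, hh⟩ := htr S
    exact ⟨h, hh⟩
  have h1 := MulAction.index_stabilizer H S1
  rw [horb, Set.ncard_univ] at h1
  rw [← h1]
  exact Subgroup.index_dvd_card _

/-- MAIN LEMMA: the members of `Ω` commute -/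
theorem main [Finite G] (c : Ctx H K Ω) {X Y : Subgroup G} (hX : X ∈ Ω) (hY : Y ∈ Ω) : Rl X Y := by
  have h1 := c.dvd hX
  have h2 := c.symm.dvd hX
  have h3 := Nat.eq_one_of_dvd_coprimes c.cop h1 h2
  by_contra hne
  have h4 := c.f8 hX hY hne
  have h5 : (⟨EE Ω X, X, hX, rfl⟩ : {S : Subgroup G // ∃ X ∈ Ω, S = EE Ω X}) = ⟨EE Ω Y, Y, hY, rfl⟩ := by
    have : Subsingleton {S : Subgroup G // ∃ X ∈ Ω, S = EE Ω X} := (Nat.card_eq_one_iff_unique.1 h3).1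
    exact Subsingleton.elim _ _
  have h6 : EE Ω X = EE Ω Y := congrArg Subtype.val h5
  rw [← h6, inf_idem] at h4
  exact c.E_ne hX h4

end Ctx

end Pool.Agent.Lib.MP_8113ca_al.Two
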