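import Pool.Agent.Lib.MP_8113ca_al.Basic
import Pool.Agent.Lib.MP_8113ca_al.Two.Ti

/-!
# Indices and membership
-/

set_option autoImplicit false

open scoped Pointwise

namespace Pool.Agent.Lib.MP_8113ca_al.Two

variable {G : Type*} [Group G]

theorem conj_smul_eq (H : Subgroup G) (g : G) : MulAut.conj g • H = Cj H g := by
  ext x
  rw [Subgroup.mem_pointwise_smul_iff_inv_smul_mem, mem_Cj, ← map_inv, MulAut.smul_def, MulAut.conj_apply, inv_inv]

theorem card_inf_mul_relIndex [Finite G] (A S : Subgroup G) :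
    Nat.card (S ⊓ A : Subgroup G) * A.relIndex S = Nat.card S := by
  have h := Subgroup.card_mul_index ((A).subgroupOf S)
  have h1 : Nat.card (A.subgroupOf S) = Nat.card (S ⊓ A : Subgroup G) := by
    rw [← Subgroup.inf_subgroupOf_left, inf_comm]
    exact Nat.card_congr (Subgroup.subgroupOfEquivOfLe (inf_le_right : A ⊓ S ≤ S)).toEquiv
  rw [h1] at h
  exact h

variable {H K : Subgroup G}

theorem Mem.relIndex_eq [Finite G] (hc : (Nat.card H).Coprime (Nat.card K)) {S : Subgroup G} (hS : Mem H K S)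
    (g h : G) : (Cj H g).relIndex S = Nat.card (S ⊓ Cj K h : Subgroup G) := by
  have h1 := card_inf_mul_relIndex (Cj H g) S
  rw [hS.card hc g h] at h1
  exact Nat.eq_of_mul_eq_mul_left Nat.card_pos h1

theorem coprime_of_pi {π : Set ℕ} {m n : ℕ} (hm : IsPiNumber π m) (hn : IsPiPrimeNumber π n) : m.Coprime n := by
  rw [Nat.coprime_iff_gcd_eq_one]
  by_contra h
  obtain ⟨p, hp, hd⟩ := Nat.exists_prime_and_dvd h
  exact hn p hp (hd.trans (Nat.gcd_dvd_right m n)) (hm p hp (hd.trans (Nat.gcd_dvd_left m n)))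

theorem Mem.of_relIndex [Finite G] {π ρ : Set ℕ} (hd : Disjoint π ρ) {S : Subgroup G}
    (hS : IsPiNumber (π ∪ ρ) (Nat.card S)) (hH : IsPiNumber π (Nat.card H)) (hK : IsPiNumber ρ (Nat.card K))
    (h1 : ∀ g, IsPiPrimeNumber π ((Cj H g).relIndex S)) (h2 : ∀ g, IsPiPrimeNumber ρ ((Cj K g).relIndex S)) :
    Mem H K S := by
  have hKπ : IsPiPrimeNumber π (Nat.card K) := fun p hp hpd hpπ =>
    Set.disjoint_left.1 hd hpπ (hK p hp hpd)
  have hHρ : IsPiPrimeNumber ρ (Nat.card H) := fun p hp hpd hpρ =>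
    Set.disjoint_left.1 hd (hH p hp hpd) hpρ
  have hc : (Nat.card H).Coprime (Nat.card K) := coprime_of_pi hH hKπ
  intro g h a ha
  set U := S ⊓ Cj H g with hU
  set V := S ⊓ Cj K h with hV
  have eU := card_inf_mul_relIndex (Cj H g) S
  have eV := card_inf_mul_relIndex (Cj K h) S
  rw [← hU] at eU
  rw [← hV] at eV
  have hUd : Nat.card U ∣ Nat.card H := by
    rw [← card_Cj H g]
    exact Subgroup.card_dvd_of_le inf_le_right
  have hVd : Nat.card V ∣ Nat.card K := by
    rw [← card_Cj K h]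
    exact Subgroup.card_dvd_of_le inf_le_right
  have hr : IsPiNumber ρ ((Cj H g).relIndex S) := by
    intro p hp hpd
    have := hS p hp (hpd.trans (Subgroup.relIndex_dvd_card _ _))
    exact this.resolve_left (h1 g p hp hpd)
  have hrc : (Nat.card U).Coprime ((Cj H g).relIndex S) := coprime_of_pi (hH.of_dvd hUd) (h1 g)
  have hsc : (Nat.card V).Coprime ((Cj K h).relIndex S) := coprime_of_pi (hK.of_dvd hVd) (h2 h)
  have hUV : (Nat.card U).Coprime (Nat.card V) := Nat.Coprime.coprime_dvd_left hUd (Nat.Coprime.coprime_dvd_right hVd hc)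
  have hrs : ((Cj H g).relIndex S).Coprime ((Cj K h).relIndex S) := coprime_of_pi hr (h2 h)
  have e : Nat.card U * (Cj H g).relIndex S = Nat.card V * (Cj K h).relIndex S := by rw [eU, eV]
  have k1 : (Cj H g).relIndex S ∣ Nat.card V := by
    have : (Cj H g).relIndex S ∣ Nat.card V * (Cj K h).relIndex S := by rw [← e]; exact dvd_mul_left _ _
    exact hrs.dvd_of_dvd_mul_right this
  have k2 : Nat.card V ∣ (Cj H g).relIndex S := by
    have : Nat.card V ∣ Nat.card U * (Cj H g).relIndex S := by rw [e]; exact dvd_mul_right _ _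
    exact hUV.symm.dvd_of_dvd_mul_left this
  have k3 : (Cj H g).relIndex S = Nat.card V := Nat.dvd_antisymm k1 k2
  rw [k3] at eU
  -- the product map is bijective
  have hinj : Function.Injective (fun z : U × V => (⟨z.1.1 * z.2.1, S.mul_mem z.1.2.1 z.2.2.1⟩ : S)) := by
    rintro ⟨⟨u, hu⟩, ⟨v, hv⟩⟩ ⟨⟨u', hu'⟩, ⟨v', hv'⟩⟩ e
    have e' : u * v = u' * v' := congrArg Subtype.val e
    have h1 : u'⁻¹ * u = v' * v⁻¹ := by
      rw [inv_mul_eq_iff_eq_mul, ← mul_assoc, eq_mul_inv_iff_mul_eq, e']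
    have h2 : u'⁻¹ * u = 1 := by
      refine dis hc ((Cj H g).mul_mem ((Cj H g).inv_mem hu'.2) hu.2) ?_ (h := h)
      rw [h1]
      exact (Cj K h).mul_mem hv'.2 ((Cj K h).inv_mem hv.2)
    have h3 : u = u' := by
      rw [inv_mul_eq_one] at h2
      exact h2.symm
    have h4 : v = v' := by
      rw [h2] at h1
      exact (mul_inv_eq_one.1 h1.symm).symm
    subst h3
    subst h4
    rfl
  have hbij := (Function.Injective.bijective_of_nat_card_le hinj (by rw [Nat.card_prod, eU]))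
  obtain ⟨⟨⟨u, hu⟩, ⟨v, hv⟩⟩, e⟩ := hbij.2 ⟨a, ha⟩
  exact ⟨u, v, hu.1, hv.1, hu.2, hv.2, (congrArg Subtype.val e).symm⟩

end Pool.Agent.Lib.MP_8113ca_al.Two
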