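import Pool.Agent.Lib.MP_8113ca_al.Step
import Pool.Agent.Lib.MP_8113ca_al.Two.Fac

/-!
# `σ`-subnormal subgroups of a member and minimal members
-/

set_option autoImplicit false

open scoped Pointwise

namespace Pool.Agent.Lib.MP_8113ca_al.Two

open Pool.Agent.Lib.MP_8113ca_al

variable {I : Type*} {σ : I → Set ℕ} {G : Type*} [Group G] {H K : Subgroup G}

theorem normal_map {C : Subgroup G} {A B : Subgroup C} (h : (A.subgroupOf B).Normal) :
    ((A.map C.subtype).subgroupOf (B.map C.subtype)).Normal := by
  constructor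
  rintro ⟨_, ⟨x, hxB, rfl⟩⟩ hx ⟨_, ⟨g, hgB, rfl⟩⟩
  rw [Subgroup.mem_subgroupOf] at hx ⊢
  obtain ⟨x', hx', e⟩ := hx
  have e' : x' = x := Subtype.ext e
  subst e'
  have := h.conj_mem ⟨x', hxB⟩ (Subgroup.mem_subgroupOf.2 hx') ⟨g, hgB⟩
  rw [Subgroup.mem_subgroupOf] at this
  exact ⟨_, this, rfl⟩

theorem relIndex_map_map {C : Subgroup G} (A B : Subgroup C) :
    (A.map C.subtype).relIndex (B.map C.subtype) = A.relIndex B :=
  Subgroup.relIndex_map_map_of_injective A B C.subtype_injective

/-- (F5): the claim -/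
theorem claim5 [Finite G] (hσ : IsPrimePartition σ) {i j : I} (hij : i ≠ j) (hHi : IsPiNumber (σ i) (Nat.card H))
    (hKj : IsPiNumber (σ j) (Nat.card K)) (hH : H.normalCore = ⊥) (hK : K.normalCore = ⊥)
    {C : Subgroup G} (hC : Mem H K C) {Y : Subgroup G} (hY : Mem H K Y) (hY0 : Y ≠ ⊥)
    (hmin : ∀ S, Mem H K S → S ≤ Y → S = ⊥ ∨ S = Y) (hYC : Y ≤ C) {S : Subgroup C} (hS : IsSigmaSubnormal σ S) :
    Mem H K (S.map C.subtype) ∧ (Y ≤ S.map C.subtype ∨ ∀ y ∈ Y, ∀ s ∈ S.map C.subtype, y * s = s * y) := by
  have hc : (Nat.card H).Coprime (Nat.card K) := coprime_of_pi hHi (hσ.piPrime_of_ne (Ne.symm hij) hKj)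
  induction hS with
  | top =>
    have e : (⊤ : Subgroup C).map C.subtype = C := by
      rw [← MonoidHom.range_eq_map, Subgroup.range_subtype]
    rw [e]
    exact ⟨hC, Or.inl hYC⟩
  | step A B hAB hB h ih =>
    obtain ⟨hT, hYT⟩ := ih
    have hST : A.map C.subtype ≤ B.map C.subtype := Subgroup.map_mono hAB
    -- coprimality in the primary case
    have hcases : (((A.map C.subtype).subgroupOf (B.map C.subtype)).Normal) ∨
        ∃ D : Subgroup G, D ≤ A.map C.subtype ∧ (D.subgroupOf (B.map C.subtype)).Normal ∧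
          ((Nat.card H).Coprime (D.relIndex (B.map C.subtype)) ∨
            (Nat.card K).Coprime (D.relIndex (B.map C.subtype))) := by
      rcases h with h | h
      · exact Or.inl (normal_map h)
      · obtain ⟨l, D, hDA, hDn, hD⟩ := exists_core h
        refine Or.inr ⟨D.map C.subtype, Subgroup.map_mono hDA, normal_map hDn, ?_⟩
        rw [relIndex_map_map]
        by_cases hl : l = i
        · right
          subst hl
          exact coprime_of_pi hKj (hσ.piPrime_of_ne hij hD)
        · left
          exact coprime_of_pi hHi (hσ.piPrime_of_ne hl hD)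
    have hS : Mem H K (A.map C.subtype) := by
      rcases hcases with h | ⟨D, hDA, hDn, hD⟩
      · exact hT.of_normal hc hST
      · exact hT.of_step hDA hST hD
    refine ⟨hS, ?_⟩
    rcases hYT with hYT | hYT
    · rcases hmin _ (hY.inf hc hS) inf_le_left with h1 | h1
      · right
        rcases hcases with h | ⟨D, hDA, hDn, hD⟩
        · refine keyAll hc hH hK hY hS h1 ?_
          intro y hy s hs
          have h2 := h.conj_mem ⟨s, hST hs⟩ (Subgroup.mem_subgroupOf.2 hs) (⟨y, hYT hy⟩ : B.map C.subtype)⁻¹
          rw [Subgroup.mem_subgroupOf, inv_inv] at h2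
          exact h2
        · exfalso
          have h2 : ∀ u ∈ Y, u ∈ D → u = 1 := by
            intro u hu huD
            have : u ∈ Y ⊓ A.map C.subtype := ⟨hu, hDA huD⟩
            rw [h1, Subgroup.mem_bot] at this
            exact this
          rcases hD with hD | hD
          · refine hY0 (prim hc.symm hK hY.symm (w := 1) ?_)
            intro y hy
            obtain ⟨u, v, k1, k2, k3, k4, k5⟩ := hY 1 1 y hy
            have h3 : u = 1 := h2 u k1 (mem_of_coprime_index (hYT k1) (ord_Cj k3) hD)
            rw [k5, h3, one_mul]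
            exact k4
          · refine hY0 (prim hc hH hY (w := 1) ?_)
            intro y hy
            obtain ⟨u, v, k1, k2, k3, k4, k5⟩ := hY 1 1 y hy
            have h3 : v = 1 := h2 v k2 (mem_of_coprime_index (hYT k2) (ord_Cj k4) hD)
            rw [k5, h3, mul_one]
            exact k3
      · left
        rw [← h1]
        exact inf_le_right
    · right
      intro y hy s hs
      exact hYT y hy s (hST hs)

end Pool.Agent.Lib.MP_8113ca_al.Two
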