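import Pool.Agent.Lib.MP_8113ca_al.Two.Star3

/-!
# The theorem
-/

set_option autoImplicit false

open scoped Pointwise

namespace Pool.Agent.Lib.MP_8113ca_al.Two

open Pool.Agent.Lib.MP_8113ca_al

variable {I : Type*} {σ : I → Set ℕ}

section

variable {G : Type*} [Group G] {H : I → Subgroup G}

/-- every chief factor involves at most two classes or one of the primes in `Z` -/
def CF (σ : I → Set ℕ) (Z : Set ℕ) (A : Type*) [Group A] : Prop :=
  ∀ K L : Subgroup A, IsChiefFactor K L → (∃ i j, IsPiNumber (σ i ∪ σ j) (K.relIndex L)) ∨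
    ∃ p ∈ Z, p ∣ K.relIndex L

/-- a normal cyclic subgroup of index prime to `p` -/
def NC (p : ℕ) (A : Type*) [Group A] : Prop :=
  ∃ C : Subgroup A, C.Normal ∧ IsCyclic C ∧ ¬ p ∣ C.index

theorem NC.of_surjective {p : ℕ} {A B : Type*} [Group A] [Group B] (f : A →* B) (hf : Function.Surjective f)
    (h : NC p A) : NC p B := by
  obtain ⟨C, h1, h2, h3⟩ := h
  refine ⟨C.map f, h1.map f hf, ?_, fun h => h3 (h.trans (Subgroup.index_map_dvd C hf))⟩
  exact isCyclic_of_surjective (f.subgroupMap C) (f.subgroupMap_surjective C)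

theorem NC.of_injective {p : ℕ} {A B : Type*} [Group A] [Group B] (f : A →* B) (hf : Function.Injective f)
    (h : NC p B) : NC p A := by
  obtain ⟨C, h1, h2, h3⟩ := h
  refine ⟨C.comap f, h1.comap f, ?_, ?_⟩
  · exact isCyclic_of_injective (f.subgroupComap C) fun _ _ hxy =>
      Subtype.ext (hf (congrArg (fun z : C => (z : B)) hxy))
  · rw [Subgroup.index_comap]
    exact fun h => h3 (h.trans (Subgroup.relIndex_dvd_index_of_normal C f.range))

theorem CF.of_surjective {Z : Set ℕ} {A B : Type*} [Group A] [Group B] (f : A →* B)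
    (hf : Function.Surjective f) (h : CF σ Z A) : CF σ Z B := by
  rintro K H ⟨hK, hH, hKH, hmin⟩
  have hc : IsChiefFactor (K.comap f) (H.comap f) := by
    refine ⟨hK.comap f, hH.comap f, ?_, ?_⟩
    · refine lt_of_le_of_ne (Subgroup.comap_mono hKH.le) fun he => ?_
      exact hKH.ne (Subgroup.comap_injective hf he)
    · intro L hL hKL hLH
      have h1 : (L.map f).comap f = L := by
        apply Subgroup.comap_map_eq_self
        exact le_trans (f.ker_le_comap K) hKL
      have h2 : K ≤ L.map f := by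
        have := Subgroup.map_mono (f := f) hKL
        rwa [Subgroup.map_comap_eq_self_of_surjective hf] at this
      have h3 : L.map f ≤ H := by
        have := Subgroup.map_mono (f := f) hLH
        rwa [Subgroup.map_comap_eq_self_of_surjective hf] at this
      rcases hmin (L.map f) (hL.map f hf) h2 h3 with h4 | h4
      · left; rw [← h1, h4]
      · right; rw [← h1, h4]
  have h5 := h _ _ hc
  rwa [relIndex_comap_comap_of_surjective f hf] at h5

theorem CF.of_card {Z : Set ℕ} {A : Type*} [Group A] {i j : I} (h : IsPiNumber (σ i ∪ σ j) (Nat.card A)) : CF σ Z A :=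
  fun K L _ => Or.inl ⟨i, j, h.of_dvd ((Subgroup.relIndex_dvd_card K L).trans (Subgroup.card_subgroup_dvd_card L))⟩

/-- (F5) from the induction hypothesis -/
theorem f5 [Finite G] (hσ : IsPrimePartition σ) {i j : I} (hij : i ≠ j) (hHi : IsPiNumber (σ i) (Nat.card (H i)))
    (hKj : IsPiNumber (σ j) (Nat.card (H j))) (hH : (H i).normalCore = ⊥) (hK : (H j).normalCore = ⊥)
    {C : Subgroup G} (hC : Mem (H i) (H j) C)
    (ih : ∀ (H' : I → Subgroup C) (A' : Subgroup C), Star3 σ H' A' → CF σ ∅ A' → IsSigmaSubnormal σ A')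
    {X Y : Subgroup G} (hX : Mem (H i) (H j) X) (hXn : IsPiNumber (σ i ∪ σ j) (Nat.card X))
    (hXmin : ∀ S, Mem (H i) (H j) S → S ≤ X → S = ⊥ ∨ S = X)
    (hY : Mem (H i) (H j) Y) (hY0 : Y ≠ ⊥) (hYmin : ∀ S, Mem (H i) (H j) S → S ≤ Y → S = ⊥ ∨ S = Y)
    (hXC : X ≤ C) (hYC : Y ≤ C) : Rl X Y := by
  have hc : (Nat.card (H i)).Coprime (Nat.card (H j)) := coprime_of_pi hHi (hσ.piPrime_of_ne (Ne.symm hij) hKj)
  have hcardX : Nat.card (X.subgroupOf C) = Nat.card X := Nat.card_congr (Subgroup.subgroupOfEquivOfLe hXC).toEquiv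
  have hstar : Star3 σ (fun l => (H l).subgroupOf C) (X.subgroupOf C) := by
    intro l hl
    have hgen : ∀ (l m : I) , l ≠ m → IsPiNumber (σ l) (Nat.card (H l)) → IsPiNumber (σ m) (Nat.card (H m)) →
        Mem (H l) (H m) X → IsPiNumber (σ l) (Nat.card ((H l).subgroupOf C)) ∧
        ∀ g : C, IsPiPrimeNumber (σ l) ((MulAut.conj g • (H l).subgroupOf C).relIndex (X.subgroupOf C)) := by
      intro l m hlm h1 h2 h4
      have hc' : (Nat.card (H l)).Coprime (Nat.card (H m)) := coprime_of_pi h1 (hσ.piPrime_of_ne (Ne.symm hlm) h2)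
      refine ⟨?_, ?_⟩
      · refine h1.of_dvd ?_
        exact Subgroup.card_comap_dvd_of_injective (H l) C.subtype C.subtype_injective
      · intro g
        rw [conj_subgroupOf, relIndex_subgroupOf hXC, conj_smul_eq, h4.relIndex_eq hc' g.1 1]
        refine hσ.piPrime_of_ne (Ne.symm hlm) (h2.of_dvd ?_)
        rw [← card_Cj (H m) 1]
        exact Subgroup.card_dvd_of_le inf_le_right
    rw [hcardX] at hl
    unfold IsPiPrimeNumber at hl
    push Not at hl
    obtain ⟨p, hp, hpd, hpl⟩ := hl
    rcases hXn p hp hpd with h | h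
    · have : l = i := by
        by_contra hne
        exact Set.disjoint_left.1 (hσ.disjoint l i hne) hpl h
      subst this
      exact hgen l j hij hHi hKj hX
    · have : l = j := by
        by_contra hne
        exact Set.disjoint_left.1 (hσ.disjoint l j hne) hpl h
      subst this
      exact hgen l i (Ne.symm hij) hKj hHi hX.symm
  have htwo : CF σ ∅ (X.subgroupOf C) := by
    refine CF.of_card (i := i) (j := j) ?_
    rw [hcardX]
    exact hXn
  have h1 := ih _ _ hstar htwo
  have h2 := (claim5 hσ hij hHi hKj hH hK hC hY hY0 hYmin hYC h1).2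
  have e : (X.subgroupOf C).map C.subtype = X := by
    rw [Subgroup.subgroupOf_map_subtype, inf_eq_left]
    exact hXC
  rw [e] at h2
  rcases h2 with h2 | h2
  · rcases hXmin Y hY h2 with h3 | h3
    · exact absurd h3 hY0
    · exact Or.inl h3.symm
  · exact Rl.symm (Or.inr h2)

end

theorem card_quotient_lt {G : Type*} [Group G] [Finite G] {N : Subgroup G} [N.Normal] (hN : N ≠ ⊥) :
    Nat.card (G ⧸ N) < Nat.card G := by
  rw [← Subgroup.index_eq_card, ← N.card_mul_index]
  have h1 : 1 < Nat.card N := by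
    by_contra hle
    exact hN ((Subgroup.card_le_one_iff_eq_bot N).1 (by omega))
  have h2 : 0 < N.index := Nat.pos_of_ne_zero Subgroup.index_ne_zero_of_finite
  nlinarith

theorem card_subgroup_lt {G : Type*} [Group G] [Finite G] {M : Subgroup G} (hM : M ≠ ⊤) :
    Nat.card M < Nat.card G := by
  refine lt_of_le_of_ne (Nat.le_of_dvd Nat.card_pos (Subgroup.card_subgroup_dvd_card M)) fun h => ?_
  exact hM (Subgroup.eq_top_of_card_eq M h)

/-- a minimal normal subgroup of `A` is a member for two classes -/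
theorem exists_member {G : Type*} [Group G] [Finite G] {H : I → Subgroup G} (hσ : IsPrimePartition σ) {A : Subgroup G}
    (hstar : Star3 σ H A) {X : Subgroup A} (hX : IsChiefFactor ⊥ X)
    (hcore : ∀ i, ¬ IsPiPrimeNumber (σ i) (Nat.card A) → (H i).normalCore = ⊥)
    (htwo : ∃ i j, IsPiNumber (σ i ∪ σ j) (Nat.card X)) :
    ∃ (i j : I) (X : Subgroup G), i ≠ j ∧ IsPiNumber (σ i) (Nat.card (H i)) ∧ IsPiNumber (σ j) (Nat.card (H j)) ∧
      (H i).normalCore = ⊥ ∧ (H j).normalCore = ⊥ ∧ X ≠ ⊥ ∧ X ≤ A ∧ IsPiNumber (σ i ∪ σ j) (Nat.card X) ∧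
      Mem (H i) (H j) X := by
  obtain ⟨i, j, hij⟩ := htwo
  have hXn : X.Normal := hX.2.1
  have hX0 : X ≠ ⊥ := hX.2.2.1.ne'
  have hcardX : Nat.card (X.map A.subtype) = Nat.card X :=
    (Nat.card_congr (X.equivMapOfInjective A.subtype A.subtype_injective).toEquiv).symm
  have hX1 : Nat.card X ≠ 1 := fun h => hX0 (Subgroup.card_eq_one.1 h)
  -- no class contains all primes of `X`
  have hno : ∀ l, ¬ IsPiNumber (σ l) (Nat.card X) := by
    intro l hl
    obtain ⟨p, hp, hpd⟩ := Nat.exists_prime_and_dvd hX1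
    have hmeet : ¬ IsPiPrimeNumber (σ l) (Nat.card A) := fun h =>
      h p hp (hpd.trans (Subgroup.card_subgroup_dvd_card X)) (hl p hp hpd)
    have h1 := map_le_normalCore3 hstar hmeet hl
    rw [hcore l hmeet, le_bot_iff, Subgroup.map_eq_bot_iff_of_injective _ A.subtype_injective] at h1
    exact hX0 h1
  have hmeet : ∀ l m, (IsPiNumber (σ l ∪ σ m) (Nat.card X)) → ¬ IsPiPrimeNumber (σ l) (Nat.card A) := by
    intro l m hlm h
    refine hno m fun p hp hpd => ?_
    rcases hlm p hp hpd with h1 | h1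
    · exact absurd h1 (h p hp (hpd.trans (Subgroup.card_subgroup_dvd_card X)))
    · exact h1
  have hne : i ≠ j := by
    rintro rfl
    rw [Set.union_self] at hij
    exact hno i hij
  have hmi := hmeet i j hij
  have hmj := hmeet j i (by rw [Set.union_comm]; exact hij)
  refine ⟨i, j, X.map A.subtype, hne, (hstar i hmi).1, (hstar j hmj).1, hcore i hmi, hcore j hmj, ?_,
    Subgroup.map_subtype_le X, by rw [hcardX]; exact hij, ?_⟩
  · intro h
    rw [Subgroup.map_eq_bot_iff_of_injective _ A.subtype_injective] at h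
    exact hX0 h
  · have hrel : ∀ (K : Subgroup G), K.relIndex (X.map A.subtype) ∣ K.relIndex A := by
      intro K
      have h1 : (K.subgroupOf A).relIndex X = K.relIndex (X.map A.subtype) := by
        rw [← relIndex_subgroupOf (Subgroup.map_subtype_le X) (K := K)]
        congr 1
        exact (Subgroup.comap_map_eq_self_of_injective A.subtype_injective X).symm
      rw [← h1, ← relIndex_sup_of_normal (K.subgroupOf A) X]
      exact Subgroup.relIndex_dvd_index_of_le le_sup_left
    refine Mem.of_relIndex (hσ.disjoint i j hne) (by rw [hcardX]; exact hij) (hstar i hmi).1 (hstar j hmj).1 ?_ ?_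
    · intro g
      rw [← conj_smul_eq]
      exact ((hstar i hmi).2 g).of_dvd (hrel _)
    · intro g
      rw [← conj_smul_eq]
      exact ((hstar j hmj).2 g).of_dvd (hrel _)

theorem cyc_mem {C : Type*} [Group C] [Finite C] (hC : IsCyclic C) {x y : C} {r : ℕ} (hr : 0 < r)
    (hx : orderOf x = r) (hy : orderOf y = r) : y ∈ Subgroup.zpowers x := by
  classical
  have := Fintype.ofFinite C
  have h1 := IsCyclic.card_pow_eq_one_le (α := C) hr
  have h2 : (Subgroup.zpowers x : Set C).toFinset ⊆ Finset.univ.filter fun a : C => a ^ r = 1 := by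
    intro a ha
    rw [Set.mem_toFinset, SetLike.mem_coe] at ha
    rw [Finset.mem_filter]
    refine ⟨Finset.mem_univ _, ?_⟩
    obtain ⟨k, rfl⟩ := Subgroup.mem_zpowers_iff.1 ha
    rw [← zpow_natCast, ← zpow_mul, mul_comm, zpow_mul, zpow_natCast, ← hx, pow_orderOf_eq_one, one_zpow]
  have h3 : (Subgroup.zpowers x : Set C).toFinset.card = r := by
    rw [Set.toFinset_card, ← Nat.card_eq_fintype_card, ← hx]
    exact Nat.card_zpowers x
  have h4 := Finset.eq_of_subset_of_card_le h2 (by rw [h3]; exact h1)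
  have h5 : y ∈ Finset.univ.filter fun a : C => a ^ r = 1 := by
    rw [Finset.mem_filter, ← hy]
    exact ⟨Finset.mem_univ _, pow_orderOf_eq_one y⟩
  rw [← h4, Set.mem_toFinset] at h5
  exact h5

/-- a minimal normal subgroup of `A` involving a class with cyclic Hall subgroup contains a normal subgroup of `G` -/
theorem exists_normal {G : Type*} [Group G] [Finite G] {H : I → Subgroup G} {A : Subgroup G}
    (hstar : Star3 σ H A) {X : Subgroup A} (hX : IsChiefFactor ⊥ X) {l : I} {r : ℕ} (hcyc : NC r (H l))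
    (hr : r.Prime) (hrl : r ∈ σ l) (hrd : r ∣ Nat.card X) : ∃ N : Subgroup G, N.Normal ∧ N ≠ ⊥ ∧ N ≤ A := by
  have hXn : X.Normal := hX.2.1
  have : Fact r.Prime := ⟨hr⟩
  obtain ⟨C, hCn, hCc, hCi⟩ := hcyc
  have hC : ∀ y : H l, orderOf y = r → y ∈ C := by
    intro y hy
    have h1 : orderOf (QuotientGroup.mk' C y) ∣ r := by
      rw [← hy]
      exact orderOf_map_dvd _ y
    rcases (Nat.dvd_prime hr).1 h1 with h2 | h2
    · exact (QuotientGroup.eq_one_iff y).1 (orderOf_eq_one_iff.1 h2)
    · exfalso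
      apply hCi
      rw [← h2, Subgroup.index_eq_card]
      exact orderOf_dvd_natCard _
  have hmeet : ¬ IsPiPrimeNumber (σ l) (Nat.card A) := fun h =>
    h r hr (hrd.trans (Subgroup.card_subgroup_dvd_card X)) hrl
  have hcardX : Nat.card (X.map A.subtype) = Nat.card X :=
    (Nat.card_congr (X.equivMapOfInjective A.subtype A.subtype_injective).toEquiv).symm
  -- every conjugate contains an element of order `r` of `A`
  have hex : ∀ g : G, ∃ x ∈ A, x ∈ Cj (H l) g ∧ orderOf x = r := by
    intro g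
    have h1 := card_inf_mul_relIndex (Cj (H l) g) (X.map A.subtype)
    have h2 : IsPiPrimeNumber (σ l) ((Cj (H l) g).relIndex (X.map A.subtype)) := by
      rw [← conj_smul_eq]
      refine ((hstar l hmeet).2 g).of_dvd ?_
      have h1 : ((MulAut.conj g • H l).subgroupOf A).relIndex X = (MulAut.conj g • H l).relIndex (X.map A.subtype) := by
        rw [← relIndex_subgroupOf (Subgroup.map_subtype_le X) (K := MulAut.conj g • H l)]
        congr 1
        exact (Subgroup.comap_map_eq_self_of_injective A.subtype_injective X).symm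
      rw [← h1, ← relIndex_sup_of_normal ((MulAut.conj g • H l).subgroupOf A) X]
      exact Subgroup.relIndex_dvd_index_of_le le_sup_left
    have h3 : r ∣ Nat.card (X.map A.subtype ⊓ Cj (H l) g : Subgroup G) := by
      have h4 : r ∣ Nat.card (X.map A.subtype ⊓ Cj (H l) g : Subgroup G) *
          (Cj (H l) g).relIndex (X.map A.subtype) := by
        rw [h1, hcardX]
        exact hrd
      rcases hr.dvd_mul.1 h4 with h | h
      · exact h
      · exact absurd hrl (h2 r hr h)
    obtain ⟨x, hx⟩ := exists_prime_orderOf_dvd_card' r h3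
    exact ⟨x.1, Subgroup.map_subtype_le X x.2.1, x.2.2, by rw [Subgroup.orderOf_coe]; exact hx⟩
  obtain ⟨z, -, hz, hzr⟩ := hex 1
  rw [Cj_one] at hz
  -- all conjugates of `z` are in `A`
  have hall : ∀ g : G, g * z * g⁻¹ ∈ A := by
    intro g
    obtain ⟨x, hxA, hxH, hxr⟩ := hex g
    rw [mem_Cj] at hxH
    have h1 : orderOf (⟨g⁻¹ * x * g, hxH⟩ : H l) = r := by
      rw [Subgroup.orderOf_mk, ← hxr]
      have := orderOf_injective (MulAut.conj g⁻¹).toMonoidHom (MulAut.conj g⁻¹).injective x
      simpa using this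
    have h2 : orderOf (⟨z, hz⟩ : H l) = r := by rw [Subgroup.orderOf_mk]; exact hzr
    have h4 : (⟨z, hz⟩ : H l) ∈ Subgroup.zpowers (⟨g⁻¹ * x * g, hxH⟩ : H l) := by
      have h8 := cyc_mem hCc hr.pos (x := ⟨_, hC _ h1⟩) (y := ⟨_, hC _ h2⟩)
        (by rw [Subgroup.orderOf_mk]; exact h1) (by rw [Subgroup.orderOf_mk]; exact h2)
      obtain ⟨k, hk⟩ := Subgroup.mem_zpowers_iff.1 h8
      exact Subgroup.mem_zpowers_iff.2 ⟨k, congrArg Subtype.val hk⟩
    obtain ⟨k, hk⟩ := Subgroup.mem_zpowers_iff.1 h4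
    have h5 : (g⁻¹ * x * g) ^ k = z := congrArg Subtype.val hk
    have h6 : g * z * g⁻¹ = x ^ k := by
      rw [← h5]
      have h7 : (g⁻¹ * x * g) ^ k = g⁻¹ * x ^ k * g := by
        have := map_zpow (MulAut.conj g⁻¹).toMonoidHom x k
        simpa using this.symm
      rw [h7]
      group
    rw [h6]
    exact A.zpow_mem hxA k
  refine ⟨Subgroup.normalClosure {z}, Subgroup.normalClosure_normal, ?_, ?_⟩
  · intro h
    have h1 : z ∈ Subgroup.normalClosure {z} := Subgroup.subset_normalClosure (Set.mem_singleton z)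
    rw [h, Subgroup.mem_bot] at h1
    rw [h1, orderOf_one] at hzr
    exact hr.one_lt.ne hzr
  · rw [Subgroup.normalClosure, Subgroup.closure_le]
    intro y hy
    rw [Group.mem_conjugatesOfSet_iff] at hy
    obtain ⟨a, ha, hc⟩ := hy
    rw [Set.mem_singleton_iff] at ha
    subst ha
    obtain ⟨c, hc⟩ := isConj_iff.1 hc
    rw [← hc]
    exact hall c

/-- a class whose subgroups are contained in `A` -/
theorem exists_normal_of_le {G : Type*} [Group G] [Finite G] {H : I → Subgroup G} {A : Subgroup G}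
    (hstar : Star3 σ H A) {l : I} {r : ℕ} (hle : ∀ g : G, MulAut.conj g • H l ≤ A)
    (hr : r.Prime) (hrl : r ∈ σ l) (hrd : r ∣ Nat.card A) : ∃ N : Subgroup G, N.Normal ∧ N ≠ ⊥ ∧ N ≤ A := by
  have hmeet : ¬ IsPiPrimeNumber (σ l) (Nat.card A) := fun h => h r hr hrd hrl
  have hne : H l ≠ ⊥ := by
    intro h
    have h1 := (hstar l hmeet).2 1
    rw [h] at h1
    have h2 : (MulAut.conj (1 : G) • (⊥ : Subgroup G)) = ⊥ := by
      rw [conj_smul_eq, Cj_one]
    rw [h2, Subgroup.relIndex_bot_left] at h1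
    exact hmeet h1
  refine ⟨Subgroup.normalClosure (H l : Set G), Subgroup.normalClosure_normal, ?_, ?_⟩
  · intro h
    refine hne (le_bot_iff.1 ?_)
    rw [← h]
    exact Subgroup.le_normalClosure
  · rw [Subgroup.normalClosure, Subgroup.closure_le]
    intro y hy
    rw [Group.mem_conjugatesOfSet_iff] at hy
    obtain ⟨a, ha, hc⟩ := hy
    obtain ⟨c, rfl⟩ := isConj_iff.1 hc
    refine hle c ?_
    rw [Subgroup.mem_smul_pointwise_iff_exists]
    exact ⟨a, ha, by rw [MulAut.smul_def, MulAut.conj_apply]⟩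

/-- `H i` is contained in `A` together with its conjugates if its order divides the order of `A` -/
theorem le_of_card_dvd {G : Type*} [Group G] [Finite G] {H : I → Subgroup G} {A : Subgroup G}
    (hstar : Star3 σ H A) {l : I} (hmeet : ¬ IsPiPrimeNumber (σ l) (Nat.card A))
    (hd : Nat.card (H l) ∣ Nat.card A) (g : G) : MulAut.conj g • H l ≤ A := by
  obtain ⟨h1, h2⟩ := hstar l hmeet
  have h2 := h2 g
  rw [conj_smul_eq] at h2 ⊢
  have h3 := card_inf_mul_relIndex (Cj (H l) g) A
  have hc : (Nat.card (Cj (H l) g)).Coprime ((Cj (H l) g).relIndex A) := by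
    rw [card_Cj]
    exact coprime_of_pi h1 h2
  have h4 : Nat.card (Cj (H l) g) ∣ Nat.card (A ⊓ Cj (H l) g : Subgroup G) := by
    refine hc.dvd_of_dvd_mul_right ?_
    rw [h3, card_Cj]
    exact hd
  have h5 : A ⊓ Cj (H l) g = Cj (H l) g :=
    Subgroup.eq_of_le_of_card_ge inf_le_right (Nat.le_of_dvd Nat.card_pos h4)
  rw [← h5]
  exact inf_le_left

theorem main (hσ : IsPrimePartition σ) (n : ℕ) :
    ∀ (G : Type*) [Group G] [Finite G], Nat.card G = n → ∀ (H : I → Subgroup G) (A : Subgroup G) (Z : Set ℕ),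
      (∀ p ∈ Z, ∃ i, p ∈ σ i ∧ (NC p (H i) ∨ ∀ g : G, MulAut.conj g • H i ≤ A)) → Star3 σ H A → CF σ Z A → IsSigmaSubnormal σ A := by
  induction n using Nat.strong_induction_on with
  | _ n ih =>
    intro G _ _ hG H A Z hZ hstar htwo
    by_cases hA : A = ⊥
    · subst hA
      refine .step _ ⊤ bot_le .top (Or.inl ?_)
      have : (⊥ : Subgroup G).subgroupOf ⊤ = ⊥ := by
        ext ⟨x, hx⟩
        simp
      rw [this]
      infer_instance
    -- the quotient by a nontrivial normal subgroup
    have hquot : ∀ N : Subgroup G, N.Normal → N ≠ ⊥ → IsSigmaSubnormal σ (A ⊔ N) := by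
      intro N hN hN0
      have hq := ih _ (hG ▸ card_quotient_lt hN0) (G ⧸ N) rfl (fun i => (H i).map (QuotientGroup.mk' N))
        (A.map (QuotientGroup.mk' N)) Z (fun p hp => by
          obtain ⟨i, hi, h⟩ := hZ p hp
          refine ⟨i, hi, ?_⟩
          rcases h with h | h
          · exact Or.inl (h.of_surjective ((QuotientGroup.mk' N).subgroupMap (H i))
              ((QuotientGroup.mk' N).subgroupMap_surjective (H i)))
          · refine Or.inr fun g' => ?_
            obtain ⟨g, rfl⟩ := QuotientGroup.mk'_surjective N g'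
            rw [← map_conj_smul]
            exact Subgroup.map_mono (h g))
        (hstar.map (QuotientGroup.mk' N) (QuotientGroup.mk'_surjective N))
        (htwo.of_surjective _ ((QuotientGroup.mk' N).subgroupMap_surjective A))
      have h3 := hq.comap (QuotientGroup.mk' N) (QuotientGroup.mk'_surjective N)
      rwa [Subgroup.comap_map_eq, QuotientGroup.ker_mk'] at h3
    by_cases hcore : ∃ i, ¬ IsPiPrimeNumber (σ i) (Nat.card A) ∧ (H i).normalCore ≠ ⊥
    · obtain ⟨i, hi, hN0⟩ := hcore
      have hNn : ((H i).normalCore).Normal := Subgroup.normalCore_normal _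
      have hNi : IsPiNumber (σ i) (Nat.card (H i).normalCore) :=
        (hstar i hi).1.of_dvd (Subgroup.card_dvd_of_le (Subgroup.normalCore_le _))
      exact step_sup3 hσ hstar hNi (hquot _ hNn hN0)
    push Not at hcore
    have hnt : Nontrivial A := (Subgroup.nontrivial_iff_ne_bot A).2 hA
    obtain ⟨W, hW⟩ := exists_min_normal A
    have hWcf := htwo _ _ hW
    rw [Subgroup.relIndex_bot_left] at hWcf
    rcases hWcf with hWcf | ⟨r, hrZ, hr⟩
    swap
    · obtain ⟨l, hrl, hlc⟩ := hZ r hrZ
      obtain ⟨N, hNn, hN0, hNA⟩ : ∃ N : Subgroup G, N.Normal ∧ N ≠ ⊥ ∧ N ≤ A := by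
        rcases hlc with hlc | hlc
        · exact exists_normal hstar hW hlc (hσ.prime l r hrl) hrl hr
        · exact exists_normal_of_le hstar hlc (hσ.prime l r hrl) hrl (hr.trans (Subgroup.card_subgroup_dvd_card W))
      have := hquot N hNn hN0
      rwa [sup_eq_left.2 hNA] at this
    obtain ⟨i, j, X, hij, hHi, hHj, hci, hcj, hX0, hXA, hXn, hXm⟩ := exists_member hσ hstar hW hcore hWcf
    have hc : (Nat.card (H i)).Coprime (Nat.card (H j)) := coprime_of_pi hHi (hσ.piPrime_of_ne (Ne.symm hij) hHj)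
    -- a minimal member
    obtain ⟨B, ⟨hBm, hB0, hBX⟩, hBmin⟩ := wellFounded_lt.has_min
      {S : Subgroup G | Mem (H i) (H j) S ∧ S ≠ ⊥ ∧ S ≤ X} ⟨X, hXm, hX0, le_rfl⟩
    have hBmin' : ∀ S, Mem (H i) (H j) S → S ≤ B → S = ⊥ ∨ S = B := by
      intro S hS hSB
      by_cases h0 : S = ⊥
      · exact Or.inl h0
      · right
        by_contra hne
        exact hBmin S ⟨hS, h0, hSB.trans hBX⟩ (lt_of_le_of_ne hSB hne)
    have hBn : IsPiNumber (σ i ∪ σ j) (Nat.card B) := hXn.of_dvd (Subgroup.card_dvd_of_le hBX)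
    set Ω : Set (Subgroup G) := {S | ∃ g, S = Cj B g} with hΩ
    have hminΩ : ∀ Y ∈ Ω, ∀ S, Mem (H i) (H j) S → S ≤ Y → S = ⊥ ∨ S = Y := by
      rintro _ ⟨g, rfl⟩ S hS hSY
      have h1 : Cj S g⁻¹ ≤ B := by
        rw [Cj_le_iff, inv_inv]
        exact hSY
      rcases hBmin' _ (hS.conj g⁻¹) h1 with h2 | h2
      · left
        have := congrArg (fun T => Cj T g) h2
        simpa only [← Cj_mul, mul_inv_cancel, Cj_one, Cj_bot] using this
      · right
        have := congrArg (fun T => Cj T g) h2
        simpa only [← Cj_mul, mul_inv_cancel, Cj_one] using this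
    have hneΩ : ∀ Y ∈ Ω, Y ≠ ⊥ := by
      rintro _ ⟨g, rfl⟩ h
      apply hB0
      have := congrArg (fun T => Cj T g⁻¹) h
      simpa only [← Cj_mul, inv_mul_cancel, Cj_one, Cj_bot] using this
    have hmemΩ : ∀ Y ∈ Ω, Mem (H i) (H j) Y := by
      rintro _ ⟨g, rfl⟩
      exact hBm.conj g
    have hcardΩ : ∀ Y ∈ Ω, IsPiNumber (σ i ∪ σ j) (Nat.card Y) := by
      rintro _ ⟨g, rfl⟩
      rw [card_Cj]
      exact hBn
    have hctx : Ctx (H i) (H j) Ω :=
      { cop := hc
        cH := hci
        cK := hcj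
        mem := hmemΩ
        ne := hneΩ
        min := hminΩ
        conj := by
          rintro _ ⟨g, rfl⟩ h
          exact ⟨h * g, (Cj_mul B h g).symm⟩
        tr := by
          rintro _ ⟨g, rfl⟩ _ ⟨h, rfl⟩
          refine ⟨h * g⁻¹, ?_⟩
          rw [← Cj_mul]
          congr 1
          group
        h5 := by
          intro C hC hCtop X1 hX1 Y1 hY1 hXC hYC
          exact f5 hσ hij hHi hHj hci hcj hC
            (fun H' A' h1 h2 => ih _ (hG ▸ card_subgroup_lt hCtop) C rfl H' A' ∅
              (fun _ h => absurd h (Set.notMem_empty _))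
              h1 h2)
            (hmemΩ _ hX1) (hcardΩ _ hX1) (hminΩ _ hX1) (hmemΩ _ hY1) (hneΩ _ hY1) (hminΩ _ hY1) hXC hYC }
    -- the normal closure
    set N : Subgroup G := sSup Ω with hN
    have hBN : B ≤ N := le_sSup ⟨1, (Cj_one B).symm⟩
    have hN0 : N ≠ ⊥ := fun h => hB0 (le_bot_iff.1 (h ▸ hBN))
    have hNB : ∀ Y ∈ Ω, ∀ z ∈ N, Cj Y z = Y := by
      intro Y hY z hz
      have h1 : N ≤ Subgroup.normalizer (Y : Set G) := by
        refine sSup_le ?_
        intro Z hZ
        rcases hctx.main hY hZ with rfl | h2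
        · exact Subgroup.le_normalizer
        · intro z hz
          rw [Subgroup.mem_normalizer_iff]
          intro y
          constructor
          · intro hy
            have : z * y * z⁻¹ = y := by
              rw [← h2 y hy z hz]
              group
            show z * y * z⁻¹ ∈ Y
            rw [this]
            exact hy
          · intro hy
            show y ∈ Y
            have e1 : z * y * z⁻¹ * z = z * (z * y * z⁻¹) := h2 _ hy z hz
            have : y = z * y * z⁻¹ := by
              calc y = z⁻¹ * (z * y * z⁻¹ * z) := by group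
                _ = z⁻¹ * (z * (z * y * z⁻¹)) := by rw [e1]
                _ = z * y * z⁻¹ := by group
            rw [this]
            exact hy
      ext y
      rw [mem_Cj]
      have h2 := Subgroup.mem_normalizer_iff.1 ((Subgroup.normalizer (Y : Set G)).inv_mem (h1 hz)) y
      rw [inv_inv] at h2
      exact h2.symm
    have hNn : N.Normal := by
      constructor
      intro x hx g
      have h3 : N ≤ Cj N g⁻¹ := by
        refine sSup_le ?_
        rintro _ ⟨k, rfl⟩
        intro y hy
        rw [mem_Cj, inv_inv]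
        refine (le_sSup (a := Cj B (g * k)) ⟨g * k, rfl⟩ : Cj B (g * k) ≤ sSup Ω) ?_
        rw [Cj_mul, mem_Cj]
        have : g⁻¹ * (g * y * g⁻¹) * g = y := by group
        rw [this]
        exact hy
      have h4 := h3 hx
      rw [mem_Cj, inv_inv] at h4
      exact h4
    have hM := hquot N hNn hN0
    by_cases hMtop : A ⊔ N = ⊤
    · -- `A` contains all conjugates of `B`
      have hNA : N ≤ A := by
        refine sSup_le ?_
        rintro _ ⟨g, rfl⟩
        have hg : g ∈ A ⊔ N := by
          rw [hMtop]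
          exact Subgroup.mem_top g
        obtain ⟨a, ha, z, hz, rfl⟩ := Subgroup.mem_sup_of_normal_right.1 hg
        rw [Cj_mul, hNB B ⟨1, (Cj_one B).symm⟩ z hz]
        intro x hx
        rw [mem_Cj] at hx
        have h1 := hXA (hBX hx)
        have : x = a * (a⁻¹ * x * a) * a⁻¹ := by group
        rw [this]
        exact A.mul_mem (A.mul_mem ha h1) (A.inv_mem ha)
      rw [sup_eq_left.2 hNA] at hMtop
      rw [hMtop]
      exact .top
    · have h1 := ih _ (hG ▸ card_subgroup_lt hMtop) (A ⊔ N : Subgroup G) rfl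
        (fun i => (H i).subgroupOf (A ⊔ N)) (A.subgroupOf (A ⊔ N)) Z (fun p hp => by
          obtain ⟨i, hi, h⟩ := hZ p hp
          refine ⟨i, hi, ?_⟩
          rcases h with h | h
          · exact Or.inl (h.of_injective ((A ⊔ N).subtype.subgroupComap (H i)) fun _ _ hxy =>
              Subtype.ext (Subtype.ext (congrArg (fun z : H i => (z : G)) hxy)))
          · refine Or.inr fun g => ?_
            rw [conj_subgroupOf]
            exact Subgroup.comap_mono (h g))
        (hstar.subgroupOf (le_sup_left : A ≤ A ⊔ N))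
        (htwo.of_surjective (Subgroup.subgroupOfEquivOfLe (le_sup_left : A ≤ A ⊔ N)).symm.toMonoidHom
          (Subgroup.subgroupOfEquivOfLe (le_sup_left : A ≤ A ⊔ N)).symm.surjective)
      have h2 := IsSigmaSubnormal.trans hM h1
      rw [Subgroup.subgroupOf_map_subtype, inf_eq_left.2 le_sup_left] at h2
      exact h2

end Pool.Agent.Lib.MP_8113ca_al.Two
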