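import Pool.Agent.Lib.MP_8113ca_al.Two.Star3
import Pool.Agent.Lib.MP_8113ca_al.Soluble

/-!
`σ`-soluble groups: subgroups, normal `σ`-primary subgroups below a nontrivial core, Hall subgroups.
-/

set_option autoImplicit false

open scoped Pointwise

namespace Pool.Agent.Lib.MP_8113ca_al.Two

open Pool.Agent.Lib.MP_8113ca_al

variable {I : Type*} {σ : I → Set ℕ}

private theorem sol_quot_lt {G : Type*} [Group G] [Finite G] {N : Subgroup G} [N.Normal] (hN : N ≠ ⊥) :
    Nat.card (G ⧸ N) < Nat.card G := by
  rw [← Subgroup.index_eq_card, ← N.card_mul_index]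
  have h1 : 1 < Nat.card N := by
    by_contra hle
    exact hN ((Subgroup.card_le_one_iff_eq_bot N).1 (by omega))
  have h2 : 0 < N.index := Nat.pos_of_ne_zero Subgroup.index_ne_zero_of_finite
  nlinarith

/-- every chief factor is a `δ`-group for some `δ` in `D` -/
def CFam (D : Set (Set ℕ)) (A : Type*) [Group A] : Prop :=
  ∀ K L : Subgroup A, IsChiefFactor K L → ∃ δ ∈ D, IsPiNumber δ (K.relIndex L)

theorem isSigmaSoluble_iff (A : Type*) [Group A] : IsSigmaSoluble σ A ↔ CFam (Set.range σ) A := by
  constructor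
  · intro h K L hKL
    obtain ⟨i, hi⟩ := h K L hKL
    exact ⟨σ i, ⟨i, rfl⟩, hi⟩
  · intro h K L hKL
    obtain ⟨_, ⟨i, rfl⟩, hi⟩ := h K L hKL
    exact ⟨i, hi⟩

theorem CFam.mono {D D' : Set (Set ℕ)} (hD : D ⊆ D') {A : Type*} [Group A] (h : CFam D A) : CFam D' A := by
  intro K L hKL
  obtain ⟨δ, hδ, hi⟩ := h K L hKL
  exact ⟨δ, hD hδ, hi⟩

theorem CFam.of_surjective {D : Set (Set ℕ)} {A B : Type*} [Group A] [Group B] (f : A →* B)
    (hf : Function.Surjective f) (h : CFam D A) : CFam D B := by
  rintro K H ⟨hK, hH, hKH, hmin⟩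
  have hc : IsChiefFactor (K.comap f) (H.comap f) := by
    refine ⟨hK.comap f, hH.comap f, ?_, ?_⟩
    · refine lt_of_le_of_ne (Subgroup.comap_mono hKH.le) fun he => ?_
      exact hKH.ne (Subgroup.comap_injective hf he)
    · intro L hL hKL hLH
      have h1 : (L.map f).comap f = L := by
        apply Subgroup.comap_map_eq_self
        exact le_trans (f.ker_le_comap K) hKL
      have h2 : K ≤ L.map f := by
        have := Subgroup.map_mono (f := f) hKL
        rwa [Subgroup.map_comap_eq_self_of_surjective hf] at this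
      have h3 : L.map f ≤ H := by
        have := Subgroup.map_mono (f := f) hLH
        rwa [Subgroup.map_comap_eq_self_of_surjective hf] at this
      rcases hmin (L.map f) (hL.map f hf) h2 h3 with h4 | h4
      · left; rw [← h1, h4]
      · right; rw [← h1, h4]
  obtain ⟨δ, hδ, hi⟩ := h _ _ hc
  refine ⟨δ, hδ, ?_⟩
  rwa [relIndex_comap_comap_of_surjective f hf] at hi

/-- A chief factor of `A` which is not killed by a homomorphism into a group with chief factors of the
types in `D` is of a type in `D`. -/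
theorem cfam_aux {D : Set (Set ℕ)} {A : Type*} [Group A] (n : ℕ) : ∀ (B : Type*) [Group B] [Finite B],
    Nat.card B = n → CFam D B → ∀ (f : A →* B) (K L : Subgroup A), IsChiefFactor K L → L ⊓ f.ker ≤ K →
    ∃ δ ∈ D, IsPiNumber δ (K.relIndex L) := by
  induction n using Nat.strong_induction_on with
  | _ n ih =>
    intro B _ _ hB hsol f K L hKL hker
    rcases subsingleton_or_nontrivial B with hs | hnt
    · exfalso
      have h1 : f.ker = ⊤ := by
        rw [eq_top_iff]
        intro x _
        exact Subsingleton.elim _ _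
      rw [h1, inf_top_eq] at hker
      exact absurd hker (not_le_of_gt hKL.2.2.1)
    · obtain ⟨N, hN⟩ := exists_min_normal B
      obtain ⟨δ, hδ, hi⟩ := hsol _ _ hN
      rw [Subgroup.relIndex_bot_left] at hi
      have hNn := hN.2.1
      have hN0 : N ≠ ⊥ := hN.2.2.1.ne'
      set g : A →* B ⧸ N := (QuotientGroup.mk' N).comp f with hg
      have hgker : ∀ x, x ∈ g.ker ↔ f x ∈ N := by
        intro x
        rw [MonoidHom.mem_ker, hg, MonoidHom.comp_apply, ← MonoidHom.mem_ker, QuotientGroup.ker_mk']
      have hKn := hKL.1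
      have hLn := hKL.2.1
      have hn : (K ⊔ (L ⊓ g.ker)).Normal := inferInstance
      rcases hKL.2.2.2 (K ⊔ (L ⊓ g.ker)) hn le_sup_left (sup_le hKL.2.2.1.le inf_le_left) with h | h
      · have h1 : L ⊓ g.ker ≤ K := by
          rw [← h]
          exact le_sup_right
        exact ih _ (hB ▸ sol_quot_lt hN0) (B ⧸ N) rfl
          (hsol.of_surjective (QuotientGroup.mk' N) (QuotientGroup.mk'_surjective N)) g K L hKL h1
      · refine ⟨δ, hδ, hi.of_dvd ?_⟩
        have h1 : K.relIndex L = K.relIndex (L ⊓ g.ker) := by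
          conv_lhs => rw [← h]
          exact Subgroup.relIndex_sup_left _ _
        have h2 : K.relIndex (L ⊓ g.ker) ∣ (f.ker ⊓ (L ⊓ g.ker)).relIndex (L ⊓ g.ker) := by
          refine Subgroup.relIndex_dvd_of_le_left _ ?_
          exact fun x hx => hker ⟨hx.2.1, hx.1⟩
        rw [Subgroup.inf_relIndex_right, Subgroup.relIndex_ker] at h2
        rw [h1]
        refine h2.trans (Subgroup.card_dvd_of_le ?_)
        rintro _ ⟨x, hx, rfl⟩
        exact (hgker x).1 hx.2

/-- (s1') The class of groups with chief factors of the types in `D` is closed under subgroups. -/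
theorem CFam.of_injective {D : Set (Set ℕ)} {A B : Type*} [Group A] [Group B] [Finite B] (f : A →* B)
    (hf : Function.Injective f) (h : CFam D B) : CFam D A := by
  intro K L hKL
  refine cfam_aux (Nat.card B) B rfl h f K L hKL ?_
  rw [(MonoidHom.ker_eq_bot_iff f).2 hf, inf_bot_eq]
  exact bot_le

/-- (s1) Subgroups of `σ`-soluble groups are `σ`-soluble. -/
theorem sol_of_injective {A B : Type*} [Group A] [Group B] [Finite B] (f : A →* B)
    (hf : Function.Injective f) (h : IsSigmaSoluble σ B) : IsSigmaSoluble σ A :=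
  (isSigmaSoluble_iff A).2 (((isSigmaSoluble_iff B).1 h).of_injective f hf)

/-- There is a largest normal `π`-subgroup. -/
theorem exists_max_pi {C : Type*} [Group C] [Finite C] (π : Set ℕ) :
    ∃ O : Subgroup C, O.Normal ∧ IsPiNumber π (Nat.card O) ∧
      ∀ N : Subgroup C, N.Normal → IsPiNumber π (Nat.card N) → N ≤ O := by
  obtain ⟨O, ⟨h1, h2⟩, hmax⟩ := wellFounded_gt.has_min
    {N : Subgroup C | N.Normal ∧ IsPiNumber π (Nat.card N)}
    ⟨⊥, inferInstance, by rw [Subgroup.card_bot]; exact isPiNumber_one π⟩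
  refine ⟨O, h1, h2, fun N hN hNπ => ?_⟩
  have h3 : (O ⊔ N).Normal := inferInstance
  have h4 : IsPiNumber π (Nat.card (O ⊔ N : Subgroup C)) := by
    have h5 : Nat.card O * O.relIndex (O ⊔ N) = Nat.card (O ⊔ N : Subgroup C) := by
      have h := Subgroup.card_mul_index (O.subgroupOf (O ⊔ N))
      rwa [Nat.card_congr (Subgroup.subgroupOfEquivOfLe (le_sup_left : O ≤ O ⊔ N)).toEquiv] at h
    rw [← h5, relIndex_sup_of_normal O N]
    exact h2.mul (hNπ.of_dvd (Subgroup.relIndex_dvd_card O N))
  by_contra hle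
  refine hmax (O ⊔ N) ⟨h3, h4⟩ (lt_of_le_of_ne le_sup_left fun h => hle ?_)
  rw [h]
  exact le_sup_right

/-- The largest normal `π`-subgroup of a normal subgroup is normal. -/
theorem normal_of_max {G : Type*} [Group G] {C : Subgroup G} [C.Normal] {π : Set ℕ} {O : Subgroup C}
    (hOn : O.Normal) (hOπ : IsPiNumber π (Nat.card O))
    (hOmax : ∀ N : Subgroup C, N.Normal → IsPiNumber π (Nat.card N) → N ≤ O) :
    (O.map C.subtype).Normal := by
  constructor
  rintro _ ⟨x, hx, rfl⟩ g
  have h1 : O.map (MulAut.conjNormal g : C ≃* C).toMonoidHom ≤ O := by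
    refine hOmax _ (hOn.map _ (MulAut.conjNormal g : C ≃* C).surjective) ?_
    exact hOπ.of_dvd (O.card_map_dvd _)
  refine ⟨(MulAut.conjNormal g : C ≃* C) x, h1 ⟨x, hx, rfl⟩, ?_⟩
  show ((MulAut.conjNormal g : C ≃* C) x : G) = _
  rw [MulAut.conjNormal_apply]
  rfl

/-- (s2') A minimal normal subgroup whose chief factors are of the types in `D` is of a type in `D`. -/
theorem CFam.of_min {D : Set (Set ℕ)} {A : Type*} [Group A] [Finite A] {X : Subgroup A}
    (hX : IsChiefFactor ⊥ X) (h : CFam D X) : ∃ δ ∈ D, IsPiNumber δ (Nat.card X) := by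
  have hXn : X.Normal := hX.2.1
  have hnt : Nontrivial X := (Subgroup.nontrivial_iff_ne_bot X).2 hX.2.2.1.ne'
  obtain ⟨T, hT⟩ := exists_min_normal X
  obtain ⟨δ, hδ, hi⟩ := h _ _ hT
  rw [Subgroup.relIndex_bot_left] at hi
  obtain ⟨O, hOn, hOπ, hOmax⟩ := exists_max_pi (C := X) δ
  have hTO : T ≤ O := hOmax T hT.2.1 hi
  refine ⟨δ, hδ, ?_⟩
  rcases hX.2.2.2 (O.map X.subtype) (normal_of_max hOn hOπ hOmax) bot_le (Subgroup.map_subtype_le O) with h1 | h1
  · exfalso
    rw [Subgroup.map_eq_bot_iff_of_injective _ X.subtype_injective] at h1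
    rw [h1, le_bot_iff] at hTO
    exact hT.2.2.1.ne hTO.symm
  · rw [← h1]
    exact hOπ.of_dvd (O.card_map_dvd _)

/-- (s2) A `σ`-soluble subgroup with nontrivial core gives a nontrivial normal `σ`-primary
subgroup of `G`. -/
theorem exists_primary_normal {G : Type*} [Group G] [Finite G] {P : Subgroup G}
    (hP : IsSigmaSoluble σ P) (hcore : P.normalCore ≠ ⊥) :
    ∃ (i : I) (N : Subgroup G), N.Normal ∧ N ≠ ⊥ ∧ IsPiNumber (σ i) (Nat.card N) := by
  set C : Subgroup G := P.normalCore with hC
  have hCn : C.Normal := Subgroup.normalCore_normal P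
  have hCsol : IsSigmaSoluble σ C := by
    refine sol_of_injective (Subgroup.inclusion (Subgroup.normalCore_le P)) ?_ hP
    exact Subgroup.inclusion_injective _
  have hnt : Nontrivial C := (Subgroup.nontrivial_iff_ne_bot C).2 hcore
  obtain ⟨T, hT⟩ := exists_min_normal C
  obtain ⟨i, hi⟩ := hCsol _ _ hT
  rw [Subgroup.relIndex_bot_left] at hi
  obtain ⟨O, hOn, hOπ, hOmax⟩ := exists_max_pi (C := C) (σ i)
  have hTO : T ≤ O := hOmax T hT.2.1 hi
  refine ⟨i, O.map C.subtype, normal_of_max hOn hOπ hOmax, ?_, ?_⟩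
  · intro h
    rw [Subgroup.map_eq_bot_iff_of_injective _ C.subtype_injective] at h
    rw [h, le_bot_iff] at hTO
    exact hT.2.2.1.ne hTO.symm
  · exact hOπ.of_dvd (O.card_map_dvd _)

theorem hall_aux (hσ : IsPrimePartition σ) (i : I) (n : ℕ) : ∀ (Q : Type*) [Group Q] [Finite Q],
    Nat.card Q = n → IsSigmaSoluble σ Q → ∃ H : Subgroup Q, IsHall (σ i) H := by
  induction n using Nat.strong_induction_on with
  | _ n ih =>
    intro Q _ _ hQ hsol
    rcases subsingleton_or_nontrivial Q with hs | hnt
    · refine ⟨⊤, ?_, ?_⟩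
      · rw [Subgroup.card_top, Nat.card_unique]
        exact isPiNumber_one _
      · rw [Subgroup.index_top]
        exact fun p hp h => absurd (Nat.dvd_one.1 h) hp.one_lt.ne'
    · obtain ⟨N, hN⟩ := exists_min_normal Q
      obtain ⟨j, hj⟩ := hsol _ _ hN
      rw [Subgroup.relIndex_bot_left] at hj
      have hNn := hN.2.1
      have hN0 : N ≠ ⊥ := hN.2.2.1.ne'
      obtain ⟨H1, h1, h2⟩ := ih _ (hQ ▸ sol_quot_lt hN0) (Q ⧸ N) rfl
        (hsol.of_surjective (QuotientGroup.mk' N) (QuotientGroup.mk'_surjective N))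
      set H' : Subgroup Q := H1.comap (QuotientGroup.mk' N) with hH'
      have hNH : N ≤ H' := by
        intro x hx
        rw [hH', Subgroup.mem_comap]
        have : QuotientGroup.mk' N x = 1 := (QuotientGroup.eq_one_iff x).2 hx
        rw [this]
        exact H1.one_mem
      have hidx : H'.index = H1.index :=
        Subgroup.index_comap_of_surjective H1 (QuotientGroup.mk'_surjective N)
      have hrel : N.relIndex H' = Nat.card H1 := by
        have h3 := Subgroup.relIndex_ker H' (QuotientGroup.mk' N)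
        rw [QuotientGroup.ker_mk', hH',
          Subgroup.map_comap_eq_self_of_surjective (QuotientGroup.mk'_surjective N)] at h3
        exact h3
      have hcard : Nat.card N * Nat.card H1 = Nat.card H' := by
        have h := Subgroup.card_mul_index (N.subgroupOf H')
        rw [Nat.card_congr (Subgroup.subgroupOfEquivOfLe hNH).toEquiv] at h
        rw [← hrel]
        exact h
      by_cases hji : j = i
      · subst hji
        refine ⟨H', ?_, ?_⟩
        · rw [← hcard]
          exact hj.mul h1
        · rw [hidx]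
          exact h2
      · have hcN : Nat.card (N.subgroupOf H') = Nat.card N :=
          Nat.card_congr (Subgroup.subgroupOfEquivOfLe hNH).toEquiv
        have hcop : (Nat.card (N.subgroupOf H')).Coprime (N.subgroupOf H').index := by
          rw [hcN]
          show (Nat.card N).Coprime (N.relIndex H')
          rw [hrel]
          exact (coprime_of_pi h1 (hσ.piPrime_of_ne hji hj)).symm
        have hNn' : (N.subgroupOf H').Normal := inferInstance
        obtain ⟨T, hT⟩ := Subgroup.exists_right_complement'_of_coprime hcop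
        have hTi : T.index = Nat.card N := by
          rw [← hcN]
          exact hT.index_eq_card
        have hTc : Nat.card T = Nat.card H1 := by
          rw [← hrel]
          exact hT.symm.index_eq_card.symm
        refine ⟨T.map H'.subtype, ?_, ?_⟩
        · refine h1.of_dvd ?_
          rw [← hTc]
          exact T.card_map_dvd _
        · have h3 := Subgroup.relIndex_mul_index (Subgroup.map_subtype_le T)
          rw [relIndex_map_subtype, hTi, hidx] at h3
          rw [← h3]
          exact (hσ.piPrime_of_ne hji hj).mul h2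

/-- (s3) `σ`-soluble groups have Hall `σ i`-subgroups. -/
theorem exists_hall {Q : Type*} [Group Q] [Finite Q] (hσ : IsPrimePartition σ)
    (hQ : IsSigmaSoluble σ Q) (i : I) : ∃ H : Subgroup Q, IsHall (σ i) H :=
  hall_aux hσ i _ Q rfl hQ

end Pool.Agent.Lib.MP_8113ca_al.Two
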