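import Pool.Agent.Lib.MP_8113ca_al.Two.Zed
import Pool.Agent.Lib.MP_8113ca_al.Two.Sol

/-!
# Good sets of primes: the theorem and its consequence for groups with two complementary Hall subgroups
-/

set_option autoImplicit false

open scoped Pointwise

namespace Pool.Agent.Lib.MP_8113ca_al

variable {I : Type*} {σ : I → Set ℕ}

/-- `(π, P)` is good for the subgroup `A` of `G`: `P` is a `π`-subgroup of `G` and for every `g` in `G` the
intersection of `A` with `g P g⁻¹` is a Hall `π`-subgroup of `A`. -/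
def IsGood {G : Type*} [Group G] (A : Subgroup G) (π : Set ℕ) (P : Subgroup G) : Prop :=
  IsPiNumber π (Nat.card P) ∧ ∀ g : G, IsHall π ((P.map (MulAut.conj g).toMonoidHom).subgroupOf A)

theorem IsGood.gd {G : Type*} [Group G] {A : Subgroup G} {π : Set ℕ} {P : Subgroup G} (h : IsGood A π P) :
    Two.Gd A π P := ⟨h.1, fun g => (h.2 g).2⟩

theorem isGood_of_gd {G : Type*} [Group G] [Finite G] {A : Subgroup G} {π : Set ℕ} {P : Subgroup G}
    (h : Two.Gd A π P) : IsGood A π P := by
  refine ⟨h.1, fun g => ⟨?_, h.2 g⟩⟩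
  refine h.1.of_dvd ?_
  refine (Subgroup.card_comap_dvd_of_injective _ A.subtype A.subtype_injective).trans ?_
  exact Subgroup.card_map_dvd _ _

/-- the theorem for good pairs; only the chief factors of `A` above the core of `A` in `G` matter -/
theorem sigmaSubnormal_of_good (hσ : IsPrimePartition σ) {G : Type*} [Group G] [Finite G] (A : Subgroup G)
    (hA : ∀ i, (∃ p ∈ σ i, p ∣ A.normalCore.relIndex A) → ∃ H : Subgroup G, IsGood A (σ i) H)
    (hcf : ∀ K L : Subgroup A, IsChiefFactor K L → A.normalCore.subgroupOf A ≤ K →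
      (∃ i j, IsPiNumber (σ i ∪ σ j) (K.relIndex L)) ∨
      (∃ (π ρ : Set ℕ) (P Q : Subgroup G), IsGood A π P ∧ IsGood A ρ Q ∧ Disjoint π ρ ∧
        IsPiNumber (π ∪ ρ) (K.relIndex L) ∧ ¬ IsPiNumber π (K.relIndex L) ∧ ¬ IsPiNumber ρ (K.relIndex L))) :
    IsSigmaSubnormal σ A := by
  classical
  have hA' : ∀ i, ∃ H : Subgroup G, (∃ p ∈ σ i, p ∣ A.normalCore.relIndex A) → IsGood A (σ i) H := by
    intro i
    by_cases h : ∃ p ∈ σ i, p ∣ A.normalCore.relIndex A
    · obtain ⟨H, hH⟩ := hA i h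
      exact ⟨H, fun _ => hH⟩
    · exact ⟨⊥, fun h' => absurd h' h⟩
  choose H hH using hA'
  have hNn : (A.normalCore).Normal := Subgroup.normalCore_normal A
  set f : G →* G ⧸ A.normalCore := QuotientGroup.mk' A.normalCore with hf
  have hfs : Function.Surjective f := QuotientGroup.mk'_surjective _
  have hker : (⊥ : Subgroup (G ⧸ A.normalCore)).comap f = A.normalCore := QuotientGroup.ker_mk' _
  have hcm : (A.map f).comap f = A := by
    apply Subgroup.comap_map_eq_self
    rw [hf, QuotientGroup.ker_mk']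
    exact A.normalCore_le
  have hcard : Nat.card (A.map f) = A.normalCore.relIndex A := by
    have h1 := relIndex_comap_comap_of_surjective f hfs (⊥ : Subgroup (G ⧸ A.normalCore)) (A.map f)
    rw [hker, hcm, Subgroup.relIndex_bot_left] at h1
    exact h1.symm
  have hstar : Two.Star3 σ (fun i => (H i).map f) (A.map f) := by
    intro i hi
    rw [hcard] at hi
    unfold IsPiPrimeNumber at hi
    push Not at hi
    obtain ⟨p, _, h1, h2⟩ := hi
    exact (hH i ⟨p, h2, h1⟩).gd.map f hfs
  have hmain : IsSigmaSubnormal σ (A.map f) := by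
    refine Two.mainZ hσ _ (G ⧸ A.normalCore) rfl (fun i => (H i).map f) (A.map f)
      {π | ∃ P : Subgroup (G ⧸ A.normalCore), Two.Gd (A.map f) π P} ∅
      (fun π hπ => hπ) (fun p hp => absurd hp (Set.notMem_empty _)) hstar ?_
    intro K' L' hKL'
    have hg := f.subgroupMap_surjective A
    have hc := Two.chief_comap (f.subgroupMap A) hg hKL'
    have hle : A.normalCore.subgroupOf A ≤ K'.comap (f.subgroupMap A) := by
      intro x hx
      rw [Subgroup.mem_comap]
      have h1 : f.subgroupMap A x = 1 := by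
        apply Subtype.ext
        show f (x : G) = 1
        exact (QuotientGroup.eq_one_iff (x : G)).2 (Subgroup.mem_subgroupOf.1 hx)
      rw [h1]
      exact K'.one_mem
    have h5 := hcf _ _ hc hle
    rw [relIndex_comap_comap_of_surjective _ hg] at h5
    have hdA : K'.relIndex L' ∣ A.normalCore.relIndex A := by
      rw [← hcard]
      exact (Subgroup.relIndex_dvd_card K' L').trans (Subgroup.card_subgroup_dvd_card L')
    rcases h5 with ⟨i, j, h⟩ | ⟨π, ρ, P, Q, hP, hQ, hd, h, h1, h2⟩
    · by_cases hi : IsPiNumber (σ i) (K'.relIndex L')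
      · exact Or.inl ⟨i, hi⟩
      by_cases hj : IsPiNumber (σ j) (K'.relIndex L')
      · exact Or.inl ⟨j, hj⟩
      have hij : i ≠ j := by
        rintro rfl
        rw [Set.union_self] at h
        exact hi h
      refine Or.inr (Or.inl ⟨σ i, ⟨(H i).map f, ?_⟩, σ j, ⟨(H j).map f, ?_⟩, hσ.disjoint i j hij, h, hi, hj⟩)
      · unfold IsPiNumber at hj
        push Not at hj
        obtain ⟨p, hp, hpd, hpj⟩ := hj
        exact (hH i ⟨p, (h p hp hpd).resolve_right hpj, hpd.trans hdA⟩).gd.map f hfs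
      · unfold IsPiNumber at hi
        push Not at hi
        obtain ⟨p, hp, hpd, hpi⟩ := hi
        exact (hH j ⟨p, (h p hp hpd).resolve_left hpi, hpd.trans hdA⟩).gd.map f hfs
    · exact Or.inr (Or.inl ⟨π, ⟨P.map f, hP.gd.map f hfs⟩, ρ, ⟨Q.map f, hQ.gd.map f hfs⟩, hd, h, h1, h2⟩)
  have h3 := hmain.comap f hfs
  rwa [hcm] at h3

/-- Hall `σ j`-subgroups of a Hall subgroup for a union of classes are Hall subgroups of `G` -/
theorem isHall_map_subtype {G : Type*} [Group G] [Finite G] {J : Set I}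
    {P : Subgroup G} (hP : IsHall (⋃ j ∈ J, σ j) P) {j : I} (hj : j ∈ J) {T : Subgroup P} (hT : IsHall (σ j) T) :
    IsHall (σ j) (T.map P.subtype) := by
  have hTP : T.map P.subtype ≤ P := Subgroup.map_subtype_le T
  refine ⟨?_, ?_⟩
  · rw [Two.card_map_subtype]
    exact hT.1
  · have h1 : (T.map P.subtype).relIndex P * P.index = (T.map P.subtype).index := Subgroup.relIndex_mul_index hTP
    rw [← h1]
    refine IsPiPrimeNumber.mul ?_ ?_
    · have h2 : (T.map P.subtype).relIndex P = T.index := by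
        have h3 := Two.relIndex_map_map T (⊤ : Subgroup P)
        have h4 : (⊤ : Subgroup P).map P.subtype = P := by
          rw [← MonoidHom.range_eq_map, Subgroup.range_subtype]
        rw [h4, Subgroup.relIndex_top_right] at h3
        exact h3
      rw [h2]
      exact hT.2
    · intro q hq hqd hqj
      exact hP.2 q hq hqd (Set.mem_iUnion₂.2 ⟨j, hj, hqj⟩)

/-- a Hall subgroup for a union of classes which has Hall subgroups for all these classes is good -/
theorem isGood_of_hall {G : Type*} [Group G] [Finite G] {A : Subgroup G}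
    (hA : ∀ (j : I) (H : Subgroup G), IsHall (σ j) H → IsHall (σ j) (H.subgroupOf A)) {J : Set I}
    {P : Subgroup G} (hP : IsHall (⋃ j ∈ J, σ j) P) (hPH : ∀ j ∈ J, ∃ T : Subgroup P, IsHall (σ j) T) :
    IsGood A (⋃ j ∈ J, σ j) P := by
  refine isGood_of_gd ⟨hP.1, fun g => ?_⟩
  intro p hp hpd hpJ
  rw [Set.mem_iUnion₂] at hpJ
  obtain ⟨j, hj, hpj⟩ := hpJ
  obtain ⟨T, hT⟩ := hPH j hj
  have h1 := (hA j _ (isHall_conj_smul (isHall_map_subtype hP hj hT) g)).2
  have h2 : (MulAut.conj g • P).relIndex A ∣ (MulAut.conj g • (T.map P.subtype)).relIndex A := by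
    refine Subgroup.relIndex_dvd_of_le_left A ?_
    exact Subgroup.map_mono (Subgroup.map_subtype_le T)
  exact h1 p hp (hpd.trans h2) hpj

/-- a chief factor which is a `π`-group is a section of a Hall `π`-subgroup -/
theorem chief_of_hall {A : Type*} [Group A] [Finite A] {π : Set ℕ} {P : Subgroup A} (hP : IsHall π P)
    {D : Set (Set ℕ)} (hPD : Two.CFam D P) {K L : Subgroup A} (hKL : IsChiefFactor K L)
    (hn : IsPiNumber π (K.relIndex L)) : ∃ δ ∈ D, IsPiNumber δ (K.relIndex L) := by
  obtain ⟨hK, hL, hlt, hmin⟩ := hKL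
  set f : A →* A ⧸ K := QuotientGroup.mk' K with hf
  have hfs : Function.Surjective f := QuotientGroup.mk'_surjective K
  have hker : (⊥ : Subgroup (A ⧸ K)).comap f = K := QuotientGroup.ker_mk' K
  have hcm : (L.map f).comap f = L := by
    apply Subgroup.comap_map_eq_self
    rw [hf, QuotientGroup.ker_mk']
    exact hlt.le
  have hcard : Nat.card (L.map f) = K.relIndex L := by
    have h1 := relIndex_comap_comap_of_surjective f hfs (⊥ : Subgroup (A ⧸ K)) (L.map f)
    rw [hker, hcm, Subgroup.relIndex_bot_left] at h1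
    exact h1.symm
  have hX : IsChiefFactor ⊥ (L.map f) := by
    refine ⟨inferInstance, hL.map f hfs, ?_, ?_⟩
    · refine bot_lt_iff_ne_bot.2 fun h => ?_
      rw [h, hker] at hcm
      exact hlt.ne hcm
    · intro M hM _ hML
      have h1 : K ≤ M.comap f := hker.symm.le.trans (Subgroup.comap_mono bot_le)
      have h2 : M.comap f ≤ L := by
        rw [← hcm]
        exact Subgroup.comap_mono hML
      rcases hmin (M.comap f) (hM.comap f) h1 h2 with h | h
      · exact Or.inl (Subgroup.comap_injective hfs (h.trans hker.symm))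
      · exact Or.inr (Subgroup.comap_injective hfs (h.trans hcm.symm))
  have hXn : (L.map f).Normal := hX.2.1
  have hXP : L.map f ≤ P.map f := by
    refine le_of_normal_of_piPrime_index (π := π) (by rw [hcard]; exact hn) ?_
    exact hP.2.of_dvd (Subgroup.index_map_dvd P hfs)
  have hPD' : Two.CFam D (P.map f) := by
    intro K' L' hKL'
    have h1 := hPD _ _ (Two.chief_comap (f.subgroupMap P) (f.subgroupMap_surjective P) hKL')
    rwa [relIndex_comap_comap_of_surjective _ (f.subgroupMap_surjective P)] at h1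
  have hXD : Two.CFam D (L.map f) :=
    hPD'.of_injective (Subgroup.inclusion hXP) (Subgroup.inclusion_injective hXP)
  have h1 := Two.CFam.of_min hX hXD
  rwa [hcard] at h1

/-- Q1 for the groups with two complementary Hall subgroups whose chief factors meet at most two classes -/
theorem sigmaSubnormal_of_two_hall (hσ : IsPrimePartition σ) {G : Type*} [Group G] [Finite G] (J : Set I)
    (P Q : Subgroup G) (hP : IsHall (⋃ j ∈ J, σ j) P) (hQ : IsHall (⋃ j ∈ Jᶜ, σ j) Q)
    (hPH : ∀ j ∈ J, ∃ T : Subgroup P, IsHall (σ j) T) (hQH : ∀ j ∈ Jᶜ, ∃ T : Subgroup Q, IsHall (σ j) T)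
    (hP2 : Two.TwoClass σ P) (hQ2 : Two.TwoClass σ Q) (A : Subgroup G)
    (hA : ∀ (j : I) (H : Subgroup G), IsHall (σ j) H → IsHall (σ j) (H.subgroupOf A)) :
    IsSigmaSubnormal σ A := by
  have hfam : ∀ {R : Subgroup G}, Two.TwoClass σ R → Two.CFam {δ | ∃ i j, δ = σ i ∪ σ j} (R.subgroupOf A) := by
    intro R hR
    have h1 : Two.CFam {δ | ∃ i j, δ = σ i ∪ σ j} R := by
      intro K L hKL
      obtain ⟨i, j, h⟩ := hR K L hKL
      exact ⟨_, ⟨i, j, rfl⟩, h⟩
    refine h1.of_injective (A.subtype.subgroupComap R) fun _ _ hxy => ?_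
    exact Subtype.ext (Subtype.ext (congrArg (fun z : R => (z : G)) hxy))
  have hPg := isGood_of_hall hA hP hPH
  have hQg := isGood_of_hall hA hQ hQH
  have hall : ∀ {π : Set ℕ} {R : Subgroup G}, IsGood A π R → IsHall π (R.subgroupOf A) := by
    intro π R hR
    have h := hR.2 1
    rwa [map_one, show (1 : MulAut G).toMonoidHom = MonoidHom.id G from rfl, Subgroup.map_id] at h
  refine sigmaSubnormal_of_good hσ A (fun i _ => ?_) (fun K L hKL _ => ?_)
  · have hT : ∃ T : Subgroup G, IsHall (σ i) T := by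
      by_cases hi : i ∈ J
      · obtain ⟨T, hT⟩ := hPH i hi
        exact ⟨_, isHall_map_subtype hP hi hT⟩
      · obtain ⟨T, hT⟩ := hQH i hi
        exact ⟨_, isHall_map_subtype hQ hi hT⟩
    obtain ⟨T, hT⟩ := hT
    exact ⟨T, hT.1, fun g => hA i _ (isHall_conj_smul hT g)⟩
  · by_cases h1 : IsPiNumber (⋃ j ∈ J, σ j) (K.relIndex L)
    · obtain ⟨δ, ⟨i, j, rfl⟩, h⟩ := chief_of_hall (hall hPg) (hfam hP2) hKL h1
      exact Or.inl ⟨i, j, h⟩
    by_cases h2 : IsPiNumber (⋃ j ∈ Jᶜ, σ j) (K.relIndex L)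
    · obtain ⟨δ, ⟨i, j, rfl⟩, h⟩ := chief_of_hall (hall hQg) (hfam hQ2) hKL h2
      exact Or.inl ⟨i, j, h⟩
    refine Or.inr ⟨_, _, P, Q, hPg, hQg, ?_, ?_, h1, h2⟩
    · rw [Set.disjoint_left]
      intro p hp hq
      rw [Set.mem_iUnion₂] at hp hq
      obtain ⟨i, hi, hpi⟩ := hp
      obtain ⟨j, hj, hpj⟩ := hq
      have hij : i ≠ j := by
        rintro rfl
        exact hj hi
      exact Set.disjoint_left.1 (hσ.disjoint i j hij) hpi hpj
    · intro p hp _
      obtain ⟨i, hi⟩ := hσ.cover p hp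
      by_cases hiJ : i ∈ J
      · exact Or.inl (Set.mem_iUnion₂.2 ⟨i, hiJ, hi⟩)
      · exact Or.inr (Set.mem_iUnion₂.2 ⟨i, hiJ, hi⟩)

end Pool.Agent.Lib.MP_8113ca_al
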