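import Mathlib

/-!
# Subgroups factorized by all pairs of conjugates of two subgroups of coprime order

`Mem H K A`: `A = (A ∩ H^g)(A ∩ K^h)` for all `g, h`. These subgroups form a lattice.
-/

set_option autoImplicit false

namespace Pool.Agent.Lib.MP_8113ca_al.Two

variable {G : Type*} [Group G]

/-- the conjugate `g H g⁻¹` -/
def Cj (H : Subgroup G) (g : G) : Subgroup G := H.comap (MulAut.conj g⁻¹).toMonoidHom

theorem mem_Cj {H : Subgroup G} {g x : G} : x ∈ Cj H g ↔ g⁻¹ * x * g ∈ H := by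
  unfold Cj
  rw [Subgroup.mem_comap]
  simp

theorem Cj_one (H : Subgroup G) : Cj H 1 = H := by
  ext x
  rw [mem_Cj]
  simp

theorem Cj_mul (H : Subgroup G) (g h : G) : Cj H (g * h) = Cj (Cj H h) g := by
  ext x
  rw [mem_Cj, mem_Cj, mem_Cj]
  simp only [mul_inv_rev, mul_assoc]

theorem Cj_mono {A B : Subgroup G} (h : A ≤ B) (g : G) : Cj A g ≤ Cj B g := by
  intro x hx
  rw [mem_Cj] at hx ⊢
  exact h hx

theorem Cj_le_iff {A B : Subgroup G} {g : G} : Cj A g ≤ B ↔ A ≤ Cj B g⁻¹ := by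
  constructor
  · intro h
    have := Cj_mono h g⁻¹
    rwa [← Cj_mul, inv_mul_cancel, Cj_one] at this
  · intro h
    have := Cj_mono h g
    rwa [← Cj_mul, mul_inv_cancel, Cj_one] at this

theorem Cj_bot (g : G) : Cj (⊥ : Subgroup G) g = ⊥ := by
  ext x
  rw [mem_Cj, Subgroup.mem_bot, Subgroup.mem_bot]
  constructor
  · intro h
    have : x = g * (g⁻¹ * x * g) * g⁻¹ := by group
    rw [this, h]
    group
  · rintro rfl
    group

theorem Cj_inj {A B : Subgroup G} {g : G} (h : Cj A g = Cj B g) : A = B := by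
  have := congrArg (fun S => Cj S g⁻¹) h
  simpa only [← Cj_mul, inv_mul_cancel, Cj_one] using this

theorem card_Cj (H : Subgroup G) (g : G) : Nat.card (Cj H g) = Nat.card H := by
  refine Nat.card_congr ⟨fun x => ⟨g⁻¹ * x.1 * g, mem_Cj.1 x.2⟩, fun x => ⟨g * x.1 * g⁻¹, ?_⟩, ?_, ?_⟩
  · rw [mem_Cj]
    have : g⁻¹ * (g * x.1 * g⁻¹) * g = x.1 := by group
    rw [this]
    exact x.2
  · intro x
    apply Subtype.ext
    show g * (g⁻¹ * x.1 * g) * g⁻¹ = x.1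
    group
  · intro x
    apply Subtype.ext
    show g⁻¹ * (g * x.1 * g⁻¹) * g = x.1
    group

theorem ord_Cj {H : Subgroup G} {g x : G} (hx : x ∈ Cj H g) : orderOf x ∣ Nat.card H := by
  rw [← card_Cj H g]
  exact Subgroup.orderOf_dvd_natCard _ hx

/-- `A` is factorized by all pairs of conjugates -/
def Mem (H K A : Subgroup G) : Prop :=
  ∀ g h a : G, a ∈ A → ∃ u v : G, u ∈ A ∧ v ∈ A ∧ u ∈ Cj H g ∧ v ∈ Cj K h ∧ a = u * v

/-- lying in a conjugate of `H` or of `K` -/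
def Ty (H K : Subgroup G) (e : G) : Prop := (∃ w, e ∈ Cj H w) ∨ ∃ w, e ∈ Cj K w

/-- equal or commuting elementwise -/
def Rl (A B : Subgroup G) : Prop := A = B ∨ ∀ a ∈ A, ∀ b ∈ B, a * b = b * a

theorem Rl.symm {A B : Subgroup G} (h : Rl A B) : Rl B A := by
  rcases h with h | h
  · exact Or.inl h.symm
  · exact Or.inr fun b hb a ha => (h a ha b hb).symm

theorem Rl.refl (A : Subgroup G) : Rl A A := Or.inl rfl

section

variable {H K : Subgroup G}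

theorem Ty.symm {e : G} (h : Ty H K e) : Ty K H e := Or.symm h

theorem dis (hc : (Nat.card H).Coprime (Nat.card K)) {g h x : G} (h1 : x ∈ Cj H g) (h2 : x ∈ Cj K h) : x = 1 := by
  have := Nat.eq_one_of_dvd_coprimes hc (ord_Cj h1) (ord_Cj h2)
  exact orderOf_eq_one_iff.1 this

theorem Mem.symm {A : Subgroup G} (hA : Mem H K A) : Mem K H A := by
  intro g h a ha
  obtain ⟨u, v, hu, hv, hu', hv', e⟩ := hA h g a⁻¹ (A.inv_mem ha)
  refine ⟨v⁻¹, u⁻¹, A.inv_mem hv, A.inv_mem hu, (Cj K g).inv_mem hv', (Cj H h).inv_mem hu', ?_⟩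
  rw [← mul_inv_rev, ← e, inv_inv]

theorem Mem.inf (hc : (Nat.card H).Coprime (Nat.card K)) {A B : Subgroup G} (hA : Mem H K A) (hB : Mem H K B) :
    Mem H K (A ⊓ B) := by
  intro g h c hcAB
  obtain ⟨u, v, huA, hvA, huH, hvK, e1⟩ := hA g h c hcAB.1
  obtain ⟨u', v', huB, hvB, huH', hvK', e2⟩ := hB g h c hcAB.2
  have h1 : u'⁻¹ * u = v' * v⁻¹ := by
    rw [inv_mul_eq_iff_eq_mul, ← mul_assoc, eq_mul_inv_iff_mul_eq, ← e1, ← e2]
  have h2 : u'⁻¹ * u = 1 := by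
    refine dis hc ((Cj H g).mul_mem ((Cj H g).inv_mem huH') huH) ?_ (h := h)
    rw [h1]
    exact (Cj K h).mul_mem hvK' ((Cj K h).inv_mem hvK)
  have h3 : u = u' := by
    rw [inv_mul_eq_one] at h2
    exact h2.symm
  have h4 : v = v' := by
    rw [h2] at h1
    exact (mul_inv_eq_one.1 h1.symm).symm
  subst h3
  subst h4
  exact ⟨u, v, ⟨huA, huB⟩, ⟨hvA, hvB⟩, huH, hvK, e1⟩

theorem Mem.sSup {S : Set (Subgroup G)} (hS : ∀ A ∈ S, Mem H K A) : Mem H K (sSup S) := by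
  intro g h c hc
  set C : Subgroup G := SupSet.sSup S with hC
  have key : ∀ s : G, (∃ u v : G, u ∈ C ∧ v ∈ C ∧ u ∈ Cj H g ∧ v ∈ Cj K h ∧ s = u * v) →
      ∃ u v : G, u ∈ C ∧ v ∈ C ∧ u ∈ Cj H g ∧ v ∈ Cj K h ∧ s * c = u * v := by
    rw [sSup_eq_iSup'] at hC
    rw [hC] at hc
    refine Subgroup.iSup_induction _ (C := fun c => ∀ s : G,
      (∃ u v : G, u ∈ C ∧ v ∈ C ∧ u ∈ Cj H g ∧ v ∈ Cj K h ∧ s = u * v) →
      ∃ u v : G, u ∈ C ∧ v ∈ C ∧ u ∈ Cj H g ∧ v ∈ Cj K h ∧ s * c = u * v) hc ?_ ?_ ?_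
    · rintro ⟨A, hA⟩ a ha s ⟨u, v, hu, hv, hu', hv', rfl⟩
      have hAC : A ≤ C := by
        rw [hC]
        exact le_iSup (fun a : S => (a : Subgroup G)) ⟨A, hA⟩
      obtain ⟨a1, a2, h1, h2, h3, h4, rfl⟩ := hS A hA (v⁻¹ * g) h a ha
      refine ⟨u * (v * a1 * v⁻¹), v * a2, C.mul_mem hu (C.mul_mem (C.mul_mem hv (hAC h1)) (C.inv_mem hv)),
        C.mul_mem hv (hAC h2), (Cj H g).mul_mem hu' ?_, (Cj K h).mul_mem hv' h4, by group⟩
      rw [mem_Cj] at h3 ⊢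
      have : g⁻¹ * (v * a1 * v⁻¹) * g = (v⁻¹ * g)⁻¹ * a1 * (v⁻¹ * g) := by group
      rw [this]
      exact h3
    · rintro s hs
      rw [mul_one]
      exact hs
    · intro x y hx hy s hs
      rw [← mul_assoc]
      exact hy _ (hx s hs)
  obtain ⟨u, v, h1, h2, h3, h4, h5⟩ := key 1 ⟨1, 1, C.one_mem, C.one_mem, (Cj H g).one_mem, (Cj K h).one_mem, by simp⟩
  rw [one_mul] at h5
  exact ⟨u, v, h1, h2, h3, h4, h5⟩

theorem Mem.sup {A B : Subgroup G} (hA : Mem H K A) (hB : Mem H K B) : Mem H K (A ⊔ B) := by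
  rw [← sSup_pair]
  refine Mem.sSup ?_
  rintro C (rfl | rfl)
  · exact hA
  · exact hB

theorem Mem.conj {A : Subgroup G} (hA : Mem H K A) (x : G) : Mem H K (Cj A x) := by
  intro g h a ha
  rw [mem_Cj] at ha
  obtain ⟨u, v, h1, h2, h3, h4, h5⟩ := hA (x⁻¹ * g) (x⁻¹ * h) _ ha
  refine ⟨x * u * x⁻¹, x * v * x⁻¹, ?_, ?_, ?_, ?_, ?_⟩
  · rw [mem_Cj]
    have : x⁻¹ * (x * u * x⁻¹) * x = u := by group
    rwa [this]
  · rw [mem_Cj]
    have : x⁻¹ * (x * v * x⁻¹) * x = v := by group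
    rwa [this]
  · rw [mem_Cj] at h3 ⊢
    have : g⁻¹ * (x * u * x⁻¹) * g = (x⁻¹ * g)⁻¹ * u * (x⁻¹ * g) := by group
    rwa [this]
  · rw [mem_Cj] at h4 ⊢
    have : h⁻¹ * (x * v * x⁻¹) * h = (x⁻¹ * h)⁻¹ * v * (x⁻¹ * h) := by group
    rwa [this]
  · have : a = x * (x⁻¹ * a * x) * x⁻¹ := by group
    rw [this, h5]
    group

theorem Mem.card [Finite G] (hc : (Nat.card H).Coprime (Nat.card K)) {A : Subgroup G} (hA : Mem H K A) (g h : G) :
    Nat.card A = Nat.card (A ⊓ Cj H g : Subgroup G) * Nat.card (A ⊓ Cj K h : Subgroup G) := by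
  rw [← Nat.card_prod]
  symm
  refine Nat.card_congr (Equiv.ofBijective (fun z => ⟨z.1.1 * z.2.1, A.mul_mem z.1.2.1 z.2.2.1⟩) ⟨?_, ?_⟩)
  · rintro ⟨⟨u, hu⟩, ⟨v, hv⟩⟩ ⟨⟨u', hu'⟩, ⟨v', hv'⟩⟩ e
    have e' : u * v = u' * v' := congrArg Subtype.val e
    have h1 : u'⁻¹ * u = v' * v⁻¹ := by
      rw [inv_mul_eq_iff_eq_mul, ← mul_assoc, eq_mul_inv_iff_mul_eq, e']
    have h2 : u'⁻¹ * u = 1 := by
      refine dis hc ((Cj H g).mul_mem ((Cj H g).inv_mem hu'.2) hu.2) ?_ (h := h)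
      rw [h1]
      exact (Cj K h).mul_mem hv'.2 ((Cj K h).inv_mem hv.2)
    have h3 : u = u' := by
      rw [inv_mul_eq_one] at h2
      exact h2.symm
    have h4 : v = v' := by
      rw [h2] at h1
      exact (mul_inv_eq_one.1 h1.symm).symm
    subst h3
    subst h4
    rfl
  · rintro ⟨a, ha⟩
    obtain ⟨u, v, h1, h2, h3, h4, h5⟩ := hA g h a ha
    exact ⟨⟨⟨u, h1, h3⟩, ⟨v, h2, h4⟩⟩, Subtype.ext h5.symm⟩

/-! ### normal subgroups of members -/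

theorem mem_of_coprime_mul {T D : Subgroup G} [hD : (D.subgroupOf T).Normal] {u v : G} (hu : u ∈ T) (hv : v ∈ T)
    (huv : u * v ∈ D) (hco : (orderOf u).Coprime (orderOf v)) : u ∈ D := by
  set q := QuotientGroup.mk' (D.subgroupOf T)
  have h1 : q ⟨u, hu⟩ * q ⟨v, hv⟩ = 1 := by
    rw [← map_mul]
    refine (QuotientGroup.eq_one_iff _).2 ?_
    rw [Subgroup.mem_subgroupOf]
    exact huv
  have h2 : orderOf (q ⟨u, hu⟩) ∣ orderOf u := by
    have := orderOf_map_dvd q (⟨u, hu⟩ : T)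
    rwa [Subgroup.orderOf_mk] at this
  have h3 : orderOf (q ⟨u, hu⟩) ∣ orderOf v := by
    have := orderOf_map_dvd q (⟨v, hv⟩ : T)
    rw [Subgroup.orderOf_mk] at this
    rw [eq_inv_of_mul_eq_one_left h1, orderOf_inv]
    exact this
  have h4 := orderOf_eq_one_iff.1 (Nat.eq_one_of_dvd_coprimes hco h2 h3)
  have h5 := (QuotientGroup.eq_one_iff _).1 h4
  rwa [Subgroup.mem_subgroupOf] at h5

theorem mem_of_coprime_index {T D : Subgroup G} [hD : (D.subgroupOf T).Normal] {u : G} (hu : u ∈ T) {n : ℕ}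
    (hn : orderOf u ∣ n) (hco : n.Coprime (D.relIndex T)) : u ∈ D := by
  set q := QuotientGroup.mk' (D.subgroupOf T)
  have h2 : orderOf (q ⟨u, hu⟩) ∣ n := by
    have := orderOf_map_dvd q (⟨u, hu⟩ : T)
    rw [Subgroup.orderOf_mk] at this
    exact this.trans hn
  have h3 : orderOf (q ⟨u, hu⟩) ∣ D.relIndex T := by
    rw [Subgroup.relIndex, Subgroup.index_eq_card]
    exact orderOf_dvd_natCard _
  have h4 := orderOf_eq_one_iff.1 (Nat.eq_one_of_dvd_coprimes hco h2 h3)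
  have h5 := (QuotientGroup.eq_one_iff _).1 h4
  rwa [Subgroup.mem_subgroupOf] at h5

theorem Mem.of_normal (hc : (Nat.card H).Coprime (Nat.card K)) {T D : Subgroup G} (hT : Mem H K T) (hDT : D ≤ T)
    [hD : (D.subgroupOf T).Normal] : Mem H K D := by
  intro g h a ha
  obtain ⟨u, v, h1, h2, h3, h4, h5⟩ := hT g h a (hDT ha)
  have h6 : u ∈ D := mem_of_coprime_mul h1 h2 (h5 ▸ ha) (Nat.Coprime.coprime_dvd_left (ord_Cj h3)
    (Nat.Coprime.coprime_dvd_right (ord_Cj h4) hc))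
  have h7 : v ∈ D := by
    have : v = u⁻¹ * a := by rw [h5]; group
    rw [this]
    exact D.mul_mem (D.inv_mem h6) ha
  exact ⟨u, v, h6, h7, h3, h4, h5⟩

theorem Mem.of_step {T D S : Subgroup G} (hT : Mem H K T) (hDS : D ≤ S) (hST : S ≤ T)
    [hD : (D.subgroupOf T).Normal] (hl : (Nat.card H).Coprime (D.relIndex T) ∨ (Nat.card K).Coprime (D.relIndex T)) :
    Mem H K S := by
  intro g h a ha
  obtain ⟨u, v, h1, h2, h3, h4, h5⟩ := hT g h a (hST ha)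
  rcases hl with hl | hl
  · have h6 : u ∈ S := hDS (mem_of_coprime_index h1 (ord_Cj h3) hl)
    have h7 : v ∈ S := by
      have : v = u⁻¹ * a := by rw [h5]; group
      rw [this]
      exact S.mul_mem (S.inv_mem h6) ha
    exact ⟨u, v, h6, h7, h3, h4, h5⟩
  · have h6 : v ∈ S := hDS (mem_of_coprime_index h2 (ord_Cj h4) hl)
    have h7 : u ∈ S := by
      have : u = a * v⁻¹ := by rw [h5]; group
      rw [this]
      exact S.mul_mem ha (S.inv_mem h6)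
    exact ⟨u, v, h7, h6, h3, h4, h5⟩

/-! ### trivial cores -/

theorem normal_sub (hc : (Nat.card H).Coprime (Nat.card K)) {F R : Subgroup G} (hF : Mem H K F) (hRF : R ≤ F)
    [hR : (R.subgroupOf F).Normal] {w : G} (hw : R ≤ Cj H w) (hH : H.normalCore = ⊥) : R = ⊥ := by
  rw [← le_bot_iff, ← hH]
  intro r hr b
  obtain ⟨u, v, h1, h2, h3, h4, h5⟩ := hF b⁻¹ 1 r (hRF hr)
  have h6 : u ∈ R := mem_of_coprime_mul h1 h2 (h5 ▸ hr) (Nat.Coprime.coprime_dvd_left (ord_Cj h3)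
    (Nat.Coprime.coprime_dvd_right (ord_Cj h4) hc))
  have h7 : v ∈ R := by
    have : v = u⁻¹ * r := by rw [h5]; group
    rw [this]
    exact R.mul_mem (R.inv_mem h6) hr
  have h8 : v = 1 := dis hc (hw h7) h4
  rw [h8, mul_one] at h5
  rw [h5]
  rw [mem_Cj, inv_inv] at h3
  exact h3

theorem prim (hc : (Nat.card H).Coprime (Nat.card K)) (hH : H.normalCore = ⊥) {F : Subgroup G} (hF : Mem H K F)
    {w : G} (hw : F ≤ Cj H w) : F = ⊥ := by
  have : (F.subgroupOf F).Normal := by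
    rw [Subgroup.subgroupOf_self]
    infer_instance
  exact normal_sub hc hF le_rfl hw hH

theorem abel (hc : (Nat.card H).Coprime (Nat.card K)) (hH : H.normalCore = ⊥) (hK : K.normalCore = ⊥)
    {F : Subgroup G} (hF : Mem H K F) (hab : ∀ a ∈ F, ∀ b ∈ F, a * b = b * a) : F = ⊥ := by
  have hn : ∀ R : Subgroup G, (R.subgroupOf F).Normal := by
    intro R
    constructor
    rintro ⟨x, hx⟩ hxR ⟨g, hg⟩
    rw [Subgroup.mem_subgroupOf] at hxR ⊢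
    have h1 : ((⟨g, hg⟩ : F) * ⟨x, hx⟩ * (⟨g, hg⟩ : F)⁻¹ : F).1 = x := by
      show g * x * g⁻¹ = x
      rw [hab g hg x hx]
      group
    rw [h1]
    exact hxR
  have h1 : F ⊓ Cj H 1 = ⊥ := by
    have := hn (F ⊓ Cj H 1)
    exact normal_sub hc hF inf_le_left inf_le_right hH
  have h2 : F ⊓ Cj K 1 = ⊥ := by
    have := hn (F ⊓ Cj K 1)
    exact normal_sub hc.symm hF.symm inf_le_left inf_le_right hK
  rw [eq_bot_iff]
  intro a ha
  obtain ⟨u, v, k1, k2, k3, k4, k5⟩ := hF 1 1 a ha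
  have e1 : u = 1 := by
    have : u ∈ F ⊓ Cj H 1 := ⟨k1, k3⟩
    rw [h1] at this
    exact this
  have e2 : v = 1 := by
    have : v ∈ F ⊓ Cj K 1 := ⟨k2, k4⟩
    rw [h2] at this
    exact this
  rw [k5, e1, e2, mul_one]
  exact Subgroup.one_mem _

/-- KEY LEMMA -/
theorem key (hc : (Nat.card H).Coprime (Nat.card K)) (hH : H.normalCore = ⊥) {D F : Subgroup G}
    (hD : Mem H K D) (hF : Mem H K F) (hDF : D ⊓ F = ⊥) {d w : G} (hdD : d ∈ D) (hdH : d ∈ Cj H w)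
    (hn : ∀ f ∈ F, d⁻¹ * f * d ∈ F) : ∀ f ∈ F, d * f = f * d := by
  have hA : ∀ f ∈ F, d ∈ Cj H (f⁻¹ * w) := by
    intro f hf
    obtain ⟨d0, d1, a1, a2, a3, a4, a5⟩ := hD (f⁻¹ * w) 1 d hdD
    obtain ⟨f0, f1, b1, b2, b3, b4, b5⟩ := hF (f⁻¹ * w) 1 (f⁻¹ * (d⁻¹ * f * d)) (F.mul_mem (F.inv_mem hf) (hn f hf))
    have h1 : f⁻¹ * d⁻¹ * f ∈ Cj H (f⁻¹ * w) := by
      rw [mem_Cj] at hdH ⊢
      have : (f⁻¹ * w)⁻¹ * (f⁻¹ * d⁻¹ * f) * (f⁻¹ * w) = (w⁻¹ * d * w)⁻¹ := by group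
      rw [this]
      exact H.inv_mem hdH
    have h2 : f1 * d1⁻¹ = f0⁻¹ * (f⁻¹ * d⁻¹ * f) * d0 := by
      have e1 : f1 = f0⁻¹ * (f⁻¹ * (d⁻¹ * f * d)) := by rw [b5]; group
      have e2 : d1 = d0⁻¹ * d := by
        conv_rhs => rw [a5]
        group
      rw [e1, e2]
      group
    have h3 : f1 * d1⁻¹ = 1 := by
      refine dis hc (g := f⁻¹ * w) ?_ ((Cj K 1).mul_mem b4 ((Cj K 1).inv_mem a4))
      · rw [h2]
        exact (Cj H (f⁻¹ * w)).mul_mem ((Cj H (f⁻¹ * w)).mul_mem ((Cj H (f⁻¹ * w)).inv_mem b3) h1) a3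
    have h4 : d1 = f1 := (mul_inv_eq_one.1 h3).symm
    have h5 : d1 ∈ D ⊓ F := ⟨a2, h4 ▸ b2⟩
    rw [hDF, Subgroup.mem_bot] at h5
    rw [a5, h5, mul_one]
    exact a3
  set O : Subgroup G := ⨅ f : F, Cj H ((f : G)⁻¹ * w) with hO
  have hdO : d ∈ O := by
    rw [hO, Subgroup.mem_iInf]
    intro f
    exact hA f f.2
  have hOn : ∀ f ∈ F, ∀ r ∈ O, f * r * f⁻¹ ∈ O := by
    intro f hf r hr
    rw [hO, Subgroup.mem_iInf] at hr ⊢
    intro f'
    have := hr (f' * ⟨f, hf⟩)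
    rw [mem_Cj] at this ⊢
    have e : ((f' : G)⁻¹ * w)⁻¹ * (f * r * f⁻¹) * ((f' : G)⁻¹ * w) =
        (((f' * ⟨f, hf⟩ : F) : G)⁻¹ * w)⁻¹ * r * (((f' * ⟨f, hf⟩ : F) : G)⁻¹ * w) := by
      show _ = ((((f' : G) * f))⁻¹ * w)⁻¹ * r * (((f' : G) * f)⁻¹ * w)
      group
    rw [e]
    exact this
  have hR : ((O ⊓ F).subgroupOf F).Normal := by
    constructor
    rintro ⟨x, hx⟩ hxR ⟨g, hg⟩
    rw [Subgroup.mem_subgroupOf] at hxR ⊢
    exact ⟨hOn g hg x hxR.1, F.mul_mem (F.mul_mem hg hx) (F.inv_mem hg)⟩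
  have hRw : O ⊓ F ≤ Cj H w := by
    refine inf_le_left.trans ?_
    rw [hO]
    have := iInf_le (fun f : F => Cj H ((f : G)⁻¹ * w)) 1
    simpa using this
  have hR0 : O ⊓ F = ⊥ := normal_sub hc hF inf_le_right hRw hH
  intro f hf
  have h1 : d⁻¹ * f⁻¹ * d * f ∈ O ⊓ F := by
    constructor
    · have h2 := hOn f⁻¹ (F.inv_mem hf) d hdO
      rw [inv_inv] at h2
      have : d⁻¹ * f⁻¹ * d * f = d⁻¹ * (f⁻¹ * d * f) := by group
      rw [this]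
      exact O.mul_mem (O.inv_mem hdO) h2
    · exact F.mul_mem (hn _ (F.inv_mem hf)) hf
  rw [hR0, Subgroup.mem_bot] at h1
  have h2 : d * f = f * d * (d⁻¹ * f⁻¹ * d * f) := by group
  rw [h2, h1, mul_one]

theorem keyTy (hc : (Nat.card H).Coprime (Nat.card K)) (hH : H.normalCore = ⊥) (hK : K.normalCore = ⊥)
    {D F : Subgroup G} (hD : Mem H K D) (hF : Mem H K F) (hDF : D ⊓ F = ⊥) {d : G} (hdD : d ∈ D)
    (hd : Ty H K d) (hn : ∀ f ∈ F, d⁻¹ * f * d ∈ F) : ∀ f ∈ F, d * f = f * d := by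
  rcases hd with ⟨w, hw⟩ | ⟨w, hw⟩
  · exact key hc hH hD hF hDF hdD hw hn
  · exact key hc.symm hK hD.symm hF.symm hDF hdD hw hn

theorem keyAll (hc : (Nat.card H).Coprime (Nat.card K)) (hH : H.normalCore = ⊥) (hK : K.normalCore = ⊥)
    {D F : Subgroup G} (hD : Mem H K D) (hF : Mem H K F) (hDF : D ⊓ F = ⊥)
    (hn : ∀ d ∈ D, ∀ f ∈ F, d⁻¹ * f * d ∈ F) : ∀ d ∈ D, ∀ f ∈ F, d * f = f * d := by
  intro d hd f hf
  obtain ⟨u, v, h1, h2, h3, h4, rfl⟩ := hD 1 1 d hd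
  have e1 := keyTy hc hH hK hD hF hDF h1 (Or.inl ⟨1, h3⟩) (hn u h1) f hf
  have e2 := keyTy hc hH hK hD hF hDF h2 (Or.inr ⟨1, h4⟩) (hn v h2) f hf
  rw [mul_assoc, e2, ← mul_assoc, e1, mul_assoc]

end

end Pool.Agent.Lib.MP_8113ca_al.Two
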