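import Pool.Agent.Lib.MP_8113ca_al.Two.Fin

/-!
Two disjoint sets of primes `π`, `ρ` (not necessarily classes of `σ`), a `π`-subgroup `P` and a
`ρ`-subgroup `Q` all of whose conjugates meet `A` in Hall subgroups of `A`.
-/

set_option autoImplicit false

open scoped Pointwise

namespace Pool.Agent.Lib.MP_8113ca_al.Two

open Pool.Agent.Lib.MP_8113ca_al

section

variable {G : Type*} [Group G]

/-- `P` is a `π`-subgroup of `G` all of whose conjugates meet `A` in Hall `π`-subgroups of `A` -/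
def Gd (A : Subgroup G) (π : Set ℕ) (P : Subgroup G) : Prop :=
  IsPiNumber π (Nat.card P) ∧ ∀ g : G, IsPiPrimeNumber π ((MulAut.conj g • P).relIndex A)

theorem Gd.map {A : Subgroup G} {π : Set ℕ} {P : Subgroup G} (h : Gd A π P) {G' : Type*} [Group G'] (f : G →* G')
    (hf : Function.Surjective f) : Gd (A.map f) π (P.map f) := by
  refine ⟨h.1.of_dvd (P.card_map_dvd f), ?_⟩
  intro g'
  obtain ⟨g, rfl⟩ := hf g'
  rw [← map_conj_smul]
  exact (h.2 g).of_dvd (relIndex_map_map_dvd f _ _)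

theorem Gd.subgroupOf {A : Subgroup G} {π : Set ℕ} {P : Subgroup G} (h : Gd A π P) {M : Subgroup G} (hAM : A ≤ M) :
    Gd (A.subgroupOf M) π (P.subgroupOf M) := by
  refine ⟨h.1.of_dvd (Subgroup.card_comap_dvd_of_injective P M.subtype M.subtype_injective), fun g => ?_⟩
  rw [conj_subgroupOf, relIndex_subgroupOf hAM]
  exact h.2 g

theorem relIndex_map_subtype_dvd [Finite G] {A : Subgroup G} (K : Subgroup G) (X : Subgroup A) [X.Normal] :
    K.relIndex (X.map A.subtype) ∣ K.relIndex A := by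
  have h1 : (K.subgroupOf A).relIndex X = K.relIndex (X.map A.subtype) := by
    rw [← relIndex_subgroupOf (Subgroup.map_subtype_le X) (K := K)]
    congr 1
    exact (Subgroup.comap_map_eq_self_of_injective A.subtype_injective X).symm
  rw [← h1, ← relIndex_sup_of_normal (K.subgroupOf A) X]
  exact Subgroup.relIndex_dvd_index_of_le le_sup_left

theorem card_map_subtype {A : Subgroup G} (X : Subgroup A) : Nat.card (X.map A.subtype) = Nat.card X :=
  (Nat.card_congr (X.equivMapOfInjective A.subtype A.subtype_injective).toEquiv).symm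

end

/-- the index type of the partition `π, ρ`, rest -/
def TriIdx (π ρ : Set ℕ) : Type :=
  {s : Set ℕ // s.Nonempty ∧ (s = {p | p.Prime ∧ p ∈ π} ∨ s = {p | p.Prime ∧ p ∈ ρ} ∨
    s = {p | p.Prime ∧ p ∉ π ∧ p ∉ ρ})}

theorem tri {π ρ : Set ℕ} (hd : Disjoint π ρ) : IsPrimePartition (fun s : TriIdx π ρ => s.1) where
  nonempty := fun s => s.2.1
  prime := by
    rintro ⟨s, h1, h2⟩ p hp
    have hp' : p ∈ s := hp
    rcases h2 with h2 | h2 | h2 <;> · rw [h2] at hp'; exact hp'.1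
  disjoint := by
    rintro ⟨s, h1, h2⟩ ⟨t, h3, h4⟩ hne
    have hst : s ≠ t := fun h => hne (Subtype.ext h)
    show Disjoint s t
    rw [Set.disjoint_left]
    intro p hp hp'
    rcases h2 with h2 | h2 | h2 <;> rcases h4 with h4 | h4 | h4
    · exact hst (h2.trans h4.symm)
    · rw [h2] at hp; rw [h4] at hp'
      exact Set.disjoint_left.1 hd hp.2 hp'.2
    · rw [h2] at hp; rw [h4] at hp'
      exact hp'.2.1 hp.2
    · rw [h2] at hp; rw [h4] at hp'
      exact Set.disjoint_left.1 hd hp'.2 hp.2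
    · exact hst (h2.trans h4.symm)
    · rw [h2] at hp; rw [h4] at hp'
      exact hp'.2.2 hp.2
    · rw [h2] at hp; rw [h4] at hp'
      exact hp.2.1 hp'.2
    · rw [h2] at hp; rw [h4] at hp'
      exact hp.2.2 hp'.2
    · exact hst (h2.trans h4.symm)
  cover := by
    intro p hp
    by_cases h1 : p ∈ π
    · exact ⟨⟨{p | p.Prime ∧ p ∈ π}, ⟨p, hp, h1⟩, Or.inl rfl⟩, hp, h1⟩
    by_cases h2 : p ∈ ρ
    · exact ⟨⟨{p | p.Prime ∧ p ∈ ρ}, ⟨p, hp, h2⟩, Or.inr (Or.inl rfl)⟩, hp, h2⟩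
    · exact ⟨⟨{p | p.Prime ∧ p ∉ π ∧ p ∉ ρ}, ⟨p, hp, h1, h2⟩, Or.inr (Or.inr rfl)⟩, hp, h1, h2⟩

/-- (F5) for two disjoint sets of primes -/
theorem f5pair {G : Type*} [Group G] [Finite G] {π ρ : Set ℕ} (hd : Disjoint π ρ) {P Q : Subgroup G}
    (hP : IsPiNumber π (Nat.card P)) (hQ : IsPiNumber ρ (Nat.card Q)) (hcP : P.normalCore = ⊥)
    (hcQ : Q.normalCore = ⊥) (hπ : ∃ p ∈ π, p.Prime) (hρ : ∃ p ∈ ρ, p.Prime) {C : Subgroup G} (hC : Mem P Q C)
    {X Y : Subgroup G} (hX : Mem P Q X) (hXn : IsPiNumber (π ∪ ρ) (Nat.card X))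
    (hXmin : ∀ S, Mem P Q S → S ≤ X → S = ⊥ ∨ S = X)
    (hY : Mem P Q Y) (hY0 : Y ≠ ⊥) (hYmin : ∀ S, Mem P Q S → S ≤ Y → S = ⊥ ∨ S = Y)
    (hXC : X ≤ C) (hYC : Y ≤ C) : Rl X Y := by
  classical
  obtain ⟨p, hp1, hp2⟩ := hπ
  obtain ⟨q, hq1, hq2⟩ := hρ
  let i : TriIdx π ρ := ⟨{p | p.Prime ∧ p ∈ π}, ⟨p, hp2, hp1⟩, Or.inl rfl⟩
  let j : TriIdx π ρ := ⟨{p | p.Prime ∧ p ∈ ρ}, ⟨q, hq2, hq1⟩, Or.inr (Or.inl rfl)⟩
  have hij : i ≠ j := by
    intro h
    have h1 : p ∈ i.1 := ⟨hp2, hp1⟩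
    rw [h] at h1
    exact Set.disjoint_left.1 hd hp1 h1.2
  let H : TriIdx π ρ → Subgroup G := fun l => if l = i then P else Q
  have hi : H i = P := if_pos rfl
  have hj : H j = Q := if_neg (Ne.symm hij)
  have h1 : IsPiNumber i.1 (Nat.card (H i)) := by
    rw [hi]
    exact fun r hr hrd => ⟨hr, hP r hr hrd⟩
  have h2 : IsPiNumber j.1 (Nat.card (H j)) := by
    rw [hj]
    exact fun r hr hrd => ⟨hr, hQ r hr hrd⟩
  refine f5 (H := H) (tri hd) hij h1 h2 (by rw [hi]; exact hcP) (by rw [hj]; exact hcQ) (C := C)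
    (by rw [hi, hj]; exact hC) (fun H' A' k1 k2 => main (tri hd) _ C rfl H' A' ∅
      (fun _ h => absurd h (Set.notMem_empty _)) k1 k2)
    (by rw [hi, hj]; exact hX) ?_ (by rw [hi, hj]; exact hXmin) (by rw [hi, hj]; exact hY) hY0
    (by rw [hi, hj]; exact hYmin) hXC hYC
  intro r hr hrd
  rcases hXn r hr hrd with h | h
  · exact Or.inl ⟨hr, h⟩
  · exact Or.inr ⟨hr, h⟩

/-- a minimal normal subgroup of `A` for two disjoint sets of primes gives a normal subgroup of `G` -/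
theorem exists_normal_pair {G : Type*} [Group G] [Finite G] {π ρ : Set ℕ} (hd : Disjoint π ρ)
    {A P Q : Subgroup G} (hP : Gd A π P) (hQ : Gd A ρ Q) (hcP : P.normalCore = ⊥) (hcQ : Q.normalCore = ⊥)
    {W : Subgroup A} (hW : IsChiefFactor ⊥ W) (hWn : IsPiNumber (π ∪ ρ) (Nat.card W))
    (hWπ : ¬ IsPiNumber π (Nat.card W)) (hWρ : ¬ IsPiNumber ρ (Nat.card W)) :
    ∃ N : Subgroup G, N.Normal ∧ N ≠ ⊥ ∧ (A ⊔ N = ⊤ → N ≤ A) := by
  have hQπ : IsPiPrimeNumber π (Nat.card Q) := fun p hp hpd hpπ =>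
    Set.disjoint_left.1 hd hpπ (hQ.1 p hp hpd)
  have hc : (Nat.card P).Coprime (Nat.card Q) := coprime_of_pi hP.1 hQπ
  have hWnormal : W.Normal := hW.2.1
  set X : Subgroup G := W.map A.subtype with hXdef
  have hcardX : Nat.card X = Nat.card W := card_map_subtype W
  have hX0 : X ≠ ⊥ := by
    intro h
    rw [hXdef, Subgroup.map_eq_bot_iff_of_injective _ A.subtype_injective] at h
    exact hW.2.2.1.ne' h
  have hXA : X ≤ A := Subgroup.map_subtype_le W
  have hXn : IsPiNumber (π ∪ ρ) (Nat.card X) := by rw [hcardX]; exact hWn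
  have hπ : ∃ p ∈ π, p.Prime := by
    unfold IsPiNumber at hWρ
    push Not at hWρ
    obtain ⟨p, hp, hpd, hpρ⟩ := hWρ
    exact ⟨p, (hWn p hp hpd).resolve_right hpρ, hp⟩
  have hρ : ∃ p ∈ ρ, p.Prime := by
    unfold IsPiNumber at hWπ
    push Not at hWπ
    obtain ⟨p, hp, hpd, hpπ⟩ := hWπ
    exact ⟨p, (hWn p hp hpd).resolve_left hpπ, hp⟩
  have hXm : Mem P Q X := by
    refine Mem.of_relIndex hd hXn hP.1 hQ.1 ?_ ?_
    · intro g
      rw [← conj_smul_eq]
      exact (hP.2 g).of_dvd (relIndex_map_subtype_dvd _ W)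
    · intro g
      rw [← conj_smul_eq]
      exact (hQ.2 g).of_dvd (relIndex_map_subtype_dvd _ W)
  -- a minimal member
  obtain ⟨B, ⟨hBm, hB0, hBX⟩, hBmin⟩ := wellFounded_lt.has_min
    {S : Subgroup G | Mem P Q S ∧ S ≠ ⊥ ∧ S ≤ X} ⟨X, hXm, hX0, le_rfl⟩
  have hBmin' : ∀ S, Mem P Q S → S ≤ B → S = ⊥ ∨ S = B := by
    intro S hS hSB
    by_cases h0 : S = ⊥
    · exact Or.inl h0
    · right
      by_contra hne
      exact hBmin S ⟨hS, h0, hSB.trans hBX⟩ (lt_of_le_of_ne hSB hne)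
  have hBn : IsPiNumber (π ∪ ρ) (Nat.card B) := hXn.of_dvd (Subgroup.card_dvd_of_le hBX)
  set Ω : Set (Subgroup G) := {S | ∃ g, S = Cj B g} with hΩ
  have hminΩ : ∀ Y ∈ Ω, ∀ S, Mem P Q S → S ≤ Y → S = ⊥ ∨ S = Y := by
    rintro _ ⟨g, rfl⟩ S hS hSY
    have h1 : Cj S g⁻¹ ≤ B := by
      rw [Cj_le_iff, inv_inv]
      exact hSY
    rcases hBmin' _ (hS.conj g⁻¹) h1 with h2 | h2
    · left
      have := congrArg (fun T => Cj T g) h2
      simpa only [← Cj_mul, mul_inv_cancel, Cj_one, Cj_bot] using this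
    · right
      have := congrArg (fun T => Cj T g) h2
      simpa only [← Cj_mul, mul_inv_cancel, Cj_one] using this
  have hneΩ : ∀ Y ∈ Ω, Y ≠ ⊥ := by
    rintro _ ⟨g, rfl⟩ h
    apply hB0
    have := congrArg (fun T => Cj T g⁻¹) h
    simpa only [← Cj_mul, inv_mul_cancel, Cj_one, Cj_bot] using this
  have hmemΩ : ∀ Y ∈ Ω, Mem P Q Y := by
    rintro _ ⟨g, rfl⟩
    exact hBm.conj g
  have hcardΩ : ∀ Y ∈ Ω, IsPiNumber (π ∪ ρ) (Nat.card Y) := by
    rintro _ ⟨g, rfl⟩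
    rw [card_Cj]
    exact hBn
  have hctx : Ctx P Q Ω :=
    { cop := hc
      cH := hcP
      cK := hcQ
      mem := hmemΩ
      ne := hneΩ
      min := hminΩ
      conj := by
        rintro _ ⟨g, rfl⟩ h
        exact ⟨h * g, (Cj_mul B h g).symm⟩
      tr := by
        rintro _ ⟨g, rfl⟩ _ ⟨h, rfl⟩
        refine ⟨h * g⁻¹, ?_⟩
        rw [← Cj_mul]
        congr 1
        group
      h5 := by
        intro C hC hCtop X1 hX1 Y1 hY1 hXC hYC
        exact f5pair hd hP.1 hQ.1 hcP hcQ hπ hρ hC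
          (hmemΩ _ hX1) (hcardΩ _ hX1) (hminΩ _ hX1) (hmemΩ _ hY1) (hneΩ _ hY1) (hminΩ _ hY1) hXC hYC }
  -- the normal closure
  set N : Subgroup G := sSup Ω with hN
  have hBN : B ≤ N := le_sSup ⟨1, (Cj_one B).symm⟩
  have hN0 : N ≠ ⊥ := fun h => hB0 (le_bot_iff.1 (h ▸ hBN))
  have hNB : ∀ Y ∈ Ω, ∀ z ∈ N, Cj Y z = Y := by
    intro Y hY z hz
    have h1 : N ≤ Subgroup.normalizer (Y : Set G) := by
      refine sSup_le ?_
      intro Z hZ
      rcases hctx.main hY hZ with rfl | h2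
      · exact Subgroup.le_normalizer
      · intro z hz
        rw [Subgroup.mem_normalizer_iff]
        intro y
        constructor
        · intro hy
          have : z * y * z⁻¹ = y := by
            rw [← h2 y hy z hz]
            group
          show z * y * z⁻¹ ∈ Y
          rw [this]
          exact hy
        · intro hy
          show y ∈ Y
          have e1 : z * y * z⁻¹ * z = z * (z * y * z⁻¹) := h2 _ hy z hz
          have : y = z * y * z⁻¹ := by
            calc y = z⁻¹ * (z * y * z⁻¹ * z) := by group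
              _ = z⁻¹ * (z * (z * y * z⁻¹)) := by rw [e1]
              _ = z * y * z⁻¹ := by group
          rw [this]
          exact hy
    ext y
    rw [mem_Cj]
    have h2 := Subgroup.mem_normalizer_iff.1 ((Subgroup.normalizer (Y : Set G)).inv_mem (h1 hz)) y
    rw [inv_inv] at h2
    exact h2.symm
  have hNn : N.Normal := by
    constructor
    intro x hx g
    have h3 : N ≤ Cj N g⁻¹ := by
      refine sSup_le ?_
      rintro _ ⟨k, rfl⟩
      intro y hy
      rw [mem_Cj, inv_inv]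
      refine (le_sSup (a := Cj B (g * k)) ⟨g * k, rfl⟩ : Cj B (g * k) ≤ sSup Ω) ?_
      rw [Cj_mul, mem_Cj]
      have : g⁻¹ * (g * y * g⁻¹) * g = y := by group
      rw [this]
      exact hy
    have h4 := h3 hx
    rw [mem_Cj, inv_inv] at h4
    exact h4
  refine ⟨N, hNn, hN0, fun hMtop => ?_⟩
  refine sSup_le ?_
  rintro _ ⟨g, rfl⟩
  have hg : g ∈ A ⊔ N := by
    rw [hMtop]
    exact Subgroup.mem_top g
  obtain ⟨a, ha, z, hz, rfl⟩ := Subgroup.mem_sup_of_normal_right.1 hg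
  rw [Cj_mul, hNB B ⟨1, (Cj_one B).symm⟩ z hz]
  intro x hx
  rw [mem_Cj] at hx
  have h1 := hXA (hBX hx)
  have : x = a * (a⁻¹ * x * a) * a⁻¹ := by group
  rw [this]
  exact A.mul_mem (A.mul_mem ha h1) (A.inv_mem ha)

end Pool.Agent.Lib.MP_8113ca_al.Two
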