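import Pool.Agent.Lib.MP_8113ca_al.Step
import Pool.Agent.Lib.MP_8113ca_al.Soluble

/-!
The intersection hypothesis only for the classes which meet the primes of `A`; σ-subnormal subgroups
of σ-subnormal subgroups; Hall subgroups meet σ-subnormal subgroups in Hall subgroups.
-/

set_option autoImplicit false

open scoped Pointwise

namespace Pool.Agent.Lib.MP_8113ca_al.Two

open Pool.Agent.Lib.MP_8113ca_al

variable {I : Type*} {σ : I → Set ℕ} {G : Type*} [Group G]

/-- the intersection hypothesis, only for the classes which meet the primes of `A` -/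
def Star2 (σ : I → Set ℕ) (H : I → Subgroup G) (A : Subgroup G) : Prop :=
  ∀ i, ¬ IsPiPrimeNumber (σ i) (Nat.card A) → IsHall (σ i) (H i) ∧
    ∀ g : G, IsPiPrimeNumber (σ i) ((MulAut.conj g • H i).relIndex A)

/-- every chief factor involves at most two classes -/
def TwoClass (σ : I → Set ℕ) (A : Type*) [Group A] : Prop :=
  ∀ K L : Subgroup A, IsChiefFactor K L → ∃ i j, IsPiNumber (σ i ∪ σ j) (K.relIndex L)

theorem Star2.map {H : I → Subgroup G} {A : Subgroup G} (h : Star2 σ H A) {G' : Type*} [Group G'] (f : G →* G')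
    (hf : Function.Surjective f) : Star2 σ (fun i => (H i).map f) (A.map f) := by
  intro i hi
  have h' := h i (fun hp => hi (hp.of_dvd (A.card_map_dvd f)))
  refine ⟨⟨h'.1.1.of_dvd ((H i).card_map_dvd f),
    h'.1.2.of_dvd (Subgroup.index_map_dvd (H i) hf)⟩, ?_⟩
  intro g'
  obtain ⟨g, rfl⟩ := hf g'
  rw [← map_conj_smul]
  exact (h'.2 g).of_dvd (relIndex_map_map_dvd f _ _)

theorem map_le_normalCore2 [Finite G] {H : I → Subgroup G} {A : Subgroup G} (h : Star2 σ H A) {i : I}
    (hi : ¬ IsPiPrimeNumber (σ i) (Nat.card A))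
    {X : Subgroup A} [X.Normal] (hX : IsPiNumber (σ i) (Nat.card X)) :
    X.map A.subtype ≤ (H i).normalCore := by
  rintro _ ⟨x, hx, rfl⟩
  intro g
  have h1 : IsPiPrimeNumber (σ i) ((MulAut.conj g⁻¹ • H i).subgroupOf A).index := (h i hi).2 g⁻¹
  have h2 := le_of_normal_of_piPrime_index hX h1 hx
  rw [Subgroup.mem_subgroupOf, Subgroup.mem_pointwise_smul_iff_inv_smul_mem] at h2
  simpa [MulAut.smul_def, ← map_inv] using h2

theorem step_sup2 [Finite G] (hσ : IsPrimePartition σ) {H : I → Subgroup G} {A : Subgroup G} (h : Star2 σ H A) {i : I}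
    {N : Subgroup G} [N.Normal] (hN : IsPiNumber (σ i) (Nat.card N)) (hM : IsSigmaSubnormal σ (A ⊔ N)) :
    IsSigmaSubnormal σ A := by
  set M := A ⊔ N with hMdef
  -- Step 1: Hall subgroups for `j ≠ i` meet `M` in subgroups of `A`
  have key : ∀ j, j ≠ i → ¬ IsPiPrimeNumber (σ j) (Nat.card A) →
      ∀ g : G, (MulAut.conj g • H j) ⊓ M ≤ A ∧
      IsPiPrimeNumber (σ j) ((MulAut.conj g • H j).relIndex M) := by
    intro j hj hjA g
    set K := MulAut.conj g • H j with hK
    have hKH : IsHall (σ j) K := isHall_conj_smul (h j hjA).1 g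
    have hKA : IsPiPrimeNumber (σ j) (K.relIndex A) := (h j hjA).2 g
    have hMA : IsPiPrimeNumber (σ j) (A.relIndex M) := by
      rw [hMdef, relIndex_sup_of_normal A N]
      exact (hσ.piPrime_of_ne (Ne.symm hj) hN).of_dvd (Subgroup.relIndex_dvd_card A N)
    have hKAM : IsPiPrimeNumber (σ j) ((K ⊓ A).relIndex M) := by
      rw [← Subgroup.relIndex_mul_relIndex (K ⊓ A) A M inf_le_right le_sup_left,
        Subgroup.inf_relIndex_right]
      exact hKA.mul hMA
    have h1 : (K ⊓ A).relIndex (K ⊓ M) = 1 := by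
      apply eq_one_of_isPiNumber_of_isPiPrimeNumber (π := σ j)
      · refine hKH.1.of_dvd ((Subgroup.relIndex_dvd_card _ _).trans ?_)
        exact Subgroup.card_dvd_of_le inf_le_left
      · refine hKAM.of_dvd ?_
        rw [← Subgroup.relIndex_mul_relIndex (K ⊓ A) (K ⊓ M) M
          (inf_le_inf_left K le_sup_left) inf_le_right]
        exact dvd_mul_right _ _
    have h2 : K ⊓ M ≤ K ⊓ A := Subgroup.relIndex_eq_one.1 h1
    refine ⟨h2.trans inf_le_right, hKAM.of_dvd ?_⟩
    exact Subgroup.relIndex_dvd_of_le_left M inf_le_left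
  -- Step 2: the normal subgroup `D`
  set D : Subgroup G := ⨆ j : {j : I // j ≠ i ∧ ¬ IsPiPrimeNumber (σ j) (Nat.card A)},
    ⨆ g : G, (MulAut.conj g • H j) ⊓ M with hD
  have hDA : D ≤ A := iSup_le fun j => iSup_le fun g => (key j j.2.1 j.2.2 g).1
  have hDconj : ∀ m ∈ M, MulAut.conj m • D ≤ D := by
    intro m hm
    have hmap : ∀ K : Subgroup G, MulAut.conj m • K = K.map (MulAut.conj m).toMonoidHom :=
      fun K => rfl
    rw [hmap, hD, Subgroup.map_iSup]
    refine iSup_le fun j => ?_
    rw [Subgroup.map_iSup]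
    refine iSup_le fun g => ?_
    rw [← hmap]
    have h1 : MulAut.conj m • ((MulAut.conj g • H j) ⊓ M) =
        (MulAut.conj (m * g) • H j) ⊓ M := by
      rw [Subgroup.smul_inf, map_mul, mul_smul]
      congr 1
      exact Subgroup.conj_smul_eq_self_of_mem hm
    rw [h1]
    exact le_iSup_of_le j (le_iSup_of_le (m * g) le_rfl)
  have hDn : (D.subgroupOf M).Normal := by
    constructor
    rintro ⟨x, hx⟩ hxD ⟨m, hm⟩
    rw [Subgroup.mem_subgroupOf] at hxD ⊢
    apply hDconj m hm
    rw [Subgroup.mem_smul_pointwise_iff_exists]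
    exact ⟨x, hxD, by simp [MulAut.smul_def]⟩
  refine IsSigmaSubnormal.step_of_le le_sup_left hM hDA hDn (i := i) ?_
  intro p hp hpD
  obtain ⟨j, hj⟩ := hσ.cover p hp
  by_cases hji : j = i
  · rwa [hji] at hj
  · exfalso
    by_cases hjA : IsPiPrimeNumber (σ j) (Nat.card A)
    · -- `p` divides `|M|`, hence `|A|` or `|N|`
      have hpM : p ∣ Nat.card M := hpD.trans (Subgroup.relIndex_dvd_card D M)
      have h2 : Nat.card A * A.relIndex M = Nat.card M := by
        have h := Subgroup.card_mul_index (A.subgroupOf M)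
        rwa [Nat.card_congr (Subgroup.subgroupOfEquivOfLe (le_sup_left : A ≤ A ⊔ N)).toEquiv] at h
      rw [← h2, hp.dvd_mul] at hpM
      rcases hpM with hpA | hpN
      · exact hjA p hp hpA hj
      · rw [hMdef, relIndex_sup_of_normal A N] at hpN
        exact hσ.piPrime_of_ne (Ne.symm hji) hN p hp (hpN.trans (Subgroup.relIndex_dvd_card A N)) hj
    · refine (key j hji hjA 1).2 p hp (hpD.trans ?_) hj
      have h1 : (MulAut.conj (1 : G) • H j) ⊓ M ≤ D :=
        le_iSup_of_le (⟨j, hji, hjA⟩ : {j : I // j ≠ i ∧ ¬ IsPiPrimeNumber (σ j) (Nat.card A)})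
          (le_iSup_of_le 1 le_rfl)
      rw [← Subgroup.inf_relIndex_right (MulAut.conj (1 : G) • H j) M]
      exact Subgroup.relIndex_dvd_of_le_left M h1

theorem IsSigmaSubnormal.trans {M : Subgroup G} (hM : IsSigmaSubnormal σ M) {C : Subgroup M}
    (hC : IsSigmaSubnormal σ C) : IsSigmaSubnormal σ (C.map M.subtype) := by
  induction hC with
  | top =>
    rw [← MonoidHom.range_eq_map, Subgroup.range_subtype]
    exact hM
  | step A B hAB hB h ih =>
    have hle : A.map M.subtype ≤ B.map M.subtype := Subgroup.map_mono hAB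
    have hnorm : ∀ D : Subgroup M, (D.subgroupOf B).Normal →
        ((D.map M.subtype).subgroupOf (B.map M.subtype)).Normal := by
      intro D hD
      constructor
      rintro ⟨x, hx⟩ hxD ⟨g, hg⟩
      rw [Subgroup.mem_subgroupOf] at hxD ⊢
      obtain ⟨x', hx', rfl⟩ := hx
      obtain ⟨g', hg', rfl⟩ := hg
      obtain ⟨y, hy, hyx⟩ := hxD
      have hyx' : y = x' := M.subtype_injective hyx
      subst hyx'
      have := hD.conj_mem ⟨y, hx'⟩ (Subgroup.mem_subgroupOf.2 hy) ⟨g', hg'⟩
      rw [Subgroup.mem_subgroupOf] at this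
      exact ⟨_, this, by simp⟩
    rcases h with h | h
    · exact .step _ _ hle ih (Or.inl (hnorm A h))
    · obtain ⟨i, D, hDA, hDn, hD⟩ := exists_core h
      refine IsSigmaSubnormal.step_of_le (D := D.map M.subtype) hle ih
        (Subgroup.map_mono hDA) (hnorm D hDn) (i := i) ?_
      have : (D.map M.subtype).relIndex (B.map M.subtype) = D.relIndex B :=
        Subgroup.relIndex_map_map_of_injective _ _ M.subtype_injective
      rw [this]
      exact hD

/-- a Hall subgroup meets one step of a σ-subnormal chain in a Hall subgroup -/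
theorem relIndex_step {B : Type*} [Group B] [Finite B] (hσ : IsPrimePartition σ) {i : I} {K A : Subgroup B}
    (hK1 : IsPiNumber (σ i) (Nat.card K)) (hK2 : IsPiPrimeNumber (σ i) K.index)
    (h : A.Normal ∨ IsSigmaPrimary σ (B ⧸ A.normalCore)) : IsPiPrimeNumber (σ i) (K.relIndex A) := by
  have hnor : ∀ D : Subgroup B, D.Normal → IsPiPrimeNumber (σ i) (K.relIndex D) := by
    intro D hD
    rw [← relIndex_sup_of_normal K D]
    exact hK2.of_dvd (Subgroup.relIndex_dvd_index_of_le le_sup_left)
  rcases h with h | ⟨j, hj⟩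
  · exact hnor A h
  · have hDn : A.normalCore.Normal := Subgroup.normalCore_normal A
    have hDA : A.normalCore ≤ A := A.normalCore_le
    have hKD := hnor _ hDn
    rw [← Subgroup.index_eq_card] at hj
    by_cases hij : j = i
    · -- `B = K D`
      subst hij
      have h1 : (K ⊔ A.normalCore).index = 1 := by
        apply eq_one_of_isPiNumber_of_isPiPrimeNumber (π := σ j)
        · exact hj.of_dvd (Subgroup.index_dvd_of_le le_sup_right)
        · exact hK2.of_dvd (Subgroup.index_dvd_of_le le_sup_left)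
      have h2 : K ⊔ A.normalCore = ⊤ := Subgroup.index_eq_one.1 h1
      have h4 : (K ⊓ A) ⊔ A.normalCore = A := by
        refine le_antisymm (sup_le inf_le_right hDA) fun x hx => ?_
        have hx' : x ∈ ((K ⊔ A.normalCore : Subgroup B) : Set B) := by rw [h2]; trivial
        rw [Subgroup.mul_normal] at hx'
        obtain ⟨k, hk, d, hd, hkd⟩ := hx'
        have hkA : k ∈ A := by
          have : k = x * d⁻¹ := by rw [← hkd]; simp
          rw [this]
          exact A.mul_mem hx (A.inv_mem (hDA hd))
        rw [← hkd]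
        exact Subgroup.mul_mem_sup ⟨hk, hkA⟩ hd
      have h3 : K.relIndex A = K.relIndex A.normalCore := by
        calc K.relIndex A = (K ⊓ A).relIndex ((K ⊓ A) ⊔ A.normalCore) := by
              rw [h4, Subgroup.inf_relIndex_right]
          _ = (K ⊓ A).relIndex A.normalCore := relIndex_sup_of_normal _ _
          _ = K.relIndex A.normalCore := by
              rw [← Subgroup.inf_relIndex_right, inf_assoc, inf_eq_right.2 hDA,
                Subgroup.inf_relIndex_right]
      rw [h3]
      exact hKD
    · have h1 : IsPiPrimeNumber (σ i) (A.normalCore.relIndex A) :=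
        (hσ.piPrime_of_ne hij hj).of_dvd (Subgroup.relIndex_dvd_index_of_le hDA)
      refine IsPiPrimeNumber.of_dvd (n := (K ⊓ A.normalCore).relIndex A) ?_
        (Subgroup.relIndex_dvd_of_le_left A inf_le_left)
      rw [← Subgroup.relIndex_mul_relIndex (K ⊓ A.normalCore) A.normalCore A inf_le_right hDA,
        Subgroup.inf_relIndex_right]
      exact hKD.mul h1

theorem IsSigmaSubnormal.relIndex [Finite G] (hσ : IsPrimePartition σ) {M : Subgroup G} (hM : IsSigmaSubnormal σ M)
    {i : I} {K : Subgroup G} (hK : IsHall (σ i) K) : IsPiPrimeNumber (σ i) (K.relIndex M) := by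
  induction hM with
  | top => rw [Subgroup.relIndex_top_right]; exact hK.2
  | step A B hAB hB h ih =>
    rw [← Subgroup.relIndex_subgroupOf hAB]
    refine relIndex_step hσ ?_ ih h
    exact hK.1.of_dvd (Subgroup.card_comap_dvd_of_injective K B.subtype B.subtype_injective)

theorem Star2.subgroupOf [Finite G] (hσ : IsPrimePartition σ) {H : I → Subgroup G} {A : Subgroup G}
    (h : Star2 σ H A) {M : Subgroup G} (hAM : A ≤ M) (hM : IsSigmaSubnormal σ M) :
    Star2 σ (fun i => (H i).subgroupOf M) (A.subgroupOf M) := by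
  intro i hi
  rw [Nat.card_congr (Subgroup.subgroupOfEquivOfLe hAM).toEquiv] at hi
  have h' := h i hi
  refine ⟨⟨?_, IsSigmaSubnormal.relIndex hσ hM h'.1⟩, fun g => ?_⟩
  · exact h'.1.1.of_dvd (Subgroup.card_comap_dvd_of_injective (H i) M.subtype M.subtype_injective)
  · have h1 : MulAut.conj g • (H i).subgroupOf M = (MulAut.conj (g : G) • H i).subgroupOf M := by
      ext x
      rw [Subgroup.mem_subgroupOf, Subgroup.mem_pointwise_smul_iff_inv_smul_mem,
        Subgroup.mem_pointwise_smul_iff_inv_smul_mem, Subgroup.mem_subgroupOf]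
      simp [MulAut.smul_def, ← map_inv]
    show IsPiPrimeNumber (σ i) ((MulAut.conj g • (H i).subgroupOf M).relIndex (A.subgroupOf M))
    rw [h1, Subgroup.relIndex_subgroupOf hAM]
    exact h'.2 g

theorem TwoClass.of_surjective {A B : Type*} [Group A] [Group B] (f : A →* B) (hf : Function.Surjective f)
    (h : TwoClass σ A) : TwoClass σ B := by
  rintro K H ⟨hK, hH, hKH, hmin⟩
  have hc : IsChiefFactor (K.comap f) (H.comap f) := by
    refine ⟨hK.comap f, hH.comap f, ?_, ?_⟩
    · refine lt_of_le_of_ne (Subgroup.comap_mono hKH.le) fun he => ?_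
      exact hKH.ne (Subgroup.comap_injective hf he)
    · intro L hL hKL hLH
      have h1 : (L.map f).comap f = L := by
        apply Subgroup.comap_map_eq_self
        exact le_trans (f.ker_le_comap K) hKL
      have h2 : K ≤ L.map f := by
        have := Subgroup.map_mono (f := f) hKL
        rwa [Subgroup.map_comap_eq_self_of_surjective hf] at this
      have h3 : L.map f ≤ H := by
        have := Subgroup.map_mono (f := f) hLH
        rwa [Subgroup.map_comap_eq_self_of_surjective hf] at this
      rcases hmin (L.map f) (hL.map f hf) h2 h3 with h4 | h4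
      · left; rw [← h1, h4]
      · right; rw [← h1, h4]
  obtain ⟨i, j, hi⟩ := h _ _ hc
  refine ⟨i, j, ?_⟩
  rwa [relIndex_comap_comap_of_surjective f hf] at hi

end Pool.Agent.Lib.MP_8113ca_al.Two
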