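import Pool.Agent.Lib.MP_8113ca_al.Two.Star2
import Pool.Agent.Lib.MP_8113ca_al.Two.F5

/-!
The hypothesis for the classes which meet the primes of `A`, with `σ`-subgroups `H i` of `G` which
need not be Hall subgroups of `G`.
-/

set_option autoImplicit false

open scoped Pointwise

namespace Pool.Agent.Lib.MP_8113ca_al.Two

open Pool.Agent.Lib.MP_8113ca_al

variable {I : Type*} {σ : I → Set ℕ} {G : Type*} [Group G]

/-- the intersection hypothesis, only for the classes which meet the primes of `A`, with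
`σ i`-subgroups `H i` -/
def Star3 (σ : I → Set ℕ) (H : I → Subgroup G) (A : Subgroup G) : Prop :=
  ∀ i, ¬ IsPiPrimeNumber (σ i) (Nat.card A) → IsPiNumber (σ i) (Nat.card (H i)) ∧
    ∀ g : G, IsPiPrimeNumber (σ i) ((MulAut.conj g • H i).relIndex A)

theorem Star3.map {H : I → Subgroup G} {A : Subgroup G} (h : Star3 σ H A) {G' : Type*} [Group G'] (f : G →* G')
    (hf : Function.Surjective f) : Star3 σ (fun i => (H i).map f) (A.map f) := by
  intro i hi
  have h' := h i (fun hp => hi (hp.of_dvd (A.card_map_dvd f)))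
  refine ⟨h'.1.of_dvd ((H i).card_map_dvd f), ?_⟩
  intro g'
  obtain ⟨g, rfl⟩ := hf g'
  rw [← map_conj_smul]
  exact (h'.2 g).of_dvd (relIndex_map_map_dvd f _ _)

theorem map_le_normalCore3 [Finite G] {H : I → Subgroup G} {A : Subgroup G} (h : Star3 σ H A) {i : I}
    (hi : ¬ IsPiPrimeNumber (σ i) (Nat.card A))
    {X : Subgroup A} [X.Normal] (hX : IsPiNumber (σ i) (Nat.card X)) :
    X.map A.subtype ≤ (H i).normalCore := by
  rintro _ ⟨x, hx, rfl⟩
  intro g
  have h1 : IsPiPrimeNumber (σ i) ((MulAut.conj g⁻¹ • H i).subgroupOf A).index := (h i hi).2 g⁻¹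
  have h2 := le_of_normal_of_piPrime_index hX h1 hx
  rw [Subgroup.mem_subgroupOf, Subgroup.mem_pointwise_smul_iff_inv_smul_mem] at h2
  simpa [MulAut.smul_def, ← map_inv] using h2

theorem step_sup3 [Finite G] (hσ : IsPrimePartition σ) {H : I → Subgroup G} {A : Subgroup G} (h : Star3 σ H A) {i : I}
    {N : Subgroup G} [N.Normal] (hN : IsPiNumber (σ i) (Nat.card N)) (hM : IsSigmaSubnormal σ (A ⊔ N)) :
    IsSigmaSubnormal σ A := by
  set M := A ⊔ N with hMdef
  -- Step 1: Hall subgroups for `j ≠ i` meet `M` in subgroups of `A`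
  have key : ∀ j, j ≠ i → ¬ IsPiPrimeNumber (σ j) (Nat.card A) →
      ∀ g : G, (MulAut.conj g • H j) ⊓ M ≤ A ∧
      IsPiPrimeNumber (σ j) ((MulAut.conj g • H j).relIndex M) := by
    intro j hj hjA g
    set K := MulAut.conj g • H j with hK
    have hKH : IsPiNumber (σ j) (Nat.card K) := by
      rw [hK, conj_smul_eq, card_Cj]
      exact (h j hjA).1
    have hKA : IsPiPrimeNumber (σ j) (K.relIndex A) := (h j hjA).2 g
    have hMA : IsPiPrimeNumber (σ j) (A.relIndex M) := by
      rw [hMdef, relIndex_sup_of_normal A N]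
      exact (hσ.piPrime_of_ne (Ne.symm hj) hN).of_dvd (Subgroup.relIndex_dvd_card A N)
    have hKAM : IsPiPrimeNumber (σ j) ((K ⊓ A).relIndex M) := by
      rw [← Subgroup.relIndex_mul_relIndex (K ⊓ A) A M inf_le_right le_sup_left,
        Subgroup.inf_relIndex_right]
      exact hKA.mul hMA
    have h1 : (K ⊓ A).relIndex (K ⊓ M) = 1 := by
      apply eq_one_of_isPiNumber_of_isPiPrimeNumber (π := σ j)
      · refine hKH.of_dvd ((Subgroup.relIndex_dvd_card _ _).trans ?_)
        exact Subgroup.card_dvd_of_le inf_le_left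
      · refine hKAM.of_dvd ?_
        rw [← Subgroup.relIndex_mul_relIndex (K ⊓ A) (K ⊓ M) M
          (inf_le_inf_left K le_sup_left) inf_le_right]
        exact dvd_mul_right _ _
    have h2 : K ⊓ M ≤ K ⊓ A := Subgroup.relIndex_eq_one.1 h1
    refine ⟨h2.trans inf_le_right, hKAM.of_dvd ?_⟩
    exact Subgroup.relIndex_dvd_of_le_left M inf_le_left
  -- Step 2: the normal subgroup `D`
  set D : Subgroup G := ⨆ j : {j : I // j ≠ i ∧ ¬ IsPiPrimeNumber (σ j) (Nat.card A)},
    ⨆ g : G, (MulAut.conj g • H j) ⊓ M with hD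
  have hDA : D ≤ A := iSup_le fun j => iSup_le fun g => (key j j.2.1 j.2.2 g).1
  have hDconj : ∀ m ∈ M, MulAut.conj m • D ≤ D := by
    intro m hm
    have hmap : ∀ K : Subgroup G, MulAut.conj m • K = K.map (MulAut.conj m).toMonoidHom :=
      fun K => rfl
    rw [hmap, hD, Subgroup.map_iSup]
    refine iSup_le fun j => ?_
    rw [Subgroup.map_iSup]
    refine iSup_le fun g => ?_
    rw [← hmap]
    have h1 : MulAut.conj m • ((MulAut.conj g • H j) ⊓ M) =
        (MulAut.conj (m * g) • H j) ⊓ M := by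
      rw [Subgroup.smul_inf, map_mul, mul_smul]
      congr 1
      exact Subgroup.conj_smul_eq_self_of_mem hm
    rw [h1]
    exact le_iSup_of_le j (le_iSup_of_le (m * g) le_rfl)
  have hDn : (D.subgroupOf M).Normal := by
    constructor
    rintro ⟨x, hx⟩ hxD ⟨m, hm⟩
    rw [Subgroup.mem_subgroupOf] at hxD ⊢
    apply hDconj m hm
    rw [Subgroup.mem_smul_pointwise_iff_exists]
    exact ⟨x, hxD, by simp [MulAut.smul_def]⟩
  refine IsSigmaSubnormal.step_of_le le_sup_left hM hDA hDn (i := i) ?_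
  intro p hp hpD
  obtain ⟨j, hj⟩ := hσ.cover p hp
  by_cases hji : j = i
  · rwa [hji] at hj
  · exfalso
    by_cases hjA : IsPiPrimeNumber (σ j) (Nat.card A)
    · -- `p` divides `|M|`, hence `|A|` or `|N|`
      have hpM : p ∣ Nat.card M := hpD.trans (Subgroup.relIndex_dvd_card D M)
      have h2 : Nat.card A * A.relIndex M = Nat.card M := by
        have h := Subgroup.card_mul_index (A.subgroupOf M)
        rwa [Nat.card_congr (Subgroup.subgroupOfEquivOfLe (le_sup_left : A ≤ A ⊔ N)).toEquiv] at h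
      rw [← h2, hp.dvd_mul] at hpM
      rcases hpM with hpA | hpN
      · exact hjA p hp hpA hj
      · rw [hMdef, relIndex_sup_of_normal A N] at hpN
        exact hσ.piPrime_of_ne (Ne.symm hji) hN p hp (hpN.trans (Subgroup.relIndex_dvd_card A N)) hj
    · refine (key j hji hjA 1).2 p hp (hpD.trans ?_) hj
      have h1 : (MulAut.conj (1 : G) • H j) ⊓ M ≤ D :=
        le_iSup_of_le (⟨j, hji, hjA⟩ : {j : I // j ≠ i ∧ ¬ IsPiPrimeNumber (σ j) (Nat.card A)})
          (le_iSup_of_le 1 le_rfl)
      rw [← Subgroup.inf_relIndex_right (MulAut.conj (1 : G) • H j) M]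
      exact Subgroup.relIndex_dvd_of_le_left M h1

theorem relIndex_subgroupOf {C K X : Subgroup G} (hXC : X ≤ C) :
    (K.subgroupOf C).relIndex (X.subgroupOf C) = K.relIndex X := by
  have h1 : (X.subgroupOf C).map C.subtype = X := by
    rw [Subgroup.subgroupOf_map_subtype, inf_eq_left]
    exact hXC
  have h2 := relIndex_map_map (K.subgroupOf C) (X.subgroupOf C)
  rw [h1, Subgroup.subgroupOf_map_subtype] at h2
  rw [← h2, ← Subgroup.inf_relIndex_right (K ⊓ C) X, ← Subgroup.inf_relIndex_right K X, inf_assoc,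
    inf_eq_right.2 hXC]

theorem conj_subgroupOf {C K : Subgroup G} (c : C) :
    MulAut.conj c • (K.subgroupOf C) = (MulAut.conj (c : G) • K).subgroupOf C := by
  ext x
  rw [Subgroup.mem_pointwise_smul_iff_inv_smul_mem, Subgroup.mem_subgroupOf, Subgroup.mem_subgroupOf,
    Subgroup.mem_pointwise_smul_iff_inv_smul_mem, ← map_inv, ← map_inv, MulAut.smul_def, MulAut.smul_def,
    MulAut.conj_apply, MulAut.conj_apply]
  simp

theorem Star3.subgroupOf {H : I → Subgroup G} {A : Subgroup G} (h : Star3 σ H A) {M : Subgroup G} (hAM : A ≤ M) :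
    Star3 σ (fun i => (H i).subgroupOf M) (A.subgroupOf M) := by
  intro i hi
  rw [Nat.card_congr (Subgroup.subgroupOfEquivOfLe hAM).toEquiv] at hi
  have h' := h i hi
  refine ⟨h'.1.of_dvd (Subgroup.card_comap_dvd_of_injective (H i) M.subtype M.subtype_injective), fun g => ?_⟩
  show IsPiPrimeNumber (σ i) ((MulAut.conj g • (H i).subgroupOf M).relIndex (A.subgroupOf M))
  rw [conj_subgroupOf, relIndex_subgroupOf hAM]
  exact h'.2 g

end Pool.Agent.Lib.MP_8113ca_al.Two
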