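import Pool.Agent.Lib.MP_8113ca_al.Two.Pair
import Pool.Agent.Lib.MP_8113ca_al.Two.Core

/-!
# The theorem for good sets of primes
-/

set_option autoImplicit false

open scoped Pointwise

namespace Pool.Agent.Lib.MP_8113ca_al.Two

open Pool.Agent.Lib.MP_8113ca_al

variable {I : Type*} {σ : I → Set ℕ}

/-- every chief factor of `A` is `σ`-primary, or is a `π ∪ ρ`-group but neither a `π`- nor a `ρ`-group for
two disjoint sets in `W`, or its order is divisible by some prime in `Z` -/
def CZ (σ : I → Set ℕ) (W : Set (Set ℕ)) (Z : Set ℕ) (A : Type*) [Group A] : Prop :=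
  ∀ K L : Subgroup A, IsChiefFactor K L → (∃ i, IsPiNumber (σ i) (K.relIndex L)) ∨
    (∃ π ∈ W, ∃ ρ ∈ W, Disjoint π ρ ∧ IsPiNumber (π ∪ ρ) (K.relIndex L) ∧
      ¬ IsPiNumber π (K.relIndex L) ∧ ¬ IsPiNumber ρ (K.relIndex L)) ∨
    ∃ p ∈ Z, p ∣ K.relIndex L

theorem chief_comap {A B : Type*} [Group A] [Group B] (f : A →* B) (hf : Function.Surjective f)
    {K H : Subgroup B} (h : IsChiefFactor K H) : IsChiefFactor (K.comap f) (H.comap f) := by
  obtain ⟨hK, hH, hKH, hmin⟩ := h
  refine ⟨hK.comap f, hH.comap f, ?_, ?_⟩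
  · refine lt_of_le_of_ne (Subgroup.comap_mono hKH.le) fun he => ?_
    exact hKH.ne (Subgroup.comap_injective hf he)
  · intro L hL hKL hLH
    have h1 : (L.map f).comap f = L := by
      apply Subgroup.comap_map_eq_self
      exact le_trans (f.ker_le_comap K) hKL
    have h2 : K ≤ L.map f := by
      have := Subgroup.map_mono (f := f) hKL
      rwa [Subgroup.map_comap_eq_self_of_surjective hf] at this
    have h3 : L.map f ≤ H := by
      have := Subgroup.map_mono (f := f) hLH
      rwa [Subgroup.map_comap_eq_self_of_surjective hf] at this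
    rcases hmin (L.map f) (hL.map f hf) h2 h3 with h4 | h4
    · left; rw [← h1, h4]
    · right; rw [← h1, h4]

theorem CZ.of_surjective {W : Set (Set ℕ)} {Z : Set ℕ} {A B : Type*} [Group A] [Group B] (f : A →* B)
    (hf : Function.Surjective f) (h : CZ σ W Z A) : CZ σ W Z B := by
  intro K H hc
  have h5 := h _ _ (chief_comap f hf hc)
  rwa [relIndex_comap_comap_of_surjective f hf] at h5

/-- a minimal normal subgroup of `A` involving a good set with cyclic normal Sylow subgroup contains a normal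
subgroup of `G` -/
theorem exists_normal_cyc {G : Type*} [Group G] [Finite G] {π : Set ℕ} {A P : Subgroup G} (hP : Gd A π P)
    {X : Subgroup A} (hX : IsChiefFactor ⊥ X) {r : ℕ} (hcyc : NC r P)
    (hr : r.Prime) (hrl : r ∈ π) (hrd : r ∣ Nat.card X) : ∃ N : Subgroup G, N.Normal ∧ N ≠ ⊥ ∧ N ≤ A := by
  have hXn : X.Normal := hX.2.1
  have : Fact r.Prime := ⟨hr⟩
  obtain ⟨C, hCn, hCc, hCi⟩ := hcyc
  have hC : ∀ y : P, orderOf y = r → y ∈ C := by
    intro y hy
    have h1 : orderOf (QuotientGroup.mk' C y) ∣ r := by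
      rw [← hy]
      exact orderOf_map_dvd _ y
    rcases (Nat.dvd_prime hr).1 h1 with h2 | h2
    · exact (QuotientGroup.eq_one_iff y).1 (orderOf_eq_one_iff.1 h2)
    · exfalso
      apply hCi
      rw [← h2, Subgroup.index_eq_card]
      exact orderOf_dvd_natCard _
  have hcardX : Nat.card (X.map A.subtype) = Nat.card X := card_map_subtype X
  -- every conjugate contains an element of order `r` of `A`
  have hex : ∀ g : G, ∃ x ∈ A, x ∈ Cj P g ∧ orderOf x = r := by
    intro g
    have h1 := card_inf_mul_relIndex (Cj P g) (X.map A.subtype)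
    have h2 : IsPiPrimeNumber π ((Cj P g).relIndex (X.map A.subtype)) := by
      rw [← conj_smul_eq]
      exact (hP.2 g).of_dvd (relIndex_map_subtype_dvd _ X)
    have h3 : r ∣ Nat.card (X.map A.subtype ⊓ Cj P g : Subgroup G) := by
      have h4 : r ∣ Nat.card (X.map A.subtype ⊓ Cj P g : Subgroup G) *
          (Cj P g).relIndex (X.map A.subtype) := by
        rw [h1, hcardX]
        exact hrd
      rcases hr.dvd_mul.1 h4 with h | h
      · exact h
      · exact absurd hrl (h2 r hr h)
    obtain ⟨x, hx⟩ := exists_prime_orderOf_dvd_card' r h3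
    exact ⟨x.1, Subgroup.map_subtype_le X x.2.1, x.2.2, by rw [Subgroup.orderOf_coe]; exact hx⟩
  obtain ⟨z, -, hz, hzr⟩ := hex 1
  rw [Cj_one] at hz
  -- all conjugates of `z` are in `A`
  have hall : ∀ g : G, g * z * g⁻¹ ∈ A := by
    intro g
    obtain ⟨x, hxA, hxH, hxr⟩ := hex g
    rw [mem_Cj] at hxH
    have h1 : orderOf (⟨g⁻¹ * x * g, hxH⟩ : P) = r := by
      rw [Subgroup.orderOf_mk, ← hxr]
      have := orderOf_injective (MulAut.conj g⁻¹).toMonoidHom (MulAut.conj g⁻¹).injective x
      simpa using this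
    have h2 : orderOf (⟨z, hz⟩ : P) = r := by rw [Subgroup.orderOf_mk]; exact hzr
    have h4 : (⟨z, hz⟩ : P) ∈ Subgroup.zpowers (⟨g⁻¹ * x * g, hxH⟩ : P) := by
      have h8 := cyc_mem hCc hr.pos (x := ⟨_, hC _ h1⟩) (y := ⟨_, hC _ h2⟩)
        (by rw [Subgroup.orderOf_mk]; exact h1) (by rw [Subgroup.orderOf_mk]; exact h2)
      obtain ⟨k, hk⟩ := Subgroup.mem_zpowers_iff.1 h8
      exact Subgroup.mem_zpowers_iff.2 ⟨k, congrArg Subtype.val hk⟩
    obtain ⟨k, hk⟩ := Subgroup.mem_zpowers_iff.1 h4
    have h5 : (g⁻¹ * x * g) ^ k = z := congrArg Subtype.val hk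
    have h6 : g * z * g⁻¹ = x ^ k := by
      rw [← h5]
      have h7 : (g⁻¹ * x * g) ^ k = g⁻¹ * x ^ k * g := by
        have := map_zpow (MulAut.conj g⁻¹).toMonoidHom x k
        simpa using this.symm
      rw [h7]
      group
    rw [h6]
    exact A.zpow_mem hxA k
  refine ⟨Subgroup.normalClosure {z}, Subgroup.normalClosure_normal, ?_, ?_⟩
  · intro h
    have h1 : z ∈ Subgroup.normalClosure {z} := Subgroup.subset_normalClosure (Set.mem_singleton z)
    rw [h, Subgroup.mem_bot] at h1
    rw [h1, orderOf_one] at hzr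
    exact hr.one_lt.ne hzr
  · rw [Subgroup.normalClosure, Subgroup.closure_le]
    intro y hy
    rw [Group.mem_conjugatesOfSet_iff] at hy
    obtain ⟨a, ha, hc⟩ := hy
    rw [Set.mem_singleton_iff] at ha
    subst ha
    obtain ⟨c, hc⟩ := isConj_iff.1 hc
    rw [← hc]
    exact hall c

/-- a good set of primes whose subgroups are contained in `A` -/
theorem exists_normal_inside {G : Type*} [Group G] [Finite G] {π : Set ℕ} {A P : Subgroup G} (hP : Gd A π P)
    (hle : ∀ g : G, MulAut.conj g • P ≤ A) {r : ℕ}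
    (hr : r.Prime) (hrl : r ∈ π) (hrd : r ∣ Nat.card A) : ∃ N : Subgroup G, N.Normal ∧ N ≠ ⊥ ∧ N ≤ A := by
  have hne : P ≠ ⊥ := by
    intro h
    have h1 := hP.2 1
    rw [h] at h1
    have h2 : (MulAut.conj (1 : G) • (⊥ : Subgroup G)) = ⊥ := by
      rw [conj_smul_eq, Cj_one]
    rw [h2, Subgroup.relIndex_bot_left] at h1
    exact h1 r hr hrd hrl
  refine ⟨Subgroup.normalClosure (P : Set G), Subgroup.normalClosure_normal, ?_, ?_⟩
  · intro h
    refine hne (le_bot_iff.1 ?_)
    rw [← h]
    exact Subgroup.le_normalClosure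
  · rw [Subgroup.normalClosure, Subgroup.closure_le]
    intro y hy
    rw [Group.mem_conjugatesOfSet_iff] at hy
    obtain ⟨a, ha, hc⟩ := hy
    obtain ⟨c, rfl⟩ := isConj_iff.1 hc
    refine hle c ?_
    rw [Subgroup.mem_smul_pointwise_iff_exists]
    exact ⟨a, ha, by rw [MulAut.smul_def, MulAut.conj_apply]⟩

/-- `P` is contained in `A` together with its conjugates if its order divides the order of `A` -/
theorem Gd.le_of_card_dvd {G : Type*} [Group G] [Finite G] {π : Set ℕ} {A P : Subgroup G} (hP : Gd A π P)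
    (hd : Nat.card P ∣ Nat.card A) (g : G) : MulAut.conj g • P ≤ A := by
  have h2 := hP.2 g
  rw [conj_smul_eq] at h2 ⊢
  have h3 := card_inf_mul_relIndex (Cj P g) A
  have hc : (Nat.card (Cj P g)).Coprime ((Cj P g).relIndex A) := by
    rw [card_Cj]
    exact coprime_of_pi hP.1 h2
  have h4 : Nat.card (Cj P g) ∣ Nat.card (A ⊓ Cj P g : Subgroup G) := by
    refine hc.dvd_of_dvd_mul_right ?_
    rw [h3, card_Cj]
    exact hd
  have h5 : A ⊓ Cj P g = Cj P g :=
    Subgroup.eq_of_le_of_card_ge inf_le_right (Nat.le_of_dvd Nat.card_pos h4)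
  rw [← h5]
  exact inf_le_left

theorem mainZ (hσ : IsPrimePartition σ) (n : ℕ) :
    ∀ (G : Type*) [Group G] [Finite G], Nat.card G = n →
      ∀ (H : I → Subgroup G) (A : Subgroup G) (W : Set (Set ℕ)) (Z : Set ℕ),
      (∀ π ∈ W, ∃ P : Subgroup G, Gd A π P) →
      (∀ p ∈ Z, p.Prime ∧ ∃ (π : Set ℕ) (P : Subgroup G), p ∈ π ∧ Gd A π P ∧
        (NC p P ∨ ∀ g : G, MulAut.conj g • P ≤ A)) →
      Star3 σ H A → CZ σ W Z A → IsSigmaSubnormal σ A := by
  induction n using Nat.strong_induction_on with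
  | _ n ih =>
    intro G _ _ hG H A W Z hW hZ hstar hcz
    by_cases hA : A = ⊥
    · subst hA
      refine .step _ ⊤ bot_le .top (Or.inl ?_)
      have : (⊥ : Subgroup G).subgroupOf ⊤ = ⊥ := by
        ext ⟨x, hx⟩
        simp
      rw [this]
      infer_instance
    -- the quotient by a nontrivial normal subgroup
    have hquot : ∀ N : Subgroup G, N.Normal → N ≠ ⊥ → IsSigmaSubnormal σ (A ⊔ N) := by
      intro N hN hN0
      have hq := ih _ (hG ▸ card_quotient_lt hN0) (G ⧸ N) rfl (fun i => (H i).map (QuotientGroup.mk' N))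
        (A.map (QuotientGroup.mk' N)) W Z (fun π hπ => by
          obtain ⟨P, hP⟩ := hW π hπ
          exact ⟨_, hP.map (QuotientGroup.mk' N) (QuotientGroup.mk'_surjective N)⟩)
        (fun p hp => by
          obtain ⟨hpp, π, P, hpπ, hP, h⟩ := hZ p hp
          refine ⟨hpp, π, _, hpπ, hP.map (QuotientGroup.mk' N) (QuotientGroup.mk'_surjective N), ?_⟩
          rcases h with h | h
          · exact Or.inl (h.of_surjective ((QuotientGroup.mk' N).subgroupMap P)
              ((QuotientGroup.mk' N).subgroupMap_surjective P))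
          · refine Or.inr fun g' => ?_
            obtain ⟨g, rfl⟩ := QuotientGroup.mk'_surjective N g'
            rw [← map_conj_smul]
            exact Subgroup.map_mono (h g))
        (hstar.map (QuotientGroup.mk' N) (QuotientGroup.mk'_surjective N))
        (hcz.of_surjective _ ((QuotientGroup.mk' N).subgroupMap_surjective A))
      have h3 := hq.comap (QuotientGroup.mk' N) (QuotientGroup.mk'_surjective N)
      rwa [Subgroup.comap_map_eq, QuotientGroup.ker_mk'] at h3
    -- reduction
    have hred : ∀ N : Subgroup G, N.Normal → N ≠ ⊥ → (A ⊔ N = ⊤ → ∃ R : Subgroup G, R.Normal ∧ R ≠ ⊥ ∧ R ≤ A) →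
        IsSigmaSubnormal σ A := by
      intro N hN hN0 hNA
      by_cases hMtop : A ⊔ N = ⊤
      · obtain ⟨R, hR, hR0, hRA⟩ := hNA hMtop
        have := hquot R hR hR0
        rwa [sup_eq_left.2 hRA] at this
      · have h1 := ih _ (hG ▸ card_subgroup_lt hMtop) (A ⊔ N : Subgroup G) rfl
          (fun i => (H i).subgroupOf (A ⊔ N)) (A.subgroupOf (A ⊔ N)) W Z (fun π hπ => by
            obtain ⟨P, hP⟩ := hW π hπ
            exact ⟨_, hP.subgroupOf le_sup_left⟩)
          (fun p hp => by
            obtain ⟨hpp, π, P, hpπ, hP, h⟩ := hZ p hp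
            refine ⟨hpp, π, _, hpπ, hP.subgroupOf (le_sup_left : A ≤ A ⊔ N), ?_⟩
            rcases h with h | h
            · exact Or.inl (h.of_injective ((A ⊔ N).subtype.subgroupComap P) fun _ _ hxy =>
                Subtype.ext (Subtype.ext (congrArg (fun z : P => (z : G)) hxy)))
            · refine Or.inr fun g => ?_
              rw [conj_subgroupOf]
              exact Subgroup.comap_mono (h g))
          (hstar.subgroupOf (le_sup_left : A ≤ A ⊔ N))
          (hcz.of_surjective (Subgroup.subgroupOfEquivOfLe (le_sup_left : A ≤ A ⊔ N)).symm.toMonoidHom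
            (Subgroup.subgroupOfEquivOfLe (le_sup_left : A ≤ A ⊔ N)).symm.surjective)
        have h2 := IsSigmaSubnormal.trans (hquot N hN hN0) h1
        rw [Subgroup.subgroupOf_map_subtype, inf_eq_left.2 le_sup_left] at h2
        exact h2
    have hnt : Nontrivial A := (Subgroup.nontrivial_iff_ne_bot A).2 hA
    obtain ⟨X, hX⟩ := exists_min_normal A
    have hXn : X.Normal := hX.2.1
    have hX1 : Nat.card X ≠ 1 := fun h => hX.2.2.1.ne' (Subgroup.card_eq_one.1 h)
    have hXcf := hcz _ _ hX
    rw [Subgroup.relIndex_bot_left] at hXcf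
    rcases hXcf with ⟨i, hi⟩ | ⟨π, hπ, ρ, hρ, hd, hn, hnπ, hnρ⟩ | ⟨r, hrZ, hr⟩
    · -- a primary minimal normal subgroup
      obtain ⟨p, hp, hpd⟩ := Nat.exists_prime_and_dvd hX1
      have hmeet : ¬ IsPiPrimeNumber (σ i) (Nat.card A) := fun h =>
        h p hp (hpd.trans (Subgroup.card_subgroup_dvd_card X)) (hi p hp hpd)
      have h1 := map_le_normalCore3 hstar hmeet hi
      have hN0 : (H i).normalCore ≠ ⊥ := by
        intro h
        rw [h, le_bot_iff, Subgroup.map_eq_bot_iff_of_injective _ A.subtype_injective] at h1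
        exact hX.2.2.1.ne' h1
      have hNn : ((H i).normalCore).Normal := Subgroup.normalCore_normal _
      have hNi : IsPiNumber (σ i) (Nat.card (H i).normalCore) :=
        (hstar i hmeet).1.of_dvd (Subgroup.card_dvd_of_le (Subgroup.normalCore_le _))
      exact step_sup3 hσ hstar hNi (hquot _ hNn hN0)
    · obtain ⟨P, hP⟩ := hW π hπ
      obtain ⟨Q, hQ⟩ := hW ρ hρ
      by_cases hcP : P.normalCore = ⊥
      · by_cases hcQ : Q.normalCore = ⊥
        · obtain ⟨N, hN, hN0, hNA⟩ := exists_normal_pair hd hP hQ hcP hcQ hX hn hnπ hnρ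
          exact hred N hN hN0 fun h => ⟨N, hN, hN0, hNA h⟩
        · have hNn : (Q.normalCore).Normal := Subgroup.normalCore_normal _
          refine hred Q.normalCore hNn hcQ fun h => ?_
          exact exists_normal_of_top hd.symm
            (hQ.1.of_dvd (Subgroup.card_dvd_of_le (Subgroup.normalCore_le _))) h hP.1 hP.2
            (by rw [Set.union_comm]; exact hn) hnρ
      · have hNn : (P.normalCore).Normal := Subgroup.normalCore_normal _
        refine hred P.normalCore hNn hcP fun h => ?_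
        exact exists_normal_of_top hd
          (hP.1.of_dvd (Subgroup.card_dvd_of_le (Subgroup.normalCore_le _))) h hQ.1 hQ.2 hn hnπ
    · obtain ⟨hrp, π, P, hrπ, hP, h⟩ := hZ r hrZ
      obtain ⟨N, hNn, hN0, hNA⟩ : ∃ N : Subgroup G, N.Normal ∧ N ≠ ⊥ ∧ N ≤ A := by
        rcases h with h | h
        · exact exists_normal_cyc hP hX h hrp hrπ hr
        · exact exists_normal_inside hP h hrp hrπ (hr.trans (Subgroup.card_subgroup_dvd_card X))
      have := hquot N hNn hN0
      rwa [sup_eq_left.2 hNA] at this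

end Pool.Agent.Lib.MP_8113ca_al.Two
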